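import Mathlib
import Pool.Agent.H548.BL.Main

/-!
Trilinear forms in `N1 + N2 + N3` variables: divisors of type `(1,1,1)` in the product of three
projective spaces.  Definitions.
-/

namespace Pool.Agent.H548.TL

open Matrix

variable {R : Type*} [CommRing R] {N1 N2 N3 : ℕ}

/-- The partial derivatives of the trilinear form in the first argument. -/
def g1 (T : Fin N1 → Fin N2 → Fin N3 → ℤ) (y : Fin N2 → R) (z : Fin N3 → R) : Fin N1 → R :=
  fun i => ∑ j, ∑ k, (T i j k : R) * y j * z k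

/-- The partial derivatives of the trilinear form in the second argument. -/
def g2 (T : Fin N1 → Fin N2 → Fin N3 → ℤ) (x : Fin N1 → R) (z : Fin N3 → R) : Fin N2 → R :=
  fun j => ∑ i, ∑ k, (T i j k : R) * x i * z k

/-- The partial derivatives of the trilinear form in the third argument. -/
def g3 (T : Fin N1 → Fin N2 → Fin N3 → ℤ) (x : Fin N1 → R) (y : Fin N2 → R) : Fin N3 → R :=
  fun k => ∑ i, ∑ j, (T i j k : R) * x i * y j

/-- The trilinear form. -/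
def tf (T : Fin N1 → Fin N2 → Fin N3 → ℤ) (x : Fin N1 → R) (y : Fin N2 → R) (z : Fin N3 → R) : R :=
  ∑ i, ∑ j, ∑ k, (T i j k : R) * x i * y j * z k

/-- The divisor `tf T = 0` is smooth: there is no complex point at which all partial derivatives
vanish. -/
def Smooth (T : Fin N1 → Fin N2 → Fin N3 → ℤ) : Prop :=
  ∀ (x : Fin N1 → ℂ) (y : Fin N2 → ℂ) (z : Fin N3 → ℂ), x ≠ 0 → y ≠ 0 → z ≠ 0 →
    ¬ (g1 T y z = 0 ∧ g2 T x z = 0 ∧ g3 T x y = 0)

/-- The points of the open set `U` of the divisor: none of the three vectors of partial derivatives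
is zero. -/
def InU (T : Fin N1 → Fin N2 → Fin N3 → ℤ) (x : Fin N1 → R) (y : Fin N2 → R) (z : Fin N3 → R) :
    Prop := tf T x y z = 0 ∧ g1 T y z ≠ 0 ∧ g2 T x z ≠ 0 ∧ g3 T x y ≠ 0

theorem tf_g1 (T : Fin N1 → Fin N2 → Fin N3 → ℤ) (x : Fin N1 → R) (y : Fin N2 → R)
    (z : Fin N3 → R) : tf T x y z = x ⬝ᵥ g1 T y z := by
  unfold tf g1 dotProduct
  refine Finset.sum_congr rfl fun i _ => ?_
  rw [Finset.mul_sum]
  refine Finset.sum_congr rfl fun j _ => ?_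
  rw [Finset.mul_sum]
  refine Finset.sum_congr rfl fun k _ => ?_
  ring

theorem tf_g2 (T : Fin N1 → Fin N2 → Fin N3 → ℤ) (x : Fin N1 → R) (y : Fin N2 → R)
    (z : Fin N3 → R) : tf T x y z = y ⬝ᵥ g2 T x z := by
  unfold tf g2 dotProduct
  rw [Finset.sum_comm]
  refine Finset.sum_congr rfl fun j _ => ?_
  rw [Finset.mul_sum]
  refine Finset.sum_congr rfl fun i _ => ?_
  rw [Finset.mul_sum]
  refine Finset.sum_congr rfl fun k _ => ?_
  ring

/-- Exchange of the first two arguments. -/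
def s12 (T : Fin N1 → Fin N2 → Fin N3 → ℤ) : Fin N2 → Fin N1 → Fin N3 → ℤ := fun j i k => T i j k

/-- Exchange of the last two arguments. -/
def s23 (T : Fin N1 → Fin N2 → Fin N3 → ℤ) : Fin N1 → Fin N3 → Fin N2 → ℤ := fun i k j => T i j k

theorem g1_s12 (T : Fin N1 → Fin N2 → Fin N3 → ℤ) (x : Fin N1 → R) (z : Fin N3 → R) :
    g1 (s12 T) x z = g2 T x z := rfl

theorem g2_s12 (T : Fin N1 → Fin N2 → Fin N3 → ℤ) (y : Fin N2 → R) (z : Fin N3 → R) :
    g2 (s12 T) y z = g1 T y z := rfl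

theorem g3_s12 (T : Fin N1 → Fin N2 → Fin N3 → ℤ) (y : Fin N2 → R) (x : Fin N1 → R) :
    g3 (s12 T) y x = g3 T x y := by
  funext k
  unfold g3 s12
  rw [Finset.sum_comm]
  refine Finset.sum_congr rfl fun i _ => Finset.sum_congr rfl fun j _ => ?_
  ring

theorem tf_s12 (T : Fin N1 → Fin N2 → Fin N3 → ℤ) (x : Fin N1 → R) (y : Fin N2 → R)
    (z : Fin N3 → R) : tf (s12 T) y x z = tf T x y z := by
  rw [tf_g1, g1_s12, tf_g2]

theorem g2_s23 (T : Fin N1 → Fin N2 → Fin N3 → ℤ) (x : Fin N1 → R) (y : Fin N2 → R) :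
    g2 (s23 T) x y = g3 T x y := rfl

theorem g3_s23 (T : Fin N1 → Fin N2 → Fin N3 → ℤ) (x : Fin N1 → R) (z : Fin N3 → R) :
    g3 (s23 T) x z = g2 T x z := rfl

theorem g1_s23 (T : Fin N1 → Fin N2 → Fin N3 → ℤ) (y : Fin N2 → R) (z : Fin N3 → R) :
    g1 (s23 T) z y = g1 T y z := by
  funext i
  unfold g1 s23
  rw [Finset.sum_comm]
  refine Finset.sum_congr rfl fun i _ => Finset.sum_congr rfl fun j _ => ?_
  ring

theorem tf_s23 (T : Fin N1 → Fin N2 → Fin N3 → ℤ) (x : Fin N1 → R) (y : Fin N2 → R)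
    (z : Fin N3 → R) : tf (s23 T) x z y = tf T x y z := by
  rw [tf_g1, g1_s23, tf_g1]

theorem tf_g3 (T : Fin N1 → Fin N2 → Fin N3 → ℤ) (x : Fin N1 → R) (y : Fin N2 → R)
    (z : Fin N3 → R) : tf T x y z = z ⬝ᵥ g3 T x y := by
  rw [← tf_s23, tf_g2, g2_s23]

theorem inU_s12 {T : Fin N1 → Fin N2 → Fin N3 → ℤ} {x : Fin N1 → R} {y : Fin N2 → R}
    {z : Fin N3 → R} : InU (s12 T) y x z ↔ InU T x y z := by
  unfold InU
  rw [tf_s12, g1_s12, g2_s12, g3_s12]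
  tauto

theorem inU_s23 {T : Fin N1 → Fin N2 → Fin N3 → ℤ} {x : Fin N1 → R} {y : Fin N2 → R}
    {z : Fin N3 → R} : InU (s23 T) x z y ↔ InU T x y z := by
  unfold InU
  rw [tf_s23, g1_s23, g2_s23, g3_s23]
  tauto

/-- Smoothness over a ring. -/
def Sm (R : Type*) [CommRing R] (T : Fin N1 → Fin N2 → Fin N3 → ℤ) : Prop :=
  ∀ (x : Fin N1 → R) (y : Fin N2 → R) (z : Fin N3 → R), x ≠ 0 → y ≠ 0 → z ≠ 0 →
    ¬ (g1 T y z = 0 ∧ g2 T x z = 0 ∧ g3 T x y = 0)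

theorem Sm.s12 {T : Fin N1 → Fin N2 → Fin N3 → ℤ} (h : Sm R T) : Sm R (s12 T) := by
  intro y x z hy hx hz
  rw [g1_s12, g2_s12, g3_s12]
  have := h x y z hx hy hz
  tauto

theorem Sm.s23 {T : Fin N1 → Fin N2 → Fin N3 → ℤ} (h : Sm R T) : Sm R (s23 T) := by
  intro x z y hx hz hy
  rw [g1_s23, g2_s23, g3_s23]
  have := h x y z hx hy hz
  tauto

open Pool.Agent.H548.BL (cc cc_zero)

theorem g1_cc (T : Fin N1 → Fin N2 → Fin N3 → ℤ) (y : Fin N2 → ℝ) (z : Fin N3 → ℝ) :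
    g1 T (cc y) (cc z) = cc (g1 T y z) := by
  funext i
  unfold g1 cc
  push_cast
  rfl

theorem g2_cc (T : Fin N1 → Fin N2 → Fin N3 → ℤ) (x : Fin N1 → ℝ) (z : Fin N3 → ℝ) :
    g2 T (cc x) (cc z) = cc (g2 T x z) := by
  rw [← g1_s12, g1_cc, g1_s12]

theorem g3_cc (T : Fin N1 → Fin N2 → Fin N3 → ℤ) (x : Fin N1 → ℝ) (y : Fin N2 → ℝ) :
    g3 T (cc x) (cc y) = cc (g3 T x y) := by
  rw [← g2_s23, g2_cc, g2_s23]

theorem Sm.real {T : Fin N1 → Fin N2 → Fin N3 → ℤ} (h : Sm ℂ T) : Sm ℝ T := by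
  intro x y z hx hy hz hh
  apply h (cc x) (cc y) (cc z) (fun h => hx (cc_zero h)) (fun h => hy (cc_zero h))
    (fun h => hz (cc_zero h))
  rw [g1_cc, g2_cc, g3_cc, hh.1, hh.2.1, hh.2.2]
  have h0 : ∀ N : ℕ, (cc (0 : Fin N → ℝ)) = 0 := by
    intro N
    funext i
    simp [cc]
  exact ⟨h0 _, h0 _, h0 _⟩

/-- The matrix of the bilinear form which the trilinear form becomes for a given first argument. -/
def Tx (T : Fin N1 → Fin N2 → Fin N3 → ℤ) (x : Fin N1 → R) : Matrix (Fin N2) (Fin N3) R :=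
  Matrix.of fun j k => ∑ i, (T i j k : R) * x i

theorem Tx_mulVec (T : Fin N1 → Fin N2 → Fin N3 → ℤ) (x : Fin N1 → R) (z : Fin N3 → R) :
    Tx T x *ᵥ z = g2 T x z := by
  funext j
  unfold Tx g2 mulVec dotProduct
  simp only [of_apply]
  rw [Finset.sum_comm]
  refine Finset.sum_congr rfl fun i _ => ?_
  rw [Finset.sum_mul]

theorem vecMul_Tx (T : Fin N1 → Fin N2 → Fin N3 → ℤ) (x : Fin N1 → R) (y : Fin N2 → R) :
    y ᵥ* Tx T x = g3 T x y := by
  funext k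
  unfold Tx g3 vecMul dotProduct
  simp only [of_apply]
  rw [Finset.sum_comm]
  refine Finset.sum_congr rfl fun i _ => ?_
  rw [Finset.mul_sum]
  refine Finset.sum_congr rfl fun j _ => ?_
  ring

theorem Tx_add (T : Fin N1 → Fin N2 → Fin N3 → ℤ) (x v : Fin N1 → R) (t : R) :
    Tx T (x + t • v) = Tx T x + t • Tx T v := by
  ext j k
  unfold Tx
  simp only [of_apply, Matrix.add_apply, Matrix.smul_apply, Pi.add_apply, Pi.smul_apply, smul_eq_mul]
  rw [Finset.mul_sum, ← Finset.sum_add_distrib]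
  refine Finset.sum_congr rfl fun i _ => ?_
  ring

theorem Tx_zero (T : Fin N1 → Fin N2 → Fin N3 → ℤ) : Tx T (0 : Fin N1 → R) = 0 := by
  ext j k
  unfold Tx
  simp

theorem g2_add (T : Fin N1 → Fin N2 → Fin N3 → ℤ) (x : Fin N1 → R) (z w : Fin N3 → R) :
    g2 T x (z + w) = g2 T x z + g2 T x w := by
  rw [← Tx_mulVec, ← Tx_mulVec, ← Tx_mulVec, mulVec_add]

theorem g2_lin (T : Fin N1 → Fin N2 → Fin N3 → ℤ) (x v : Fin N1 → R) (t : R) (z : Fin N3 → R) :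
    g2 T (x + t • v) z = g2 T x z + t • g2 T v z := by
  rw [← Tx_mulVec, ← Tx_mulVec, ← Tx_mulVec, Tx_add, add_mulVec, smul_mulVec]

theorem g3_add (T : Fin N1 → Fin N2 → Fin N3 → ℤ) (x : Fin N1 → R) (y w : Fin N2 → R) :
    g3 T x (y + w) = g3 T x y + g3 T x w := by
  rw [← g2_s23, ← g2_s23, ← g2_s23, g2_add]

theorem g1_add (T : Fin N1 → Fin N2 → Fin N3 → ℤ) (y w : Fin N2 → R) (z : Fin N3 → R) :
    g1 T (y + w) z = g1 T y z + g1 T w z := by
  have h := g2_lin (s12 T) y w 1 z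
  rw [one_smul, one_smul] at h
  exact h

end Pool.Agent.H548.TL
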