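import Mathlib
import Pool.Agent.H548.TL.Stm
import Pool.Agent.H548.BL.Geo

/-! The rank at a generic point. -/

namespace Pool.Agent.H548.TL

open Module Matrix Topology

/-- At a point where the rank is locally maximal the derivative maps the kernel to the image. -/
theorem first_order {𝕜 : Type*} [RCLike 𝕜] {m n : ℕ} (P Q : Matrix (Fin m) (Fin n) 𝕜)
    (h : ∀ᶠ t : 𝕜 in 𝓝 0, (P + t • Q).rank ≤ P.rank) {ξ : Fin m → 𝕜} {η : Fin n → 𝕜}
    (hξ : ξ ᵥ* P = 0) (hη : P *ᵥ η = 0) : ξ ⬝ᵥ (Q *ᵥ η) = 0 := by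
  by_contra hne
  -- a basis of the range
  set r := P.rank with hr
  obtain ⟨b⟩ : Nonempty (Basis (Fin r) 𝕜 (LinearMap.range P.mulVecLin)) :=
    ⟨finBasisOfFinrankEq 𝕜 _ rfl⟩
  have hv : ∀ i, ∃ v : Fin n → 𝕜, P *ᵥ v = (b i : Fin m → 𝕜) := by
    intro i
    obtain ⟨v, hv⟩ := (b i).2
    exact ⟨v, hv⟩
  choose v hv using hv
  -- the family
  let f : 𝕜 → Fin (r + 1) → (Fin m → 𝕜) := fun t =>
    Fin.cons (Q *ᵥ η) (fun i => (P + t • Q) *ᵥ v i)
  have hf0 : LinearIndependent 𝕜 (f 0) := by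
    have h1 : f 0 = Fin.cons (Q *ᵥ η) (fun i => (b i : Fin m → 𝕜)) := by
      funext j
      refine Fin.cases rfl (fun i => ?_) j
      show (P + (0 : 𝕜) • Q) *ᵥ v i = _
      rw [zero_smul, add_zero, hv i]
      rfl
    rw [h1, linearIndependent_finCons]
    constructor
    · have := b.linearIndependent
      exact this.map' (LinearMap.range P.mulVecLin).subtype (Submodule.ker_subtype _)
    · intro hmem
      apply hne
      have h2 : Submodule.span 𝕜 (Set.range fun i => (b i : Fin m → 𝕜)) ≤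
          LinearMap.range P.mulVecLin := by
        rw [Submodule.span_le]
        rintro _ ⟨i, rfl⟩
        exact (b i).2
      obtain ⟨w, hw⟩ := h2 hmem
      rw [Matrix.mulVecLin_apply] at hw
      rw [← hw, dotProduct_mulVec, hξ, zero_dotProduct]
  have hcont : Continuous f := by
    apply continuous_pi
    intro j
    refine Fin.cases ?_ (fun i => ?_) j
    · exact continuous_const
    · show Continuous fun t : 𝕜 => (P + t • Q) *ᵥ v i
      have : (fun t : 𝕜 => (P + t • Q) *ᵥ v i) = fun t => P *ᵥ v i + t • (Q *ᵥ v i) := by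
        funext t
        rw [add_mulVec, smul_mulVec]
      rw [this]
      fun_prop
  have hopen := isOpen_setOfPred_linearIndependent (𝕜 := 𝕜) (E := Fin m → 𝕜) (ι := Fin (r + 1))
  have hev : ∀ᶠ t : 𝕜 in 𝓝 0, LinearIndependent 𝕜 (f t) :=
    hcont.continuousAt.eventually (hopen.eventually_mem hf0)
  have hne0 : ∃ t : 𝕜, t ≠ 0 ∧ LinearIndependent 𝕜 (f t) ∧ (P + t • Q).rank ≤ r := by
    have h3 := (hev.and h)
    have h4 : ∀ᶠ t : 𝕜 in 𝓝[≠] 0, (LinearIndependent 𝕜 (f t) ∧ (P + t • Q).rank ≤ r) :=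
      h3.filter_mono nhdsWithin_le_nhds
    have h5 : ∀ᶠ t : 𝕜 in 𝓝[≠] 0, t ≠ 0 := eventually_mem_nhdsWithin
    obtain ⟨t, ht1, ht2⟩ := (h5.and h4).exists
    exact ⟨t, ht1, ht2⟩
  obtain ⟨t, ht0, hli, hrk⟩ := hne0
  -- all vectors are in the range
  have hin : ∀ j, f t j ∈ LinearMap.range (P + t • Q).mulVecLin := by
    intro j
    refine Fin.cases ?_ (fun i => ?_) j
    · refine ⟨t⁻¹ • η, ?_⟩
      rw [Matrix.mulVecLin_apply]
      show (P + t • Q) *ᵥ (t⁻¹ • η) = Q *ᵥ η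
      rw [mulVec_smul, add_mulVec, hη, zero_add, smul_mulVec, smul_smul, inv_mul_cancel₀ ht0,
        one_smul]
    · exact ⟨v i, rfl⟩
  have h6 : LinearIndependent 𝕜 (fun j => (⟨f t j, hin j⟩ :
      LinearMap.range (P + t • Q).mulVecLin)) :=
    LinearIndependent.of_comp (LinearMap.range (P + t • Q).mulVecLin).subtype hli
  have h7 := h6.fintype_card_le_finrank
  rw [Fintype.card_fin] at h7
  have h8 : finrank 𝕜 (LinearMap.range (P + t • Q).mulVecLin) = (P + t • Q).rank := rfl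
  omega


theorem exists_ker {𝕜 : Type*} [Field 𝕜] {m n : ℕ} (P : Matrix (Fin m) (Fin n) 𝕜)
    (h : P.rank < n) : ∃ η : Fin n → 𝕜, η ≠ 0 ∧ P *ᵥ η = 0 := by
  have h3 := LinearMap.finrank_range_add_finrank_ker P.mulVecLin
  rw [finrank_fintype_fun_eq_card, Fintype.card_fin] at h3
  have h4 : finrank 𝕜 (LinearMap.range P.mulVecLin) = P.rank := rfl
  have h5 : LinearMap.ker P.mulVecLin ≠ ⊥ := by
    intro h0
    rw [h0, finrank_bot] at h3
    omega
  obtain ⟨η, hη, hη0⟩ := Submodule.exists_mem_ne_zero_of_ne_bot h5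
  exact ⟨η, hη0, by simpa using hη⟩

/-- The generic matrix of the trilinear form has rank at least three. -/
theorem exists_rank {𝕜 : Type*} [RCLike 𝕜] {N1 N2 N3 : ℕ} (h1 : 1 ≤ N1) (h2 : 3 ≤ N2)
    (h3 : 3 ≤ N3) {T : Fin N1 → Fin N2 → Fin N3 → ℤ} (hs : Sm 𝕜 T) :
    ∃ x : Fin N1 → 𝕜, x ≠ 0 ∧ 3 ≤ (Tx T x).rank := by
  have hS : ({x : Fin N1 → 𝕜 | x ≠ 0}).Nonempty := by
    refine ⟨fun _ => 1, ?_⟩
    intro h
    have := congrFun h ⟨0, by omega⟩
    simp at this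
  obtain ⟨x, hx, hmax⟩ := BL.exists_max {x : Fin N1 → 𝕜 | x ≠ 0} hS (fun x => (Tx T x).rank) N2
    (fun x => by simpa using (Tx T x).rank_le_height)
  have hmax' : ∀ x' : Fin N1 → 𝕜, (Tx T x').rank ≤ (Tx T x).rank := by
    intro x'
    by_cases h : x' = 0
    · rw [h, Tx_zero, rank_zero]
      omega
    · exact hmax x' h
  refine ⟨x, hx, ?_⟩
  by_contra hlt
  push Not at hlt
  obtain ⟨η, hη0, hη⟩ := exists_ker (Tx T x) (by omega)
  obtain ⟨ξ, hξ0, hξ⟩ := exists_ker (Tx T x)ᵀ (by rw [rank_transpose]; omega)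
  rw [mulVec_transpose] at hξ
  refine hs x ξ η hx hξ0 hη0 ⟨?_, ?_, ?_⟩
  · have hrel : ∀ v : Fin N1 → 𝕜, g1 T ξ η ⬝ᵥ v = 0 := by
      intro v
      have h4 := first_order (Tx T x) (Tx T v) (Filter.Eventually.of_forall fun t => by
        rw [← Tx_add]
        exact hmax' _) hξ hη
      rw [Tx_mulVec, ← tf_g2, tf_g1] at h4
      rw [dotProduct_comm]
      exact h4
    exact dotProduct_eq_zero _ hrel
  · rw [← Tx_mulVec]
    exact hη
  · rw [← vecMul_Tx]
    exact hξ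

end Pool.Agent.H548.TL
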