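import Mathlib
import Pool.Agent.H548.TL.Fo

/-! The polynomial whose nonvanishing implies that the rank is at least three; the number of its
zeros in boxes. -/

namespace Pool.Agent.H548.TL

open Module Matrix
open Pool.Agent.H548.WM (ht bx mem_bx)

theorem Tx_map {R S : Type*} [CommRing R] [CommRing S] {N1 N2 N3 : ℕ}
    (T : Fin N1 → Fin N2 → Fin N3 → ℤ) (φ : R →+* S) (x : Fin N1 → R) :
    (Tx T x).map φ = Tx T (fun i => φ (x i)) := by
  ext j k
  unfold Tx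
  simp

/-- The Gram determinant of three rows. -/
def gr {R : Type*} [CommRing R] {N1 N2 N3 : ℕ} (T : Fin N1 → Fin N2 → Fin N3 → ℤ)
    (g : Fin 3 → Fin N2) (x : Fin N1 → R) : R :=
  ((Tx T x).submatrix g id * ((Tx T x).submatrix g id)ᵀ).det

theorem gr_map {R S : Type*} [CommRing R] [CommRing S] {N1 N2 N3 : ℕ}
    (T : Fin N1 → Fin N2 → Fin N3 → ℤ) (g : Fin 3 → Fin N2) (φ : R →+* S) (x : Fin N1 → R) :
    φ (gr T g x) = gr T g (fun i => φ (x i)) := by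
  unfold gr
  rw [RingHom.map_det, RingHom.mapMatrix_apply, Matrix.map_mul, transpose_map, ← submatrix_map,
    Tx_map]

theorem gr_rows {N1 N2 N3 : ℕ} {T : Fin N1 → Fin N2 → Fin N3 → ℤ} {g : Fin 3 → Fin N2}
    {x : Fin N1 → ℤ} (h : gr T g x ≠ 0) : LinearIndependent ℤ (fun s => Tx T x (g s)) := by
  have h1 : LinearIndependent ℤ ((Tx T x).submatrix g id).row := by
    rw [← Matrix.vecMul_injective_iff]
    intro v w hvw
    rw [← sub_eq_zero]
    apply Matrix.eq_zero_of_vecMul_eq_zero h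
    have hvw' : v ᵥ* (Tx T x).submatrix g id = w ᵥ* (Tx T x).submatrix g id := hvw
    rw [← vecMul_vecMul, sub_vecMul, hvw', sub_self, zero_vecMul]
  exact h1

theorem gr_real {N1 N2 N3 : ℕ} {T : Fin N1 → Fin N2 → Fin N3 → ℤ} {x : Fin N1 → ℝ}
    (h : 3 ≤ (Tx T x).rank) : ∃ g : Fin 3 → Fin N2, gr T g x ≠ 0 := by
  rw [Matrix.rank_eq_finrank_span_row] at h
  obtain ⟨f, hf, -, hli⟩ := Submodule.exists_fun_fin_finrank_span_eq ℝ (Set.range (Tx T x).row)
  have hf' : ∀ s : Fin 3, ∃ j, (Tx T x).row j = f (Fin.castLE h s) := fun s => hf _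
  choose g hg using hf'
  refine ⟨g, ?_⟩
  have h1 : LinearIndependent ℝ ((Tx T x).submatrix g id).row := by
    have h2 := hli.comp (Fin.castLE h) (Fin.castLE_injective h)
    have h3 : ((Tx T x).submatrix g id).row = f ∘ (Fin.castLE h) := by
      funext s
      exact hg s
    rw [h3]
    exact h2
  intro h0
  unfold gr at h0
  obtain ⟨v, hv, hv0⟩ := Matrix.exists_vecMul_eq_zero_iff.2 h0
  apply hv
  rw [← Matrix.vecMul_injective_iff] at h1
  apply h1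
  show v ᵥ* _ = 0 ᵥ* _
  rw [zero_vecMul]
  set W := (Tx T x).submatrix g id with hW
  have h2 : (v ᵥ* W) ⬝ᵥ (v ᵥ* W) = 0 := by
    have h3 : (v ᵥ* W) ⬝ᵥ (v ᵥ* W) = (v ᵥ* (W * Wᵀ)) ⬝ᵥ v := by
      rw [← vecMul_vecMul, vecMul_transpose, dotProduct_comm (W *ᵥ _), dotProduct_mulVec]
    rw [h3, hv0, zero_dotProduct]
  exact dotProduct_self_eq_zero.1 h2

/-- The rows of the matrix at an integer point. -/
theorem gen {N1 N2 N3 : ℕ} (h1 : 1 ≤ N1) (h2 : 3 ≤ N2) (h3 : 3 ≤ N3)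
    {T : Fin N1 → Fin N2 → Fin N3 → ℤ} (hs : Sm ℝ T) :
    ∃ f : MvPolynomial (Fin N1) ℤ, f ≠ 0 ∧ ∀ x : Fin N1 → ℤ, MvPolynomial.eval x f ≠ 0 →
      ∃ g : Fin 3 → Fin N2, LinearIndependent ℤ (fun s => Tx T x (g s)) := by
  obtain ⟨x0, -, hr⟩ := exists_rank h1 h2 h3 hs
  obtain ⟨g, hg⟩ := gr_real hr
  refine ⟨gr T g (fun i => MvPolynomial.X i), ?_, ?_⟩
  · intro h0
    apply hg
    have h4 := gr_map T g (MvPolynomial.eval₂Hom (Int.castRingHom ℝ) x0)
      (fun i => MvPolynomial.X i)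
    rw [h0, map_zero] at h4
    simp only [MvPolynomial.eval₂Hom_X'] at h4
    exact h4.symm
  · intro x hx
    refine ⟨g, gr_rows ?_⟩
    rw [gr_map] at hx
    simpa using hx

/-- The number of the zeros of a polynomial in a box. -/
theorem zeros {N : ℕ} (hN : 1 ≤ N) {f : MvPolynomial (Fin N) ℤ} (hf : f ≠ 0) (X : ℕ)
    (hX : 1 ≤ X) : (((bx N X).filter fun x => MvPolynomial.eval x f = 0).card : ℝ) ≤
      f.totalDegree * (3 * X) ^ (N - 1) := by
  have h := MvPolynomial.schwartz_zippel_totalDegree hf (Finset.Icc (-(X : ℤ)) X)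
  have hc : (Finset.Icc (-(X : ℤ)) X).card = 2 * X + 1 := by
    rw [Int.card_Icc]
    omega
  rw [hc] at h
  have h' : (((bx N X).filter fun x => MvPolynomial.eval x f = 0).card : ℝ) /
      ((2 * X + 1 : ℕ) : ℝ) ^ N ≤ (f.totalDegree : ℝ) / ((2 * X + 1 : ℕ) : ℝ) := by
    have h2 := (NNRat.cast_le (K := ℝ)).2 h
    push_cast at h2 ⊢
    exact h2
  have hq : (0 : ℝ) < ((2 * X + 1 : ℕ) : ℝ) := by positivity
  rw [div_le_iff₀ (by positivity)] at h'
  refine h'.trans ?_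
  have h3 : ((2 * X + 1 : ℕ) : ℝ) ^ N = ((2 * X + 1 : ℕ) : ℝ) ^ (N - 1) * ((2 * X + 1 : ℕ) : ℝ) := by
    rw [← pow_succ]
    congr 1
    omega
  rw [h3]
  have h4 : (f.totalDegree : ℝ) / ((2 * X + 1 : ℕ) : ℝ) *
      (((2 * X + 1 : ℕ) : ℝ) ^ (N - 1) * ((2 * X + 1 : ℕ) : ℝ)) =
      f.totalDegree * ((2 * X + 1 : ℕ) : ℝ) ^ (N - 1) := by
    field_simp
  rw [h4]
  have h5 : (1 : ℝ) ≤ X := by exact_mod_cast hX
  gcongr
  push_cast
  linarith

end Pool.Agent.H548.TL
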