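import Mathlib
import Pool.Agent.H548.TL.Gen

/-! The descent step. -/

namespace Pool.Agent.H548.TL

open Finset Module Matrix
open Pool.Agent.H548.WM (ht bx mem_bx)
open Pool.Agent.H548.BL (lat mem_lat lat_card lat_doubling)

variable {N1 N2 N3 : ℕ}

theorem row_dot (T : Fin N1 → Fin N2 → Fin N3 → ℤ) (x : Fin N1 → ℤ) (j : Fin N2)
    (z : Fin N3 → ℤ) : Tx T x j ⬝ᵥ z = g2 T x z j := by
  rw [← Tx_mulVec]
  rfl

open Classical in
theorem ker_two {T : Fin N1 → Fin N2 → Fin N3 → ℤ} {x : Fin N1 → ℤ}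
    (h : ∃ y z, InU T x y z) (ρ : ℕ) (hρ : 1 ≤ ρ) :
    (((bx N3 ρ).filter fun z => g2 T x z = 0).card : ℝ) ≤ 3 ^ N3 * (3 * ρ) ^ (N3 - 2) := by
  obtain ⟨y, z, h0, -, h2, h3⟩ := h
  obtain ⟨j, hj⟩ : ∃ j, g2 T x z j ≠ 0 := by
    by_contra hcon
    push Not at hcon
    exact h2 (funext hcon)
  have hdot : g3 T x y ⬝ᵥ z = 0 := by
    rw [dotProduct_comm, ← tf_g3]
    exact h0
  have hli : LinearIndependent ℤ ![g3 T x y, Tx T x j] := by
    rw [LinearIndependent.pair_iff]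
    intro s t hst
    have h4 := congrArg (fun v => v ⬝ᵥ z) hst
    simp only [add_dotProduct, smul_dotProduct, zero_dotProduct, hdot, row_dot, mul_zero,
      zero_add, smul_eq_mul] at h4
    have ht : t = 0 := by
      rcases mul_eq_zero.1 h4 with h5 | h5
      · exact h5
      · exact absurd h5 hj
    refine ⟨?_, ht⟩
    rw [ht, zero_smul, add_zero] at hst
    rcases smul_eq_zero.1 hst with h5 | h5
    · exact h5
    · exact absurd h5 h3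
  have h4 := lat_card hli ρ hρ
  rw [Fintype.card_fin] at h4
  refine le_trans ?_ h4
  have h5 : (bx N3 ρ).filter (fun z => g2 T x z = 0) ⊆
      (bx N3 ρ).filter (· ∈ lat ![g3 T x y, Tx T x j]) := by
    intro w hw
    rw [mem_filter] at hw ⊢
    refine ⟨hw.1, ?_⟩
    rw [mem_lat]
    intro i
    fin_cases i
    · show g3 T x y ⬝ᵥ w = 0
      rw [dotProduct_comm, ← tf_g3, tf_g2, hw.2, dotProduct_zero]
    · show Tx T x j ⬝ᵥ w = 0
      rw [row_dot, hw.2]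
      rfl
  exact_mod_cast card_le_card h5

open Classical in
theorem ker_three {T : Fin N1 → Fin N2 → Fin N3 → ℤ} {x : Fin N1 → ℤ}
    (h : ∃ g : Fin 3 → Fin N2, LinearIndependent ℤ (fun s => Tx T x (g s))) (ρ : ℕ)
    (hρ : 1 ≤ ρ) :
    (((bx N3 ρ).filter fun z => g2 T x z = 0).card : ℝ) ≤ 3 ^ N3 * (3 * ρ) ^ (N3 - 3) := by
  obtain ⟨g, hg⟩ := h
  have h4 := lat_card hg ρ hρ
  rw [Fintype.card_fin] at h4
  refine le_trans ?_ h4
  have h5 : (bx N3 ρ).filter (fun z => g2 T x z = 0) ⊆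
      (bx N3 ρ).filter (· ∈ lat (fun s => Tx T x (g s))) := by
    intro w hw
    rw [mem_filter] at hw ⊢
    refine ⟨hw.1, ?_⟩
    rw [mem_lat]
    intro i
    rw [row_dot, hw.2]
    rfl
  exact_mod_cast card_le_card h5

open Classical in
/-- The number of the degenerate `z` over all `x`. -/
theorem sum_ker (h1 : 1 ≤ N1) (h2 : 3 ≤ N2) (h3 : 3 ≤ N3) {T : Fin N1 → Fin N2 → Fin N3 → ℤ}
    (hs : Sm ℝ T) : ∃ D : ℝ, 0 ≤ D ∧ ∀ A ρ : ℕ, 1 ≤ A → 1 ≤ ρ → ∀ X : Finset (Fin N1 → ℤ),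
      X ⊆ bx N1 A → (∀ x ∈ X, ∃ y z, InU T x y z) →
      (∑ x ∈ X, (((bx N3 ρ).filter fun z => g2 T x z = 0).card : ℝ)) ≤
        D * ((A : ℝ) ^ (N1 - 1) * (ρ : ℝ) ^ (N3 - 2) + (A : ℝ) ^ N1 * (ρ : ℝ) ^ (N3 - 3)) := by
  obtain ⟨f, hf0, hf⟩ := gen h1 h2 h3 hs
  set a : ℝ := f.totalDegree * 3 ^ (N1 - 1) * (3 ^ N3 * 3 ^ (N3 - 2)) with ha
  set b : ℝ := 3 ^ N1 * (3 ^ N3 * 3 ^ (N3 - 3)) with hb
  have ha0 : 0 ≤ a := by positivity
  have hb0 : 0 ≤ b := by positivity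
  refine ⟨a + b, by positivity, ?_⟩
  intro A ρ hA hρ X hX hXU
  have hx : ∀ x ∈ X, (((bx N3 ρ).filter fun z => g2 T x z = 0).card : ℝ) ≤
      (if MvPolynomial.eval x f = 0 then 3 ^ N3 * (3 * (ρ : ℝ)) ^ (N3 - 2) else 0) +
        3 ^ N3 * (3 * (ρ : ℝ)) ^ (N3 - 3) := by
    intro x hx
    split_ifs with h
    · have h4 := ker_two (hXU x hx) ρ hρ
      have h5 : (0 : ℝ) ≤ 3 ^ N3 * (3 * (ρ : ℝ)) ^ (N3 - 3) := by positivity
      linarith
    · rw [zero_add]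
      exact ker_three (hf x h) ρ hρ
  have hXf : ((X.filter fun x => MvPolynomial.eval x f = 0).card : ℝ) ≤
      f.totalDegree * (3 * A) ^ (N1 - 1) := by
    refine le_trans ?_ (zeros h1 hf0 A hA)
    exact_mod_cast card_le_card (filter_subset_filter _ hX)
  have hXc : (X.card : ℝ) ≤ (3 * A) ^ N1 := by
    refine le_trans ?_ (WM.card_bx_le N1 hA)
    exact_mod_cast card_le_card hX
  calc (∑ x ∈ X, (((bx N3 ρ).filter fun z => g2 T x z = 0).card : ℝ)) ≤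
      ∑ x ∈ X, ((if MvPolynomial.eval x f = 0 then 3 ^ N3 * (3 * (ρ : ℝ)) ^ (N3 - 2) else 0) +
        3 ^ N3 * (3 * (ρ : ℝ)) ^ (N3 - 3)) := Finset.sum_le_sum hx
    _ = (X.filter fun x => MvPolynomial.eval x f = 0).card *
        (3 ^ N3 * (3 * (ρ : ℝ)) ^ (N3 - 2)) + X.card * (3 ^ N3 * (3 * (ρ : ℝ)) ^ (N3 - 3)) := by
        rw [Finset.sum_add_distrib, ← Finset.sum_filter, Finset.sum_const, Finset.sum_const,
          nsmul_eq_mul, nsmul_eq_mul]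
    _ ≤ f.totalDegree * (3 * A) ^ (N1 - 1) * (3 ^ N3 * (3 * (ρ : ℝ)) ^ (N3 - 2)) +
        (3 * A) ^ N1 * (3 ^ N3 * (3 * (ρ : ℝ)) ^ (N3 - 3)) := by gcongr
    _ = a * ((A : ℝ) ^ (N1 - 1) * (ρ : ℝ) ^ (N3 - 2)) + b * ((A : ℝ) ^ N1 * (ρ : ℝ) ^ (N3 - 3)) := by
        rw [ha, hb]
        simp only [mul_pow]
        ring
    _ ≤ (a + b) * ((A : ℝ) ^ (N1 - 1) * (ρ : ℝ) ^ (N3 - 2)) +
        (a + b) * ((A : ℝ) ^ N1 * (ρ : ℝ) ^ (N3 - 3)) := by
        gcongr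
        · linarith
        · linarith
    _ = _ := by ring

open Classical in
/-- The triples. -/
noncomputable def PP (T : Fin N1 → Fin N2 → Fin N3 → ℤ) (A B C : ℕ) :
    Finset ((Fin N1 → ℤ) × (Fin N2 → ℤ) × (Fin N3 → ℤ)) :=
  ((bx N1 A) ×ˢ (bx N2 B) ×ˢ (bx N3 C)).filter fun t => InU T t.1 t.2.1 t.2.2

open Classical in
/-- The pairs over which there are triples. -/
noncomputable def XY (T : Fin N1 → Fin N2 → Fin N3 → ℤ) (A B : ℕ) :
    Finset ((Fin N1 → ℤ) × (Fin N2 → ℤ)) :=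
  ((bx N1 A) ×ˢ (bx N2 B)).filter fun t => ∃ z, InU T t.1 t.2 z

open Classical in
theorem card_PP (T : Fin N1 → Fin N2 → Fin N3 → ℤ) (A B C : ℕ) :
    (PP T A B C).card = ∑ t ∈ XY T A B, ((bx N3 C).filter fun z => InU T t.1 t.2 z).card := by
  have h1 : (PP T A B C).card = ∑ t ∈ (bx N1 A) ×ˢ (bx N2 B),
      ((bx N3 C).filter fun z => InU T t.1 t.2 z).card := by
    unfold PP
    rw [card_filter, sum_product, sum_product]
    refine Finset.sum_congr rfl fun x _ => ?_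
    rw [sum_product]
    refine Finset.sum_congr rfl fun y _ => ?_
    rw [card_filter]
  rw [h1]
  unfold XY
  symm
  apply Finset.sum_filter_of_ne
  intro t _ ht
  obtain ⟨z, hz⟩ := Finset.card_pos.1 (Nat.pos_of_ne_zero ht)
  exact ⟨z, (mem_filter.1 hz).2⟩

theorem sum_fst {α β : Type*} (X : Finset α) (Y : Finset β) (f : α → ℝ) :
    ∑ t ∈ X ×ˢ Y, f t.1 = Y.card * ∑ x ∈ X, f x := by
  rw [sum_product, Finset.mul_sum]
  refine Finset.sum_congr rfl fun x _ => ?_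
  simp only [Finset.sum_const, nsmul_eq_mul]

theorem sum_snd {α β : Type*} (X : Finset α) (Y : Finset β) (f : β → ℝ) :
    ∑ t ∈ X ×ˢ Y, f t.2 = X.card * ∑ y ∈ Y, f y := by
  rw [sum_product]
  simp only [Finset.sum_const, nsmul_eq_mul]

open Classical in
theorem over_x {T : Fin N1 → Fin N2 → Fin N3 → ℤ} {D1 : ℝ} (A B : ℕ) (hB : 1 ≤ B)
    (f : (Fin N1 → ℤ) → ℝ) (hf : ∀ x, 0 ≤ f x) (S : ℝ)
    (h4 : ∑ x ∈ (bx N1 A).filter (fun x => ∃ y z, InU T x y z), f x ≤ D1 * S) :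
    ∑ t ∈ XY T A B, f t.1 ≤ 3 ^ N2 * D1 * ((B : ℝ) ^ N2 * S) := by
  have hsub : XY T A B ⊆ ((bx N1 A).filter fun x => ∃ y z, InU T x y z) ×ˢ (bx N2 B) := by
    intro t ht
    unfold XY at ht
    rw [mem_filter, mem_product] at ht
    obtain ⟨⟨ht1, ht2⟩, z, hz⟩ := ht
    rw [mem_product, mem_filter]
    exact ⟨⟨ht1, _, z, hz⟩, ht2⟩
  have h0 : 0 ≤ ∑ x ∈ (bx N1 A).filter (fun x => ∃ y z, InU T x y z), f x :=
    Finset.sum_nonneg fun x _ => hf x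
  calc ∑ t ∈ XY T A B, f t.1 ≤
      ∑ t ∈ ((bx N1 A).filter fun x => ∃ y z, InU T x y z) ×ˢ (bx N2 B), f t.1 :=
        Finset.sum_le_sum_of_subset_of_nonneg hsub (fun _ _ _ => hf _)
    _ = (bx N2 B).card * ∑ x ∈ (bx N1 A).filter (fun x => ∃ y z, InU T x y z), f x :=
        sum_fst _ _ f
    _ ≤ (3 * B) ^ N2 * (D1 * S) :=
        mul_le_mul (WM.card_bx_le N2 hB) h4 h0 (by positivity)
    _ = _ := by
        rw [mul_pow]
        ring

open Classical in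
theorem over_y {T : Fin N1 → Fin N2 → Fin N3 → ℤ} {D2 : ℝ} (A B : ℕ) (hA : 1 ≤ A)
    (f : (Fin N2 → ℤ) → ℝ) (hf : ∀ x, 0 ≤ f x) (S : ℝ)
    (h4 : ∑ y ∈ (bx N2 B).filter (fun y => ∃ x z, InU T x y z), f y ≤ D2 * S) :
    ∑ t ∈ XY T A B, f t.2 ≤ 3 ^ N1 * D2 * ((A : ℝ) ^ N1 * S) := by
  have hsub : XY T A B ⊆ (bx N1 A) ×ˢ ((bx N2 B).filter fun y => ∃ x z, InU T x y z) := by
    intro t ht
    unfold XY at ht
    rw [mem_filter, mem_product] at ht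
    obtain ⟨⟨ht1, ht2⟩, z, hz⟩ := ht
    rw [mem_product, mem_filter]
    exact ⟨ht1, ht2, _, z, hz⟩
  have h0 : 0 ≤ ∑ y ∈ (bx N2 B).filter (fun y => ∃ x z, InU T x y z), f y :=
    Finset.sum_nonneg fun x _ => hf x
  calc ∑ t ∈ XY T A B, f t.2 ≤
      ∑ t ∈ (bx N1 A) ×ˢ ((bx N2 B).filter fun y => ∃ x z, InU T x y z), f t.2 :=
        Finset.sum_le_sum_of_subset_of_nonneg hsub (fun _ _ _ => hf _)
    _ = (bx N1 A).card * ∑ y ∈ (bx N2 B).filter (fun y => ∃ x z, InU T x y z), f y :=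
        sum_snd _ _ f
    _ ≤ (3 * A) ^ N1 * (D2 * S) :=
        mul_le_mul (WM.card_bx_le N1 hA) h4 h0 (by positivity)
    _ = _ := by
        rw [mul_pow]
        ring

open Classical in
/-- One fibre. -/
theorem fibre {T : Fin N1 → Fin N2 → Fin N3 → ℤ} {x : Fin N1 → ℤ} {y : Fin N2 → ℤ}
    (hg3 : g3 T x y ≠ 0) (C ρ : ℕ) (hρ : 1 ≤ ρ) (hρC : ρ ≤ C) :
    (((bx N3 C).filter fun z => InU T x y z).card : ℝ) ≤
      (3 * C / ρ) ^ (N3 - 1) * ((((bx N3 ρ).filter fun z => InU T x y z).card : ℝ) +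
        (((bx N3 ρ).filter fun z => g2 T x z = 0).card : ℝ) +
        (((bx N3 ρ).filter fun z => g1 T y z = 0).card : ℝ)) := by
  have hli : LinearIndependent ℤ (fun _ : Fin 1 => g3 T x y) := by
    rw [linearIndependent_unique_iff]
    exact hg3
  have h4 := lat_doubling hli C ρ hρ hρC
  rw [Fintype.card_fin] at h4
  have h5 : (((bx N3 C).filter fun z => InU T x y z).card : ℝ) ≤
      (((bx N3 C).filter (· ∈ lat (fun _ : Fin 1 => g3 T x y))).card : ℝ) := by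
    have : (bx N3 C).filter (fun z => InU T x y z) ⊆
        (bx N3 C).filter (· ∈ lat (fun _ : Fin 1 => g3 T x y)) := by
      intro z hz
      rw [mem_filter] at hz ⊢
      refine ⟨hz.1, ?_⟩
      rw [mem_lat]
      intro _
      rw [dotProduct_comm, ← tf_g3]
      exact hz.2.1
    exact_mod_cast card_le_card this
  have h6 : (((bx N3 ρ).filter (· ∈ lat (fun _ : Fin 1 => g3 T x y))).card : ℝ) ≤
      (((bx N3 ρ).filter fun z => InU T x y z).card : ℝ) +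
      (((bx N3 ρ).filter fun z => g2 T x z = 0).card : ℝ) +
      (((bx N3 ρ).filter fun z => g1 T y z = 0).card : ℝ) := by
    have h7 : (bx N3 ρ).filter (· ∈ lat (fun _ : Fin 1 => g3 T x y)) ⊆
        ((bx N3 ρ).filter (fun z => InU T x y z) ∪ (bx N3 ρ).filter (fun z => g2 T x z = 0)) ∪
        (bx N3 ρ).filter (fun z => g1 T y z = 0) := by
      intro z hz
      rw [mem_filter] at hz
      obtain ⟨hz1, hz2⟩ := hz
      have hz3 : tf T x y z = 0 := by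
        rw [tf_g3, dotProduct_comm]
        exact mem_lat.1 hz2 0
      rw [mem_union, mem_union, mem_filter, mem_filter, mem_filter]
      by_cases hz4 : g2 T x z = 0
      · exact Or.inl (Or.inr ⟨hz1, hz4⟩)
      · by_cases hz5 : g1 T y z = 0
        · exact Or.inr ⟨hz1, hz5⟩
        · exact Or.inl (Or.inl ⟨hz1, hz3, hz5, hz4, hg3⟩)
    have h8 := card_le_card h7
    have h9 := card_union_le ((bx N3 ρ).filter (fun z => InU T x y z) ∪
      (bx N3 ρ).filter (fun z => g2 T x z = 0)) ((bx N3 ρ).filter (fun z => g1 T y z = 0))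
    have h10 := card_union_le ((bx N3 ρ).filter (fun z => InU T x y z))
      ((bx N3 ρ).filter (fun z => g2 T x z = 0))
    have h11 : ((bx N3 ρ).filter (· ∈ lat (fun _ : Fin 1 => g3 T x y))).card ≤
      ((bx N3 ρ).filter fun z => InU T x y z).card +
      ((bx N3 ρ).filter fun z => g2 T x z = 0).card +
      ((bx N3 ρ).filter fun z => g1 T y z = 0).card := by omega
    exact_mod_cast h11
  calc _ ≤ _ := h5
    _ ≤ _ := h4
    _ ≤ _ := mul_le_mul_of_nonneg_left h6 (by positivity)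

open Classical in
theorem step (h1 : 3 ≤ N1) (h2 : 3 ≤ N2) (h3 : 3 ≤ N3) {T : Fin N1 → Fin N2 → Fin N3 → ℤ}
    (hs : Sm ℝ T) : ∃ D : ℝ, 0 ≤ D ∧ ∀ A B C ρ : ℕ, 1 ≤ A → 1 ≤ B → 1 ≤ ρ → ρ ≤ C →
      ((PP T A B C).card : ℝ) ≤ (3 * C / ρ) ^ (N3 - 1) * ((PP T A B ρ).card +
        D * ((B : ℝ) ^ N2 * ((A : ℝ) ^ (N1 - 1) * (ρ : ℝ) ^ (N3 - 2) +
            (A : ℝ) ^ N1 * (ρ : ℝ) ^ (N3 - 3)) +
          (A : ℝ) ^ N1 * ((B : ℝ) ^ (N2 - 1) * (ρ : ℝ) ^ (N3 - 2) +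
            (B : ℝ) ^ N2 * (ρ : ℝ) ^ (N3 - 3)))) := by
  obtain ⟨D1, hD1, hs1⟩ := sum_ker (by omega) h2 h3 hs
  obtain ⟨D2, hD2, hs2⟩ := sum_ker (by omega) h1 h3 hs.s12
  refine ⟨3 ^ N2 * D1 + 3 ^ N1 * D2, by positivity, ?_⟩
  intro A B C ρ hA hB hρ hρC
  have hfib : ∀ t ∈ XY T A B, (((bx N3 C).filter fun z => InU T t.1 t.2 z).card : ℝ) ≤
      (3 * C / ρ) ^ (N3 - 1) * ((((bx N3 ρ).filter fun z => InU T t.1 t.2 z).card : ℝ) +
        (((bx N3 ρ).filter fun z => g2 T t.1 z = 0).card : ℝ) +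
        (((bx N3 ρ).filter fun z => g1 T t.2 z = 0).card : ℝ)) := by
    intro t ht
    unfold XY at ht
    rw [mem_filter] at ht
    obtain ⟨-, z0, -, -, -, hg3⟩ := ht
    exact fibre hg3 C ρ hρ hρC
  have hsx := over_x (T := T) A B hB
    (fun x => (((bx N3 ρ).filter fun z => g2 T x z = 0).card : ℝ)) (fun _ => by positivity) _
    (hs1 A ρ hA hρ _ (filter_subset _ _) (fun x hx => (mem_filter.1 hx).2))
  have hsy := over_y (T := T) A B hA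
    (fun y => (((bx N3 ρ).filter fun z => g1 T y z = 0).card : ℝ)) (fun _ => by positivity) _
    (hs2 B ρ hB hρ _ (filter_subset _ _) (fun y hy => by
      obtain ⟨x, z, hxz⟩ := (mem_filter.1 hy).2
      exact ⟨x, z, inU_s12.2 hxz⟩))
  have hsum : ((PP T A B C).card : ℝ) ≤ (3 * C / ρ : ℝ) ^ (N3 - 1) * (((PP T A B ρ).card : ℝ) +
      (∑ t ∈ XY T A B, (((bx N3 ρ).filter fun z => g2 T t.1 z = 0).card : ℝ)) +
      (∑ t ∈ XY T A B, (((bx N3 ρ).filter fun z => g1 T t.2 z = 0).card : ℝ))) := by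
    rw [card_PP, card_PP]
    push_cast
    rw [← Finset.sum_add_distrib, ← Finset.sum_add_distrib, Finset.mul_sum]
    exact Finset.sum_le_sum hfib
  refine hsum.trans ?_
  apply mul_le_mul_of_nonneg_left _ (by positivity)
  set Q1 : ℝ := (B : ℝ) ^ N2 * ((A : ℝ) ^ (N1 - 1) * (ρ : ℝ) ^ (N3 - 2) +
            (A : ℝ) ^ N1 * (ρ : ℝ) ^ (N3 - 3)) with hQ1
  set Q2 : ℝ := (A : ℝ) ^ N1 * ((B : ℝ) ^ (N2 - 1) * (ρ : ℝ) ^ (N3 - 2) +
            (B : ℝ) ^ N2 * (ρ : ℝ) ^ (N3 - 3)) with hQ2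
  have q1 : 0 ≤ Q1 := by positivity
  have q2 : 0 ≤ Q2 := by positivity
  have e1 : 0 ≤ (3 : ℝ) ^ N2 * D1 := by positivity
  have e2 : 0 ≤ (3 : ℝ) ^ N1 * D2 := by positivity
  have e3 := mul_nonneg e1 q2
  have e4 := mul_nonneg e2 q1
  have e5 : (3 ^ N2 * D1 + 3 ^ N1 * D2) * (Q1 + Q2) = 3 ^ N2 * D1 * Q1 + 3 ^ N1 * D2 * Q2 +
    3 ^ N2 * D1 * Q2 + 3 ^ N1 * D2 * Q1 := by ring
  rw [e5]
  linarith

end Pool.Agent.H548.TL
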