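import Mathlib
import Pool.Agent.H548.TL.Step

/-! The bound for the number of points in boxes. -/

namespace Pool.Agent.H548.TL

open Finset Module Matrix
open Pool.Agent.H548.WM (ht bx mem_bx)

theorem real_err (a b c : ℕ) (hc : 2 ≤ c) (A B ρ q : ℝ) (hA : 1 ≤ A) (hB : 1 ≤ B) (hρ : 1 ≤ ρ)
    (h1 : A ≤ q * ρ) (h2 : B ≤ q * ρ) (hq : 1 ≤ q) :
    B ^ (b + 1) * (A ^ a * ρ ^ (c - 1) + A ^ (a + 1) * ρ ^ (c - 2)) +
      A ^ (a + 1) * (B ^ b * ρ ^ (c - 1) + B ^ (b + 1) * ρ ^ (c - 2)) ≤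
      4 * q ^ 2 * (A ^ a * B ^ b * ρ ^ c) := by
  have hA0 : 0 < A := by linarith
  have hB0 : 0 < B := by linarith
  have hρ0 : 0 < ρ := by linarith
  have hq0 : 0 < q := by linarith
  have hqq : q ≤ q ^ 2 := by nlinarith
  obtain ⟨e, rfl⟩ : ∃ e, c = e + 2 := ⟨c - 2, by omega⟩
  have e1 : e + 2 - 1 = e + 1 := by omega
  have e2 : e + 2 - 2 = e := by omega
  rw [e1, e2]
  have k1 : B * ρ ^ (e + 1) ≤ q ^ 2 * ρ ^ (e + 2) := by
    calc B * ρ ^ (e + 1) ≤ (q * ρ) * ρ ^ (e + 1) := by gcongr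
      _ = q * ρ ^ (e + 2) := by ring
      _ ≤ q ^ 2 * ρ ^ (e + 2) := by gcongr
  have k2 : A * ρ ^ (e + 1) ≤ q ^ 2 * ρ ^ (e + 2) := by
    calc A * ρ ^ (e + 1) ≤ (q * ρ) * ρ ^ (e + 1) := by gcongr
      _ = q * ρ ^ (e + 2) := by ring
      _ ≤ q ^ 2 * ρ ^ (e + 2) := by gcongr
  have k3 : A * B * ρ ^ e ≤ q ^ 2 * ρ ^ (e + 2) := by
    calc A * B * ρ ^ e ≤ (q * ρ) * (q * ρ) * ρ ^ e := by gcongr
      _ = q ^ 2 * ρ ^ (e + 2) := by ring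
  calc B ^ (b + 1) * (A ^ a * ρ ^ (e + 1) + A ^ (a + 1) * ρ ^ e) +
      A ^ (a + 1) * (B ^ b * ρ ^ (e + 1) + B ^ (b + 1) * ρ ^ e) =
      A ^ a * B ^ b * (B * ρ ^ (e + 1) + A * B * ρ ^ e + A * ρ ^ (e + 1) + A * B * ρ ^ e) := by
        ring
    _ ≤ A ^ a * B ^ b * (q ^ 2 * ρ ^ (e + 2) + q ^ 2 * ρ ^ (e + 2) + q ^ 2 * ρ ^ (e + 2) +
        q ^ 2 * ρ ^ (e + 2)) := by gcongr
    _ = _ := by ring

theorem real_step (a b c m : ℕ) (hc : 2 ≤ c) (hcm : c ≤ m) (A B C ρ D K F F' ε q : ℝ)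
    (hA : 1 ≤ A) (hB : 1 ≤ B) (hAC : A ≤ C) (hBC : B ≤ C) (hρ : 1 ≤ ρ) (h1 : C ≤ q * ρ)
    (h2 : ρ * q ≤ 2 * C) (hq : 1 ≤ q) (hε : 0 < ε) (hqe : q ^ m ≤ C ^ ε)
    (hqz : 3 ^ m * 2 * (2 / q) ^ ε ≤ 1) (hD : 0 ≤ D)
    (hF : F ≤ (3 * C / ρ) ^ c * (F' + D * (B ^ (b + 1) * (A ^ a * ρ ^ (c - 1) +
      A ^ (a + 1) * ρ ^ (c - 2)) + A ^ (a + 1) * (B ^ b * ρ ^ (c - 1) + B ^ (b + 1) * ρ ^ (c - 2)))))
    (hF' : F' ≤ K * (A ^ a * B ^ b * ρ ^ c) * (A * B * ρ) ^ ε) (hK : 8 * 3 ^ m * D ≤ K) :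
    F ≤ K * (A ^ a * B ^ b * C ^ c) * (A * B * C) ^ ε := by
  have hA0 : 0 < A := by linarith
  have hB0 : 0 < B := by linarith
  have hC0 : 0 < C := by linarith
  have hρ0 : 0 < ρ := by linarith
  have hq0 : 0 < q := by linarith
  have hK0 : 0 ≤ K := le_trans (by positivity) hK
  have herr := real_err a b c hc A B ρ q hA hB hρ (hAC.trans h1) (hBC.trans h1) hq
  have h3 : (3 : ℝ) ^ c ≤ 3 ^ m := pow_le_pow_right₀ (by norm_num) hcm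
  have hz : 0 ≤ (2 / q) ^ ε := by positivity
  have T2 : (3 * C / ρ) ^ c * F' ≤ K / 2 * (A ^ a * B ^ b * C ^ c) * (A * B * C) ^ ε := by
    have e1 : (A * B * ρ) ^ ε ≤ (A * B * C) ^ ε * (2 / q) ^ ε := by
      rw [← Real.mul_rpow (by positivity) (by positivity)]
      apply Real.rpow_le_rpow (by positivity) _ hε.le
      have e2 : ρ ≤ C * (2 / q) := by
        rw [mul_div_assoc', le_div_iff₀ hq0]
        linarith
      calc A * B * ρ ≤ A * B * (C * (2 / q)) := by gcongr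
        _ = A * B * C * (2 / q) := by ring
    calc (3 * C / ρ) ^ c * F' ≤
        (3 * C / ρ) ^ c * (K * (A ^ a * B ^ b * ρ ^ c) * (A * B * ρ) ^ ε) := by gcongr
      _ ≤ (3 * C / ρ) ^ c * (K * (A ^ a * B ^ b * ρ ^ c) *
          ((A * B * C) ^ ε * (2 / q) ^ ε)) := by gcongr
      _ = K / 2 * (A ^ a * B ^ b * C ^ c) * (A * B * C) ^ ε * (3 ^ c * 2 * (2 / q) ^ ε) := by
          rw [div_pow, mul_pow]
          field_simp
      _ ≤ K / 2 * (A ^ a * B ^ b * C ^ c) * (A * B * C) ^ ε * (3 ^ m * 2 * (2 / q) ^ ε) := by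
          gcongr
      _ ≤ K / 2 * (A ^ a * B ^ b * C ^ c) * (A * B * C) ^ ε * 1 := by gcongr
      _ = _ := by ring
  have T3 : (3 * C / ρ) ^ c * (D * (B ^ (b + 1) * (A ^ a * ρ ^ (c - 1) +
      A ^ (a + 1) * ρ ^ (c - 2)) + A ^ (a + 1) * (B ^ b * ρ ^ (c - 1) + B ^ (b + 1) * ρ ^ (c - 2))))
      ≤ K / 2 * (A ^ a * B ^ b * C ^ c) * (A * B * C) ^ ε := by
    have e1 : q ^ 2 ≤ (A * B * C) ^ ε := by
      calc q ^ 2 ≤ q ^ m := pow_le_pow_right₀ hq (hc.trans hcm)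
        _ ≤ C ^ ε := hqe
        _ ≤ (A * B * C) ^ ε := by
          apply Real.rpow_le_rpow hC0.le _ hε.le
          have : 1 ≤ A * B := by nlinarith
          nlinarith
    calc _ ≤ (3 * C / ρ) ^ c * (D * (4 * q ^ 2 * (A ^ a * B ^ b * ρ ^ c))) := by gcongr
      _ = 4 * 3 ^ c * D * (A ^ a * B ^ b * C ^ c) * q ^ 2 := by
          rw [div_pow, mul_pow]
          field_simp
      _ ≤ 4 * 3 ^ m * D * (A ^ a * B ^ b * C ^ c) * (A * B * C) ^ ε := by gcongr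
      _ ≤ _ := by
          gcongr
          linarith
  rw [mul_add] at hF
  have e : K * (A ^ a * B ^ b * C ^ c) * (A * B * C) ^ ε =
    K / 2 * (A ^ a * B ^ b * C ^ c) * (A * B * C) ^ ε +
    K / 2 * (A ^ a * B ^ b * C ^ c) * (A * B * C) ^ ε := by ring
  rw [e]
  linarith

/-- The inequality of the descent. -/
def St (F : ℕ → ℕ → ℕ → ℕ) (a b c : ℕ) (D : ℝ) : Prop :=
  ∀ A B C ρ : ℕ, 1 ≤ A → 1 ≤ B → 1 ≤ ρ → ρ ≤ C →
    (F A B C : ℝ) ≤ (3 * C / ρ) ^ c * (F A B ρ + D * ((B : ℝ) ^ (b + 1) *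
      ((A : ℝ) ^ a * (ρ : ℝ) ^ (c - 1) + (A : ℝ) ^ (a + 1) * (ρ : ℝ) ^ (c - 2)) +
      (A : ℝ) ^ (a + 1) * ((B : ℝ) ^ b * (ρ : ℝ) ^ (c - 1) + (B : ℝ) ^ (b + 1) * (ρ : ℝ) ^ (c - 2))))

theorem half (F : ℕ → ℕ → ℕ → ℕ) (a b c m : ℕ) (D : ℝ) (hD : 0 ≤ D) (hst : St F a b c D)
    (hc : 2 ≤ c) (hcm : c ≤ m) (ε : ℝ) (hε : 0 < ε) (C0 : ℕ) (hC0 : ∀ A : ℕ, C0 ≤ A →
    ∃ (ρ : ℕ) (q : ℝ), 1 ≤ A ∧ 1 ≤ ρ ∧ ρ < A ∧ 1 ≤ q ∧ (A : ℝ) ≤ q * ρ ∧ (ρ : ℝ) * q ≤ 2 * A ∧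
      q ^ m ≤ (A : ℝ) ^ ε ∧ 3 ^ m * 2 * (2 / q) ^ ε ≤ 1) (K : ℝ) (hK : 8 * 3 ^ m * D ≤ K)
    (htriv : ∀ A B C : ℕ, 1 ≤ A → 1 ≤ B → 1 ≤ C → A < C0 → B < C0 → C < C0 → (F A B C : ℝ) ≤ K)
    (A B C : ℕ) (hA : 1 ≤ A) (hB : 1 ≤ B) (hAC : A ≤ C) (hBC : B ≤ C)
    (ih : ∀ ρ : ℕ, 1 ≤ ρ → ρ < C → (F A B ρ : ℝ) ≤
      K * ((A : ℝ) ^ a * (B : ℝ) ^ b * (ρ : ℝ) ^ c) * ((A : ℝ) * B * ρ) ^ ε) :
    (F A B C : ℝ) ≤ K * ((A : ℝ) ^ a * (B : ℝ) ^ b * (C : ℝ) ^ c) * ((A : ℝ) * B * C) ^ ε := by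
  have hA' : (1 : ℝ) ≤ A := by exact_mod_cast hA
  have hB' : (1 : ℝ) ≤ B := by exact_mod_cast hB
  have hAC' : (A : ℝ) ≤ C := by exact_mod_cast hAC
  have hBC' : (B : ℝ) ≤ C := by exact_mod_cast hBC
  rcases le_or_gt C0 C with h | h
  · obtain ⟨ρ, q, -, hρ1, hρC, hq1, h1, h2, h3, h4⟩ := hC0 C h
    exact real_step a b c m hc hcm A B C ρ D K _ _ ε q hA' hB' hAC' hBC'
      (by exact_mod_cast hρ1) h1 h2 hq1 hε h3 h4 hD
      (hst A B C ρ hA hB hρ1 hρC.le) (ih ρ hρ1 hρC) hK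
  · have h1 := htriv A B C hA hB (hA.trans hAC) (by omega) (by omega) h
    have hK0 : 0 ≤ K := le_trans (by positivity) hK
    have hC' : (1 : ℝ) ≤ C := by linarith
    have h2 : (1 : ℝ) ≤ (A : ℝ) ^ a * (B : ℝ) ^ b * (C : ℝ) ^ c := by
      have e1 : (1 : ℝ) ≤ (A : ℝ) ^ a := one_le_pow₀ hA'
      have e2 : (1 : ℝ) ≤ (B : ℝ) ^ b := one_le_pow₀ hB'
      have e3 : (1 : ℝ) ≤ (C : ℝ) ^ c := one_le_pow₀ hC'
      exact one_le_mul_of_one_le_of_one_le (one_le_mul_of_one_le_of_one_le e1 e2) e3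
    have h3 : (1 : ℝ) ≤ ((A : ℝ) * B * C) ^ ε :=
      Real.one_le_rpow (one_le_mul_of_one_le_of_one_le (one_le_mul_of_one_le_of_one_le hA' hB') hC')
        hε.le
    calc (F A B C : ℝ) ≤ K := h1
      _ = K * 1 * 1 := by ring
      _ ≤ _ := by gcongr

variable {N1 N2 N3 : ℕ}

theorem card_PP_s12 (T : Fin N1 → Fin N2 → Fin N3 → ℤ) (A B C : ℕ) :
    (PP (s12 T) B A C).card = (PP T A B C).card := by
  classical
  apply Finset.card_bij (fun t _ => (t.2.1, t.1, t.2.2))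
  · intro t ht
    unfold PP at ht ⊢
    rw [mem_filter, mem_product, mem_product] at ht ⊢
    obtain ⟨⟨h1, h2, h3⟩, h4⟩ := ht
    exact ⟨⟨h2, h1, h3⟩, inU_s12.1 h4⟩
  · intro t _ t' _ h
    simp only [Prod.mk.injEq] at h
    exact Prod.ext h.2.1 (Prod.ext h.1 h.2.2)
  · intro t ht
    refine ⟨(t.2.1, t.1, t.2.2), ?_, rfl⟩
    unfold PP at ht ⊢
    rw [mem_filter, mem_product, mem_product] at ht ⊢
    obtain ⟨⟨h1, h2, h3⟩, h4⟩ := ht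
    exact ⟨⟨h2, h1, h3⟩, inU_s12.2 h4⟩

theorem card_PP_s23 (T : Fin N1 → Fin N2 → Fin N3 → ℤ) (A B C : ℕ) :
    (PP (s23 T) A C B).card = (PP T A B C).card := by
  classical
  apply Finset.card_bij (fun t _ => (t.1, t.2.2, t.2.1))
  · intro t ht
    unfold PP at ht ⊢
    rw [mem_filter, mem_product, mem_product] at ht ⊢
    obtain ⟨⟨h1, h2, h3⟩, h4⟩ := ht
    exact ⟨⟨h1, h3, h2⟩, inU_s23.1 h4⟩
  · intro t _ t' _ h
    simp only [Prod.mk.injEq] at h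
    exact Prod.ext h.1 (Prod.ext h.2.2 h.2.1)
  · intro t ht
    refine ⟨(t.1, t.2.2, t.2.1), ?_, rfl⟩
    unfold PP at ht ⊢
    rw [mem_filter, mem_product, mem_product] at ht ⊢
    obtain ⟨⟨h1, h2, h3⟩, h4⟩ := ht
    exact ⟨⟨h1, h3, h2⟩, inU_s23.2 h4⟩

theorem card_PP_triv (T : Fin N1 → Fin N2 → Fin N3 → ℤ) (A B C : ℕ) (hA : 1 ≤ A) (hB : 1 ≤ B)
    (hC : 1 ≤ C) :
    ((PP T A B C).card : ℝ) ≤ (3 * A) ^ N1 * ((3 * B) ^ N2 * (3 * C) ^ N3) := by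
  classical
  have h1 : (PP T A B C).card ≤ (bx N1 A).card * ((bx N2 B).card * (bx N3 C).card) := by
    unfold PP
    refine (card_filter_le _ _).trans ?_
    rw [card_product, card_product]
  calc ((PP T A B C).card : ℝ) ≤ (bx N1 A).card * ((bx N2 B).card * (bx N3 C).card) := by
        exact_mod_cast h1
    _ ≤ _ := by
        gcongr
        · exact WM.card_bx_le N1 hA
        · exact WM.card_bx_le N2 hB
        · exact WM.card_bx_le N3 hC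

theorem st_PP (h1 : 3 ≤ N1) (h2 : 3 ≤ N2) (h3 : 3 ≤ N3) {T : Fin N1 → Fin N2 → Fin N3 → ℤ}
    (hs : Sm ℝ T) : ∃ D : ℝ, 0 ≤ D ∧
      St (fun A B C => (PP T A B C).card) (N1 - 1) (N2 - 1) (N3 - 1) D := by
  obtain ⟨D, hD, h⟩ := step h1 h2 h3 hs
  refine ⟨D, hD, ?_⟩
  intro A B C ρ hA hB hρ hρC
  have h4 := h A B C ρ hA hB hρ hρC
  have e1 : N1 - 1 + 1 = N1 := by omega
  have e2 : N2 - 1 + 1 = N2 := by omega
  have e3 : N3 - 1 - 1 = N3 - 2 := by omega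
  have e4 : N3 - 1 - 2 = N3 - 3 := by omega
  rw [e1, e2, e3, e4]
  exact h4

theorem St.mono {F : ℕ → ℕ → ℕ → ℕ} {a b c : ℕ} {D D' : ℝ} (h : St F a b c D) (hD : D ≤ D') :
    St F a b c D' := by
  intro A B C ρ hA hB hρ hρC
  refine (h A B C ρ hA hB hρ hρC).trans ?_
  gcongr

/-- **The box count.** -/
theorem box (h1 : 3 ≤ N1) (h2 : 3 ≤ N2) (h3 : 3 ≤ N3) {T : Fin N1 → Fin N2 → Fin N3 → ℤ}
    (hs : Sm ℝ T) (ε : ℝ) (hε : 0 < ε) :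
    ∃ K : ℝ, 0 ≤ K ∧ ∀ A B C : ℕ, 1 ≤ A → 1 ≤ B → 1 ≤ C → ((PP T A B C).card : ℝ) ≤
      K * ((A : ℝ) ^ (N1 - 1) * (B : ℝ) ^ (N2 - 1) * (C : ℝ) ^ (N3 - 1)) *
        ((A : ℝ) * B * C) ^ ε := by
  obtain ⟨D1, hD1, hst1⟩ := st_PP h1 h2 h3 hs
  obtain ⟨D2, hD2, hst2⟩ := st_PP h1 h3 h2 hs.s23
  obtain ⟨D3, hD3, hst3⟩ := st_PP h2 h3 h1 hs.s12.s23
  set m := N1 + N2 + N3 with hm
  obtain ⟨C0, hC0⟩ := BL.exists_scale m (by omega) ε hε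
  set D := max D1 (max D2 D3) with hD
  have hD0 : 0 ≤ D := le_max_of_le_left hD1
  have hst1' := hst1.mono (le_max_left D1 (max D2 D3))
  have hst2' := hst2.mono ((le_max_left D2 D3).trans (le_max_right D1 _))
  have hst3' := hst3.mono ((le_max_right D2 D3).trans (le_max_right D1 _))
  rw [← hD] at hst1' hst2' hst3'
  set K0 : ℝ := (3 * C0) ^ N1 * ((3 * C0) ^ N2 * (3 * C0) ^ N3) with hK0
  set K : ℝ := max (8 * 3 ^ m * D) K0 with hK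
  have hKn : 0 ≤ K := le_max_of_le_left (by positivity)
  have triv : ∀ A B C : ℕ, 1 ≤ A → 1 ≤ B → 1 ≤ C → A < C0 → B < C0 → C < C0 →
      ((PP T A B C).card : ℝ) ≤ K := by
    intro A B C hA hB hC hA0 hB0 hC0'
    refine (card_PP_triv T A B C hA hB hC).trans ?_
    refine le_trans ?_ (le_max_right _ _)
    rw [hK0]
    gcongr
  refine ⟨K, hKn, ?_⟩
  have key : ∀ n : ℕ, ∀ A B C : ℕ, A + B + C ≤ n → 1 ≤ A → 1 ≤ B → 1 ≤ C →
      ((PP T A B C).card : ℝ) ≤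
        K * ((A : ℝ) ^ (N1 - 1) * (B : ℝ) ^ (N2 - 1) * (C : ℝ) ^ (N3 - 1)) *
          ((A : ℝ) * B * C) ^ ε := by
    intro n
    induction n with
    | zero =>
      intro A B C h h1 h2 h3
      omega
    | succ n ih =>
      intro A B C h hA hB hC
      by_cases hCm : A ≤ C ∧ B ≤ C
      · exact half _ _ _ _ m D hD0 hst1' (by omega) (by omega) ε hε C0 hC0 K (le_max_left _ _)
          triv A B C hA hB hCm.1 hCm.2 (fun ρ hρ hρC => ih A B ρ (by omega) hA hB hρ)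
      · by_cases hBm : A ≤ B ∧ C ≤ B
        · have h5 := half _ _ _ _ m D hD0 hst2' (by omega) (by omega) ε hε C0 hC0 K
            (le_max_left _ _) (by
              intro A' C' B' e1 e2 e3 e4 e5 e6
              rw [card_PP_s23]
              exact triv A' B' C' e1 e3 e2 e4 e6 e5) A C B hA hC hBm.1 hBm.2 (by
              intro ρ hρ hρB
              rw [card_PP_s23]
              have h6 := ih A ρ C (by omega) hA hρ hC
              have e1 : (A : ℝ) ^ (N1 - 1) * (C : ℝ) ^ (N3 - 1) * (ρ : ℝ) ^ (N2 - 1) =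
                (A : ℝ) ^ (N1 - 1) * (ρ : ℝ) ^ (N2 - 1) * (C : ℝ) ^ (N3 - 1) := by ring
              have e2 : (A : ℝ) * C * ρ = (A : ℝ) * ρ * C := by ring
              rw [e1, e2]
              exact h6)
          rw [card_PP_s23] at h5
          have e1 : (A : ℝ) ^ (N1 - 1) * (C : ℝ) ^ (N3 - 1) * (B : ℝ) ^ (N2 - 1) =
            (A : ℝ) ^ (N1 - 1) * (B : ℝ) ^ (N2 - 1) * (C : ℝ) ^ (N3 - 1) := by ring
          have e2 : (A : ℝ) * C * B = (A : ℝ) * B * C := by ring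
          rw [e1, e2] at h5
          exact h5
        · have hAm : B ≤ A ∧ C ≤ A := by omega
          have h5 := half _ _ _ _ m D hD0 hst3' (by omega) (by omega) ε hε C0 hC0 K
            (le_max_left _ _) (by
              intro B' C' A' e1 e2 e3 e4 e5 e6
              rw [card_PP_s23, card_PP_s12]
              exact triv A' B' C' e3 e1 e2 e6 e4 e5) B C A hB hC hAm.1 hAm.2 (by
              intro ρ hρ hρA
              rw [card_PP_s23, card_PP_s12]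
              have h6 := ih ρ B C (by omega) hρ hB hC
              have e1 : (B : ℝ) ^ (N2 - 1) * (C : ℝ) ^ (N3 - 1) * (ρ : ℝ) ^ (N1 - 1) =
                (ρ : ℝ) ^ (N1 - 1) * (B : ℝ) ^ (N2 - 1) * (C : ℝ) ^ (N3 - 1) := by ring
              have e2 : (B : ℝ) * C * ρ = (ρ : ℝ) * B * C := by ring
              rw [e1, e2]
              exact h6)
          rw [card_PP_s23, card_PP_s12] at h5
          have e1 : (B : ℝ) ^ (N2 - 1) * (C : ℝ) ^ (N3 - 1) * (A : ℝ) ^ (N1 - 1) =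
            (A : ℝ) ^ (N1 - 1) * (B : ℝ) ^ (N2 - 1) * (C : ℝ) ^ (N3 - 1) := by ring
          have e2 : (B : ℝ) * C * A = (A : ℝ) * B * C := by ring
          rw [e1, e2] at h5
          exact h5
  intro A B C hA hB hC
  exact key (A + B + C) A B C le_rfl hA hB hC

end Pool.Agent.H548.TL
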