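import Mathlib
import Pool.Agent.H548.TL.Core

/-! From boxes to heights. -/

namespace Pool.Agent.H548.TL

open Finset Module Matrix
open Pool.Agent.H548.WM (ht bx mem_bx dy dy_spec ht_pos Rep)
open Pool.Agent.H548.BL (rep_ne log_bound)

/-- The infimum of all `t` such that `t L + K` is in the cone generated by `(1,0,0)`, `(0,1,0)` and
`(0,0,1)`, where `L = (l 0, l 1, l 2)` and `K = (-a,-b,-c)`. -/
noncomputable def fuj (a b c : ℕ) (l : Fin 3 → ℝ) : ℝ :=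
  sInf {t : ℝ | 0 ≤ t * l 0 - a ∧ 0 ≤ t * l 1 - b ∧ 0 ≤ t * l 2 - c}

theorem fuj_eq (a b c : ℕ) (l : Fin 3 → ℝ) (hl : ∀ i, 0 < l i) :
    fuj a b c l = max (a / l 0) (max (b / l 1) (c / l 2)) := by
  unfold fuj
  have : {t : ℝ | 0 ≤ t * l 0 - a ∧ 0 ≤ t * l 1 - b ∧ 0 ≤ t * l 2 - c} =
      Set.Ici (max (a / l 0) (max (b / l 1) (c / l 2))) := by
    ext t
    rw [Set.mem_ofPred_eq, Set.mem_Ici, max_le_iff, max_le_iff, div_le_iff₀ (hl 0),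
      div_le_iff₀ (hl 1), div_le_iff₀ (hl 2)]
    constructor
    · rintro ⟨h0, h1, h2⟩
      exact ⟨by linarith, by linarith, by linarith⟩
    · rintro ⟨h0, h1, h2⟩
      exact ⟨by linarith, by linarith, by linarith⟩
  rw [this]
  exact csInf_Ici

/-- The comparison of the heights. -/
theorem compare (x y z l0 l1 l2 t X : ℝ) (a b c : ℕ) (hx : 1 ≤ x) (hy : 1 ≤ y) (hz : 1 ≤ z)
    (ht : 0 ≤ t) (h0 : a ≤ t * l0) (h1 : b ≤ t * l1) (h2 : c ≤ t * l2)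
    (hX : x ^ l0 * y ^ l1 * z ^ l2 ≤ X) :
    x ^ a * y ^ b * z ^ c ≤ X ^ t := by
  have x0 : 0 < x := by linarith
  have y0 : 0 < y := by linarith
  have z0 : 0 < z := by linarith
  have hH : (x ^ l0 * y ^ l1 * z ^ l2) ^ t ≤ X ^ t := Real.rpow_le_rpow (by positivity) hX ht
  have hHe : (x ^ l0 * y ^ l1 * z ^ l2) ^ t = x ^ (t * l0) * y ^ (t * l1) * z ^ (t * l2) := by
    rw [Real.mul_rpow (by positivity) (by positivity), Real.mul_rpow (by positivity) (by positivity),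
      ← Real.rpow_mul x0.le, ← Real.rpow_mul y0.le, ← Real.rpow_mul z0.le]
    simp only [mul_comm]
  rw [← Real.rpow_natCast x a, ← Real.rpow_natCast y b, ← Real.rpow_natCast z c]
  calc x ^ (a : ℝ) * y ^ (b : ℝ) * z ^ (c : ℝ) ≤ x ^ (t * l0) * y ^ (t * l1) * z ^ (t * l2) := by
        gcongr
    _ ≤ X ^ t := by rw [← hHe]; exact hH

theorem root_le (n : ℕ) (s X : ℝ) (hs : 0 < s) (h : (n : ℝ) ^ s ≤ X) : n ≤ ⌊X ^ (1 / s)⌋₊ := by
  apply Nat.le_floor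
  have e3 : ((n : ℝ) ^ s) ^ (1 / s) ≤ X ^ (1 / s) :=
    Real.rpow_le_rpow (by positivity) h (by positivity)
  rwa [← Real.rpow_mul (by positivity), mul_one_div_cancel hs.ne', Real.rpow_one] at e3

variable {N1 N2 N3 : ℕ}

/-- The rational points of bounded height. -/
def Pt (T : Fin N1 → Fin N2 → Fin N3 → ℤ) (l : Fin 3 → ℝ) (X : ℝ) :
    Set ((Fin N1 → ℤ) × (Fin N2 → ℤ) × (Fin N3 → ℤ)) :=
  {t | Rep t.1 ∧ Rep t.2.1 ∧ Rep t.2.2 ∧ InU T t.1 t.2.1 t.2.2 ∧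
    (ht t.1 : ℝ) ^ l 0 * (ht t.2.1 : ℝ) ^ l 1 * (ht t.2.2 : ℝ) ^ l 2 ≤ X}

/-- One dyadic class. -/
theorem level (T : Fin N1 → Fin N2 → Fin N3 → ℤ) (a b c : ℕ) (ha : 1 ≤ a) (hb : 1 ≤ b)
    (hc : 1 ≤ c) (K ε' : ℝ) (hK0 : 0 ≤ K) (hε' : 0 < ε')
    (hK : ∀ A B C : ℕ, 1 ≤ A → 1 ≤ B → 1 ≤ C → ((PP T A B C).card : ℝ) ≤
      K * ((A : ℝ) ^ a * (B : ℝ) ^ b * (C : ℝ) ^ c) * ((A : ℝ) * B * C) ^ ε')
    (l : Fin 3 → ℝ) (u : ℝ) (hu : 0 ≤ u) (h0 : a ≤ u * l 0) (h1 : b ≤ u * l 1)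
    (h2 : c ≤ u * l 2) (X : ℝ) (hX : 1 ≤ X) (j : ℕ × ℕ × ℕ)
    (Q : Finset ((Fin N1 → ℤ) × (Fin N2 → ℤ) × (Fin N3 → ℤ)))
    (hQ : ∀ t ∈ Q, t ∈ Pt T l X ∧ dy t.1 = j.1 ∧ dy t.2.1 = j.2.1 ∧ dy t.2.2 = j.2.2) :
    (Q.card : ℝ) ≤ K * 2 ^ (a + b + c) * 8 ^ ε' * X ^ (u + u * ε') := by
  classical
  have hX0 : 0 < X := by linarith
  rcases Q.eq_empty_or_nonempty with he | ⟨s, hs⟩
  · rw [he]
    simp only [card_empty, Nat.cast_zero]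
    positivity
  have hsub : Q ⊆ PP T (2 ^ j.1) (2 ^ j.2.1) (2 ^ j.2.2) := by
    intro t ht'
    obtain ⟨⟨t1, t2, t3, t4, t5⟩, t6, t7, t8⟩ := hQ t ht'
    have d1 := (dy_spec (ht_pos (rep_ne t1))).1
    have d2 := (dy_spec (ht_pos (rep_ne t2))).1
    have d3 := (dy_spec (ht_pos (rep_ne t3))).1
    rw [t6] at d1
    rw [t7] at d2
    rw [t8] at d3
    unfold PP
    rw [mem_filter, mem_product, mem_product, mem_bx, mem_bx, mem_bx]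
    exact ⟨⟨d1, d2, d3⟩, t4⟩
  obtain ⟨⟨s1, s2, s3, s4, s5⟩, s6, s7, s8⟩ := hQ s hs
  have n0 : 1 ≤ ht s.1 := ht_pos (rep_ne s1)
  have n1 : 1 ≤ ht s.2.1 := ht_pos (rep_ne s2)
  have n2 : 1 ≤ ht s.2.2 := ht_pos (rep_ne s3)
  have h3 := (dy_spec n0).2
  have h4 := (dy_spec n1).2
  have h5 := (dy_spec n2).2
  rw [s6] at h3
  rw [s7] at h4
  rw [s8] at h5
  have h3' : ((2 ^ j.1 : ℕ) : ℝ) ≤ 2 * ht s.1 := by exact_mod_cast h3
  have h4' : ((2 ^ j.2.1 : ℕ) : ℝ) ≤ 2 * ht s.2.1 := by exact_mod_cast h4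
  have h5' : ((2 ^ j.2.2 : ℕ) : ℝ) ≤ 2 * ht s.2.2 := by exact_mod_cast h5
  have n0' : (1 : ℝ) ≤ ht s.1 := by exact_mod_cast n0
  have n1' : (1 : ℝ) ≤ ht s.2.1 := by exact_mod_cast n1
  have n2' : (1 : ℝ) ≤ ht s.2.2 := by exact_mod_cast n2
  have h6 := compare (ht s.1) (ht s.2.1) (ht s.2.2) (l 0) (l 1) (l 2) u X a b c n0' n1' n2' hu
    h0 h1 h2 s5
  set x : ℝ := (ht s.1 : ℝ) with hx
  set y : ℝ := (ht s.2.1 : ℝ) with hy
  set z : ℝ := (ht s.2.2 : ℝ) with hz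
  have hxyz : x * y * z ≤ x ^ a * y ^ b * z ^ c := by
    have e1 : x ≤ x ^ a := le_self_pow₀ n0' (by omega)
    have e2 : y ≤ y ^ b := le_self_pow₀ n1' (by omega)
    have e3 : z ≤ z ^ c := le_self_pow₀ n2' (by omega)
    gcongr
  have h7 : (x * y * z) ^ ε' ≤ X ^ (u * ε') := by
    rw [Real.rpow_mul hX0.le]
    exact Real.rpow_le_rpow (by positivity) (hxyz.trans h6) hε'.le
  calc (Q.card : ℝ) ≤ ((PP T (2 ^ j.1) (2 ^ j.2.1) (2 ^ j.2.2)).card : ℝ) := by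
        exact_mod_cast card_le_card hsub
    _ ≤ K * (((2 ^ j.1 : ℕ) : ℝ) ^ a * ((2 ^ j.2.1 : ℕ) : ℝ) ^ b * ((2 ^ j.2.2 : ℕ) : ℝ) ^ c) *
        (((2 ^ j.1 : ℕ) : ℝ) * ((2 ^ j.2.1 : ℕ) : ℝ) * ((2 ^ j.2.2 : ℕ) : ℝ)) ^ ε' :=
        hK _ _ _ Nat.one_le_two_pow Nat.one_le_two_pow Nat.one_le_two_pow
    _ ≤ K * ((2 * x) ^ a * (2 * y) ^ b * (2 * z) ^ c) * ((2 * x) * (2 * y) * (2 * z)) ^ ε' := by
        gcongr
    _ = K * 2 ^ (a + b + c) * 8 ^ ε' * ((x ^ a * y ^ b * z ^ c) * (x * y * z) ^ ε') := by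
        have e1 : (2 * x) * (2 * y) * (2 * z) = 8 * (x * y * z) := by ring
        rw [e1, Real.mul_rpow (by norm_num) (by positivity), mul_pow, mul_pow, mul_pow, pow_add,
          pow_add]
        ring
    _ ≤ K * 2 ^ (a + b + c) * 8 ^ ε' * (X ^ u * X ^ (u * ε')) := by gcongr
    _ = K * 2 ^ (a + b + c) * 8 ^ ε' * X ^ (u + u * ε') := by rw [Real.rpow_add hX0]

/-- The upper bound for all line bundles. -/
theorem upper (T : Fin N1 → Fin N2 → Fin N3 → ℤ) (a b c : ℕ) (ha : 1 ≤ a) (hb : 1 ≤ b)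
    (hc : 1 ≤ c) (hbox : ∀ ε : ℝ, 0 < ε → ∃ K : ℝ, 0 ≤ K ∧ ∀ A B C : ℕ, 1 ≤ A → 1 ≤ B → 1 ≤ C →
      ((PP T A B C).card : ℝ) ≤
        K * ((A : ℝ) ^ a * (B : ℝ) ^ b * (C : ℝ) ^ c) * ((A : ℝ) * B * C) ^ ε)
    (l : Fin 3 → ℝ) (hl : ∀ i, 0 < l i) (ε : ℝ) (hε : 0 < ε) :
    ∃ C : ℝ, ∀ X : ℝ, 1 ≤ X → (Pt T l X).Finite ∧
      ((Pt T l X).ncard : ℝ) ≤ C * X ^ (fuj a b c l + ε) := by
  classical
  have hfuj := fuj_eq a b c l hl
  have l0 := hl 0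
  have l1 := hl 1
  have l2 := hl 2
  set u := fuj a b c l with hu
  have hu0 : (a : ℝ) ≤ u * l 0 := by
    have h1 : a / l 0 ≤ u := by rw [hfuj]; exact le_max_left _ _
    rwa [div_le_iff₀ l0] at h1
  have hu1 : (b : ℝ) ≤ u * l 1 := by
    have h1 : b / l 1 ≤ u := by rw [hfuj]; exact (le_max_left _ _).trans (le_max_right _ _)
    rwa [div_le_iff₀ l1] at h1
  have hu2 : (c : ℝ) ≤ u * l 2 := by
    have h1 : c / l 2 ≤ u := by rw [hfuj]; exact (le_max_right _ _).trans (le_max_right _ _)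
    rwa [div_le_iff₀ l2] at h1
  have hupos : 0 < u := by
    have h1 : a / l 0 ≤ u := by rw [hfuj]; exact le_max_left _ _
    have ha0 : (0 : ℝ) < a := by exact_mod_cast ha
    have : 0 < (a : ℝ) / l 0 := by positivity
    linarith
  set ε' : ℝ := ε / (2 * u) with hε'
  have hε'0 : 0 < ε' := by positivity
  have hue : u * ε' = ε / 2 := by
    rw [hε']
    field_simp
  obtain ⟨K, hK0, hK⟩ := hbox ε' hε'0
  have hlog2 : 0 < Real.log 2 := Real.log_pos (by norm_num)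
  set C0 : ℝ := (2 + 1 / (l 0 * Real.log 2)) * (1 + 1 / (ε / 6)) with hC0
  set C1 : ℝ := (2 + 1 / (l 1 * Real.log 2)) * (1 + 1 / (ε / 6)) with hC1
  set C2 : ℝ := (2 + 1 / (l 2 * Real.log 2)) * (1 + 1 / (ε / 6)) with hC2
  have hC00 : 0 ≤ C0 := by positivity
  have hC10 : 0 ≤ C1 := by positivity
  have hC20 : 0 ≤ C2 := by positivity
  refine ⟨C0 * C1 * C2 * (K * 2 ^ (a + b + c) * 8 ^ ε'), ?_⟩
  intro X hX
  have hX0 : 0 < X := by linarith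
  set X0 := ⌊X ^ (1 / l 0)⌋₊ with hX0'
  set X1 := ⌊X ^ (1 / l 1)⌋₊ with hX1'
  set X2 := ⌊X ^ (1 / l 2)⌋₊ with hX2'
  have hX01 : 1 ≤ X0 := by
    rw [hX0', Nat.one_le_floor_iff]
    exact Real.one_le_rpow hX (by positivity)
  have hX11 : 1 ≤ X1 := by
    rw [hX1', Nat.one_le_floor_iff]
    exact Real.one_le_rpow hX (by positivity)
  have hX21 : 1 ≤ X2 := by
    rw [hX2', Nat.one_le_floor_iff]
    exact Real.one_le_rpow hX (by positivity)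
  set P : Finset ((Fin N1 → ℤ) × (Fin N2 → ℤ) × (Fin N3 → ℤ)) :=
    ((bx N1 X0) ×ˢ (bx N2 X1) ×ˢ (bx N3 X2)).filter fun t => t ∈ Pt T l X with hP
  have hset : Pt T l X = ↑P := by
    ext t
    rw [hP, mem_coe, mem_filter, mem_product, mem_product, mem_bx, mem_bx, mem_bx]
    constructor
    · intro h
      obtain ⟨h1, h2, h3, h4, h5⟩ := h
      have n0 : (1 : ℝ) ≤ ht t.1 := by exact_mod_cast ht_pos (rep_ne h1)
      have n1 : (1 : ℝ) ≤ ht t.2.1 := by exact_mod_cast ht_pos (rep_ne h2)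
      have n2 : (1 : ℝ) ≤ ht t.2.2 := by exact_mod_cast ht_pos (rep_ne h3)
      have e0 : (1 : ℝ) ≤ (ht t.1 : ℝ) ^ l 0 := Real.one_le_rpow n0 l0.le
      have e1 : (1 : ℝ) ≤ (ht t.2.1 : ℝ) ^ l 1 := Real.one_le_rpow n1 l1.le
      have e2 : (1 : ℝ) ≤ (ht t.2.2 : ℝ) ^ l 2 := Real.one_le_rpow n2 l2.le
      refine ⟨⟨root_le _ _ _ l0 ?_, root_le _ _ _ l1 ?_, root_le _ _ _ l2 ?_⟩,
        ⟨h1, h2, h3, h4, h5⟩⟩
      · refine le_trans ?_ h5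
        have : (ht t.1 : ℝ) ^ l 0 * 1 * 1 ≤
          (ht t.1 : ℝ) ^ l 0 * (ht t.2.1 : ℝ) ^ l 1 * (ht t.2.2 : ℝ) ^ l 2 := by gcongr
        simpa using this
      · refine le_trans ?_ h5
        have : 1 * (ht t.2.1 : ℝ) ^ l 1 * 1 ≤
          (ht t.1 : ℝ) ^ l 0 * (ht t.2.1 : ℝ) ^ l 1 * (ht t.2.2 : ℝ) ^ l 2 := by gcongr
        simpa using this
      · refine le_trans ?_ h5
        have : 1 * 1 * (ht t.2.2 : ℝ) ^ l 2 ≤
          (ht t.1 : ℝ) ^ l 0 * (ht t.2.1 : ℝ) ^ l 1 * (ht t.2.2 : ℝ) ^ l 2 := by gcongr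
        simpa using this
    · rintro ⟨-, h⟩
      exact h
  rw [hset]
  refine ⟨P.finite_toSet, ?_⟩
  rw [Set.ncard_coe_finset]
  set L0 := Nat.log 2 (2 * X0) with hL0
  set L1 := Nat.log 2 (2 * X1) with hL1
  set L2 := Nat.log 2 (2 * X2) with hL2
  set J := (range (L0 + 1)) ×ˢ (range (L1 + 1)) ×ˢ (range (L2 + 1)) with hJ
  have hcov : P ⊆ J.biUnion fun j =>
      P.filter fun t => dy t.1 = j.1 ∧ dy t.2.1 = j.2.1 ∧ dy t.2.2 = j.2.2 := by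
    intro t ht'
    have ht'' := ht'
    rw [hP, mem_filter, mem_product, mem_product, mem_bx, mem_bx, mem_bx] at ht''
    obtain ⟨⟨hx, hy, hz⟩, h1, h2, h3, -⟩ := ht''
    rw [mem_biUnion]
    refine ⟨(dy t.1, dy t.2.1, dy t.2.2), ?_, ?_⟩
    · rw [hJ, mem_product, mem_product, mem_range, mem_range, mem_range]
      refine ⟨?_, ?_, ?_⟩
      · apply Nat.lt_succ_of_le
        apply Nat.le_log_of_pow_le (by norm_num)
        exact ((dy_spec (ht_pos (rep_ne h1))).2).trans (Nat.mul_le_mul_left _ hx)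
      · apply Nat.lt_succ_of_le
        apply Nat.le_log_of_pow_le (by norm_num)
        exact ((dy_spec (ht_pos (rep_ne h2))).2).trans (Nat.mul_le_mul_left _ hy)
      · apply Nat.lt_succ_of_le
        apply Nat.le_log_of_pow_le (by norm_num)
        exact ((dy_spec (ht_pos (rep_ne h3))).2).trans (Nat.mul_le_mul_left _ hz)
    · rw [mem_filter]
      exact ⟨ht', rfl, rfl, rfl⟩
  have hlev : ∀ j ∈ J, (((P.filter fun t => dy t.1 = j.1 ∧ dy t.2.1 = j.2.1 ∧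
      dy t.2.2 = j.2.2).card : ℕ) : ℝ) ≤ K * 2 ^ (a + b + c) * 8 ^ ε' * X ^ (u + ε / 2) := by
    intro j _
    rw [← hue]
    apply level T a b c ha hb hc K ε' hK0 hε'0 hK l u hupos.le hu0 hu1 hu2 X hX j
    intro t ht'
    rw [mem_filter, hP, mem_filter] at ht'
    exact ⟨ht'.1.2, ht'.2⟩
  have hb0 := log_bound (l 0) X l0 hX (ε / 6) (by positivity) X0 hX01 (Nat.floor_le (by positivity))
  have hb1 := log_bound (l 1) X l1 hX (ε / 6) (by positivity) X1 hX11 (Nat.floor_le (by positivity))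
  have hb2 := log_bound (l 2) X l2 hX (ε / 6) (by positivity) X2 hX21 (Nat.floor_le (by positivity))
  calc (P.card : ℝ) ≤ ∑ j ∈ J, (((P.filter fun t => dy t.1 = j.1 ∧ dy t.2.1 = j.2.1 ∧
      dy t.2.2 = j.2.2).card : ℕ) : ℝ) := by
        have h1 := (Finset.card_le_card hcov).trans Finset.card_biUnion_le
        exact_mod_cast h1
    _ ≤ ∑ j ∈ J, K * 2 ^ (a + b + c) * 8 ^ ε' * X ^ (u + ε / 2) := Finset.sum_le_sum hlev
    _ = ((L0 : ℝ) + 1) * ((L1 : ℝ) + 1) * ((L2 : ℝ) + 1) *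
        (K * 2 ^ (a + b + c) * 8 ^ ε' * X ^ (u + ε / 2)) := by
        rw [Finset.sum_const, hJ, card_product, card_product, card_range, card_range, card_range,
          nsmul_eq_mul]
        push_cast
        ring
    _ ≤ (C0 * X ^ (ε / 6)) * (C1 * X ^ (ε / 6)) * (C2 * X ^ (ε / 6)) *
        (K * 2 ^ (a + b + c) * 8 ^ ε' * X ^ (u + ε / 2)) := by
        gcongr
    _ = C0 * C1 * C2 * (K * 2 ^ (a + b + c) * 8 ^ ε') *
        (X ^ (ε / 6) * X ^ (ε / 6) * X ^ (ε / 6) * X ^ (u + ε / 2)) := by ring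
    _ = C0 * C1 * C2 * (K * 2 ^ (a + b + c) * 8 ^ ε') * X ^ (u + ε) := by
        rw [← Real.rpow_add hX0, ← Real.rpow_add hX0, ← Real.rpow_add hX0]
        congr 2
        ring

end Pool.Agent.H548.TL
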