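import Mathlib
import Pool.Agent.H548.TC.Low
import Pool.Agent.H548.TL.Main

/-! Primitive integer vectors on a hyperplane. -/

namespace Pool.Agent.H548.TL

open Finset Matrix
open Pool.Agent.H548.WM (ht bx mem_bx ht_le le_ht le_ht' exists_ht card_bx_le ht_pos Rep)
open Pool.Agent.H548.TC (Prim prim_ne prim_neg rep_or rep_neg sum_tail)

/-- Pigeonhole. -/
theorem many_lat {m : ℕ} (hm : 1 ≤ m) (w : Fin m → ℤ) {Z W : ℕ} (hZ : 1 ≤ Z) (hW : 1 ≤ W)
    (hw : ht w ≤ W) : ∃ S : Finset (Fin m → ℤ), (∀ z ∈ S, w ⬝ᵥ z = 0 ∧ ht z ≤ Z) ∧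
      (Z : ℝ) ^ m ≤ 3 * m * W * Z * S.card := by
  classical
  set D : Finset (Fin m → ℤ) := Fintype.piFinset fun _ => Finset.Icc (0 : ℤ) Z with hD
  have hDc : D.card = (Z + 1) ^ m := by
    rw [hD, Fintype.card_piFinset]
    simp only [Int.card_Icc, prod_const, card_univ, Fintype.card_fin]
    congr 1
  set V : Finset ℤ := Finset.Icc (-(m * W * Z : ℕ) : ℤ) (m * W * Z : ℕ) with hV
  have hVc : V.card = 2 * (m * W * Z) + 1 := by
    rw [hV, Int.card_Icc]
    have h1 : (((m * W * Z : ℕ) : ℤ) + 1 - -((m * W * Z : ℕ) : ℤ)) =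
      ((2 * (m * W * Z) + 1 : ℕ) : ℤ) := by
      push_cast; ring
    rw [h1, Int.toNat_natCast]
  have hmaps : ∀ z ∈ D, w ⬝ᵥ z ∈ V := by
    intro z hz
    rw [hD, Fintype.mem_piFinset] at hz
    have hzi : ∀ i, |z i| ≤ (Z : ℤ) := fun i => by
      have := mem_Icc.1 (hz i)
      rw [abs_of_nonneg this.1]
      exact this.2
    have hwi : ∀ i, |w i| ≤ (W : ℤ) := fun i => (le_ht' w i).trans (by exact_mod_cast hw)
    rw [hV, mem_Icc, ← abs_le]
    calc |w ⬝ᵥ z| ≤ ∑ i, |w i * z i| := Finset.abs_sum_le_sum_abs _ _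
      _ ≤ ∑ i : Fin m, (W : ℤ) * Z := by
          refine Finset.sum_le_sum fun i _ => ?_
          rw [abs_mul]
          exact mul_le_mul (hwi i) (hzi i) (abs_nonneg _) (by positivity)
      _ = ((m * W * Z : ℕ) : ℤ) := by
          rw [Finset.sum_const, card_univ, Fintype.card_fin]
          push_cast
          rw [nsmul_eq_mul]
          ring
  have hVne : V.Nonempty := ⟨0, by
    rw [hV, mem_Icc]
    constructor
    · have : (0 : ℤ) ≤ ((m * W * Z : ℕ) : ℤ) := by positivity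
      linarith
    · positivity⟩
  obtain ⟨v, hv, hmax⟩ := Finset.exists_max_image V
    (fun v => (D.filter fun z => w ⬝ᵥ z = v).card) hVne
  have hle := Finset.card_le_mul_card_image_of_maps_to hmaps
    (D.filter fun z => w ⬝ᵥ z = v).card hmax
  rw [hDc, hVc] at hle
  set E := D.filter fun z => w ⬝ᵥ z = v with hE
  have hEne : E.Nonempty := by
    rw [← Finset.card_pos]
    by_contra hc
    have : E.card = 0 := by omega
    rw [this] at hle
    have : 0 < (Z + 1) ^ m := by positivity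
    omega
  obtain ⟨z₀, hz₀⟩ := hEne
  refine ⟨E.image fun z => z - z₀, ?_, ?_⟩
  · intro z hz
    obtain ⟨x, hx, rfl⟩ := mem_image.1 hz
    rw [hE, mem_filter, hD, Fintype.mem_piFinset] at hx hz₀
    refine ⟨?_, ?_⟩
    · rw [dotProduct_sub, hx.2, hz₀.2, sub_self]
    · apply ht_le
      intro i
      have a1 := mem_Icc.1 (hx.1 i)
      have a2 := mem_Icc.1 (hz₀.1 i)
      show |x i - z₀ i| ≤ (Z : ℤ)
      rw [abs_le]
      constructor <;> linarith [a1.1, a1.2, a2.1, a2.2]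
  · have hci : (E.image fun x => x - z₀).card = E.card :=
      Finset.card_image_of_injective _ fun x z h => by
        simpa using h
    rw [hci]
    have hle' : ((Z : ℝ) + 1) ^ m ≤ E.card * (2 * (m * W * Z) + 1) := by exact_mod_cast hle
    have h1 : (1 : ℝ) ≤ m * W * Z := by
      have : 1 ≤ m * W * Z := Nat.one_le_iff_ne_zero.2 (by positivity)
      exact_mod_cast this
    calc (Z : ℝ) ^ m ≤ ((Z : ℝ) + 1) ^ m := by gcongr; linarith
      _ ≤ E.card * (2 * (m * W * Z) + 1) := hle'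
      _ ≤ E.card * (3 * (m * W * Z)) := by gcongr; linarith
      _ = _ := by ring

/-- The primitive vectors on the hyperplane. -/
noncomputable def FP {m : ℕ} (w : Fin m → ℤ) (R : ℕ) : Finset (Fin m → ℤ) := by
  classical
  exact (bx m R).filter fun z => Prim z ∧ w ⬝ᵥ z = 0

theorem mem_FP {m : ℕ} {w : Fin m → ℤ} {R : ℕ} {z : Fin m → ℤ} :
    z ∈ FP w R ↔ ht z ≤ R ∧ Prim z ∧ w ⬝ᵥ z = 0 := by
  simp only [FP, Finset.mem_filter, mem_bx]

theorem FP_mono {m : ℕ} {w : Fin m → ℤ} {R R' : ℕ} (h : R ≤ R') : FP w R ⊆ FP w R' := by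
  intro x hx
  rw [mem_FP] at hx ⊢
  exact ⟨hx.1.trans h, hx.2⟩

theorem cover {m : ℕ} (hm : 0 < m) (w : Fin m → ℤ) (Z : ℕ) (S : Finset (Fin m → ℤ))
    (hS : ∀ z ∈ S, w ⬝ᵥ z = 0 ∧ ht z ≤ Z) :
    (S.card : ℝ) ≤ 1 + ∑ d ∈ Finset.Icc 1 Z, ((FP w (Z / d)).card : ℝ) := by
  classical
  have hcov : S ⊆ {0} ∪ (Finset.Icc 1 Z).biUnion fun d => (FP w (Z / d)).image
      fun x k => (d : ℤ) * x k := by
    intro x hx
    obtain ⟨hI, hh⟩ := hS x hx
    rw [mem_union, mem_singleton]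
    by_cases h0 : x = 0
    · left; exact h0
    right
    have hex : ∃ k, x k ≠ 0 := by
      by_contra hc
      push Not at hc
      exact h0 (funext hc)
    obtain ⟨g, u, hg, hu, hd⟩ := Pool.Agent.H548.WM.exists_gcd x hex
    choose z hz using hd
    have hgZ : (g : ℤ) ≠ 0 := by exact_mod_cast (by omega : g ≠ 0)
    have hxz : x = (g : ℤ) • z := by
      funext k
      rw [hz k]
      rfl
    have hzp : Prim z := by
      refine ⟨u, ?_⟩
      have : (g : ℤ) * ∑ i, u i * z i = g * 1 := by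
        calc (g : ℤ) * ∑ i, u i * z i = ∑ i, u i * x i := by
              rw [Finset.mul_sum]
              refine Finset.sum_congr rfl fun k _ => ?_
              rw [hz k]
              ring
          _ = g * 1 := by rw [hu, mul_one]
      exact mul_left_cancel₀ hgZ this
    have hzI : w ⬝ᵥ z = 0 := by
      rw [hxz, dotProduct_smul, smul_eq_mul] at hI
      rcases mul_eq_zero.1 hI with h | h
      · exact absurd h hgZ
      · exact h
    have hgz : g * ht z ≤ Z := by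
      obtain ⟨k, hk⟩ := exists_ht hm z
      refine le_trans ?_ hh
      have h1 := le_ht' x k
      rw [hz k, abs_mul, hk, Nat.abs_cast] at h1
      exact_mod_cast h1
    have hz1 := ht_pos (prim_ne hzp)
    rw [mem_biUnion]
    refine ⟨g, ?_, ?_⟩
    · rw [mem_Icc]
      exact ⟨hg, le_trans (Nat.le_mul_of_pos_right _ hz1) hgz⟩
    · rw [mem_image]
      refine ⟨z, ?_, ?_⟩
      · rw [mem_FP]
        refine ⟨?_, hzp, hzI⟩
        rw [Nat.le_div_iff_mul_le (by omega)]
        linarith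
      · funext k
        rw [hz k]
  have h1 := Finset.card_le_card hcov
  have h2 := Finset.card_union_le {(0 : Fin m → ℤ)} ((Finset.Icc 1 Z).biUnion fun d =>
    (FP w (Z / d)).image fun x k => (d : ℤ) * x k)
  have h3 : ((Finset.Icc 1 Z).biUnion fun d =>
      (FP w (Z / d)).image fun x k => (d : ℤ) * x k).card ≤
      ∑ d ∈ Finset.Icc 1 Z, (FP w (Z / d)).card :=
    Finset.card_biUnion_le.trans (Finset.sum_le_sum fun d _ => Finset.card_image_le)
  rw [card_singleton] at h2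
  have h4 : S.card ≤ 1 + ∑ d ∈ Finset.Icc 1 Z, (FP w (Z / d)).card := by omega
  exact_mod_cast h4

/-- The upper bound for the number of primitive vectors. -/
theorem FP_le {m : ℕ} (hm : 3 ≤ m) {w : Fin m → ℤ} (hw : Prim w) (R : ℕ) (hR : 1 ≤ R) :
    ((FP w R).card : ℝ) ≤ 5 ^ m * (R : ℝ) ^ (m - 1) / ht w + (3 * ht w) ^ m := by
  classical
  have hW := ht_pos (prim_ne hw)
  have hW' : (0 : ℝ) < ht w := by exact_mod_cast hW
  rcases le_or_gt (ht w) R with h | h
  · obtain ⟨u, hu⟩ := hw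
    obtain ⟨k0, hk0⟩ := exists_ht (by omega) w
    have h1 := WM.hyp w u 1 (ht w) k0 R 1 le_rfl hW (by simpa using hu) (by
      rw [one_mul]
      have : ((w k0).natAbs : ℤ) = (ht w : ℤ) := by rw [← hk0, Int.abs_eq_natAbs]
      exact_mod_cast this) (by simpa using h) hR
    have h2 : (FP w R).card ≤ ((bx m R).filter fun r => ∑ k, w k * r k = 0).card := by
      apply card_le_card
      intro z hz
      rw [mem_FP] at hz
      rw [mem_filter, mem_bx]
      exact ⟨hz.1, hz.2.2⟩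
    have h3 : (FP w R).card * (R * ht w) ≤ ((1 + 4) * R) ^ m :=
      (Nat.mul_le_mul_right _ h2).trans h1
    have h4 : ((FP w R).card : ℝ) * (R * ht w) ≤ ((1 + 4) * R) ^ m := by exact_mod_cast h3
    have hR' : (0 : ℝ) < R := by exact_mod_cast hR
    have h5 : ((FP w R).card : ℝ) ≤ 5 ^ m * (R : ℝ) ^ (m - 1) / ht w := by
      rw [le_div_iff₀ hW']
      have h6 : ((1 + 4) * (R : ℝ)) ^ m = 5 ^ m * (R : ℝ) ^ (m - 1) * R := by
        rw [mul_pow, mul_assoc, ← pow_succ]
        have : m - 1 + 1 = m := by omega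
        rw [this]
        norm_num
      rw [h6] at h4
      have h7 : (((FP w R).card : ℝ) * ht w) * R ≤ (5 ^ m * (R : ℝ) ^ (m - 1)) * R := by
        calc (((FP w R).card : ℝ) * ht w) * R = ((FP w R).card : ℝ) * (R * ht w) := by ring
          _ ≤ _ := h4
      exact le_of_mul_le_mul_right h7 hR'
    have : (0 : ℝ) ≤ (3 * ht w) ^ m := by positivity
    linarith
  · have h1 : ((FP w R).card : ℝ) ≤ ((bx m (ht w)).card : ℝ) := by
      have : FP w R ⊆ bx m (ht w) := by
        intro z hz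
        rw [mem_FP] at hz
        rw [mem_bx]
        omega
      exact_mod_cast card_le_card this
    have h2 := card_bx_le m hW
    have : (0 : ℝ) ≤ 5 ^ m * (R : ℝ) ^ (m - 1) / ht w := by positivity
    linarith

/-- The lower bound for the number of primitive vectors. -/
theorem prim_low {m : ℕ} (hm : 3 ≤ m) : ∃ (c : ℝ) (E : ℕ), 0 < c ∧ 1 ≤ E ∧
    ∀ (w : Fin m → ℤ), Prim w → ∀ Z : ℕ, E * ht w ^ 4 ≤ Z →
      c * (Z : ℝ) ^ (m - 1) ≤ ht w * (FP w Z).card := by
  set D : ℕ := 12 * m * 5 ^ m with hD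
  set E : ℕ := 24 * m * 3 ^ m with hE
  have hm0 : (0 : ℝ) < m := by exact_mod_cast (by omega : 0 < m)
  have hD1 : 1 ≤ D := by
    rw [hD]
    exact Nat.one_le_iff_ne_zero.2 (by positivity)
  have hD0 : (0 : ℝ) < D := by exact_mod_cast hD1
  have hE1 : 1 ≤ E := by
    rw [hE]
    exact Nat.one_le_iff_ne_zero.2 (by positivity)
  refine ⟨1 / (6 * m * D), E, by positivity, hE1, ?_⟩
  intro w hw Z hZ
  have hW := ht_pos (prim_ne hw)
  set W := ht w with hWdef
  have hW' : (1 : ℝ) ≤ W := by exact_mod_cast hW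
  have hW0 : (0 : ℝ) < W := by linarith
  have hZ1 : 1 ≤ Z := by
    refine le_trans ?_ hZ
    exact Nat.one_le_iff_ne_zero.2 (by positivity)
  have hZ' : (1 : ℝ) ≤ Z := by exact_mod_cast hZ1
  have hZ0 : (0 : ℝ) < Z := by linarith
  obtain ⟨S, hS, hSc⟩ := many_lat (by omega) w hZ1 hW le_rfl
  have hcov := cover (by omega) w Z S hS
  have hsplit := Finset.sum_filter_add_sum_filter_not (Finset.Icc 1 Z) (fun d => D < d)
    (fun d => ((FP w (Z / d)).card : ℝ))
  set N := ((FP w Z).card : ℝ) with hN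
  have hsmall : ∑ d ∈ (Finset.Icc 1 Z).filter (fun d => ¬ D < d), ((FP w (Z / d)).card : ℝ) ≤
      D * N := by
    calc ∑ d ∈ (Finset.Icc 1 Z).filter (fun d => ¬ D < d), ((FP w (Z / d)).card : ℝ)
        ≤ ∑ d ∈ (Finset.Icc 1 Z).filter (fun d => ¬ D < d), N := by
          refine Finset.sum_le_sum fun d _ => ?_
          rw [hN]
          exact_mod_cast Finset.card_le_card (FP_mono (Nat.div_le_self Z d))
      _ = ((Finset.Icc 1 Z).filter (fun d => ¬ D < d)).card * N := by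
          rw [Finset.sum_const, nsmul_eq_mul]
      _ ≤ D * N := by
          have h1 : (Finset.Icc 1 Z).filter (fun d => ¬ D < d) ⊆ Finset.Icc 1 D := by
            intro d hd
            rw [mem_filter, mem_Icc] at hd
            rw [mem_Icc]
            omega
          have h2 := Finset.card_le_card h1
          rw [Nat.card_Icc, Nat.add_sub_cancel] at h2
          have h3 : (((Finset.Icc 1 Z).filter (fun d => ¬ D < d)).card : ℝ) ≤ D := by
            exact_mod_cast h2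
          gcongr
  have hlarge : ∑ d ∈ (Finset.Icc 1 Z).filter (fun d => D < d), ((FP w (Z / d)).card : ℝ) ≤
      Z * (3 * W) ^ m + 5 ^ m * (Z : ℝ) ^ (m - 1) / W * (1 / D) := by
    have h1 : ∀ d ∈ (Finset.Icc 1 Z).filter (fun d => D < d), ((FP w (Z / d)).card : ℝ) ≤
        (3 * (W : ℝ)) ^ m + 5 ^ m * (Z : ℝ) ^ (m - 1) / W * (1 / (d : ℝ) ^ 2) := by
      intro d hd
      rw [mem_filter, mem_Icc] at hd
      have hd1 : (1 : ℝ) ≤ d := by exact_mod_cast hd.1.1
      have hd0 : (0 : ℝ) < d := by linarith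
      have h2 := FP_le hm hw (Z / d) ((Nat.one_le_div_iff (by omega)).2 hd.1.2)
      rw [← hWdef] at h2
      have h5 : ((Z / d : ℕ) : ℝ) ≤ (Z : ℝ) / d := Nat.cast_div_le
      have h6 : 5 ^ m * ((Z / d : ℕ) : ℝ) ^ (m - 1) / W ≤ 5 ^ m * ((Z : ℝ) / d) ^ (m - 1) / W := by
        gcongr
      have h7 : 5 ^ m * ((Z : ℝ) / d) ^ (m - 1) / W ≤
          5 ^ m * (Z : ℝ) ^ (m - 1) / W * (1 / (d : ℝ) ^ 2) := by
        rw [div_pow]
        have h8 : (Z : ℝ) ^ (m - 1) / (d : ℝ) ^ (m - 1) ≤ (Z : ℝ) ^ (m - 1) / (d : ℝ) ^ 2 := by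
          apply div_le_div_of_nonneg_left (by positivity) (by positivity)
          exact pow_le_pow_right₀ hd1 (by omega)
        calc 5 ^ m * ((Z : ℝ) ^ (m - 1) / (d : ℝ) ^ (m - 1)) / W ≤
            5 ^ m * ((Z : ℝ) ^ (m - 1) / (d : ℝ) ^ 2) / W := by gcongr
          _ = _ := by ring
      linarith
    calc ∑ d ∈ (Finset.Icc 1 Z).filter (fun d => D < d), ((FP w (Z / d)).card : ℝ)
        ≤ ∑ d ∈ (Finset.Icc 1 Z).filter (fun d => D < d),
            ((3 * (W : ℝ)) ^ m + 5 ^ m * (Z : ℝ) ^ (m - 1) / W * (1 / (d : ℝ) ^ 2)) :=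
          Finset.sum_le_sum h1
      _ = ((Finset.Icc 1 Z).filter (fun d => D < d)).card * (3 * (W : ℝ)) ^ m +
            5 ^ m * (Z : ℝ) ^ (m - 1) / W *
              ∑ d ∈ (Finset.Icc 1 Z).filter (fun d => D < d), (1 / (d : ℝ) ^ 2) := by
          rw [Finset.sum_add_distrib, Finset.sum_const, ← Finset.mul_sum, nsmul_eq_mul]
      _ ≤ _ := by
          have h2 : (((Finset.Icc 1 Z).filter (fun d => D < d)).card : ℝ) ≤ Z := by
            have := Finset.card_le_card (Finset.filter_subset (fun d => D < d) (Finset.Icc 1 Z))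
            rw [Nat.card_Icc, Nat.add_sub_cancel] at this
            exact_mod_cast this
          have h3 := sum_tail D Z hD1
          gcongr
  -- the error terms
  have herr : 24 * m * W * (1 + Z * (3 * (W : ℝ)) ^ m) ≤ 2 * (Z : ℝ) ^ (m - 1) := by
    obtain ⟨e, rfl⟩ : ∃ e, m = e + 3 := ⟨m - 3, by omega⟩
    have h1 : ((E : ℕ) : ℝ) * (W : ℝ) ^ 4 ≤ Z := by exact_mod_cast hZ
    have h2 : (W : ℝ) ^ 4 ≤ Z := by
      have : (1 : ℝ) ≤ E := by exact_mod_cast hE1
      nlinarith [pow_pos hW0 4]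
    have h3 : (W : ℝ) ^ e ≤ (Z : ℝ) ^ e := by
      have : (W : ℝ) ≤ Z := le_trans (le_self_pow₀ hW' (by norm_num)) h2
      gcongr
    have h4 : (1 : ℝ) ≤ Z * (3 * (W : ℝ)) ^ (e + 3) := by
      have : (1 : ℝ) ≤ (3 * (W : ℝ)) ^ (e + 3) := one_le_pow₀ (by linarith)
      nlinarith
    have e1 : e + 3 - 1 = e + 2 := by omega
    rw [e1]
    calc 24 * ((e + 3 : ℕ) : ℝ) * W * (1 + Z * (3 * (W : ℝ)) ^ (e + 3)) ≤
        24 * ((e + 3 : ℕ) : ℝ) * W * (2 * (Z * (3 * (W : ℝ)) ^ (e + 3))) := by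
          gcongr
          linarith
      _ = 2 * ((24 * ((e + 3 : ℕ) : ℝ) * 3 ^ (e + 3)) * W ^ 4) * (Z * W ^ e) := by ring
      _ = 2 * (((E : ℕ) : ℝ) * W ^ 4) * (Z * W ^ e) := by
          rw [hE]
          push_cast
          ring
      _ ≤ 2 * Z * (Z * Z ^ e) := by gcongr
      _ = 2 * (Z : ℝ) ^ (e + 2) := by ring
  -- conclusion
  have htot : (S.card : ℝ) ≤ 1 + (Z * (3 * W) ^ m + 5 ^ m * (Z : ℝ) ^ (m - 1) / W * (1 / D) +
      D * N) := by linarith
  have hpm : (Z : ℝ) ^ m = (Z : ℝ) ^ (m - 1) * Z := by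
    rw [← pow_succ]
    congr 1
    omega
  have h8 : (Z : ℝ) ^ (m - 1) ≤ 3 * m * W * S.card := by
    rw [hpm] at hSc
    have h9 : (Z : ℝ) ^ (m - 1) * Z ≤ (3 * m * W * S.card) * Z := by
      calc (Z : ℝ) ^ (m - 1) * Z ≤ 3 * m * W * Z * S.card := hSc
        _ = _ := by ring
    exact le_of_mul_le_mul_right h9 hZ0
  have h10 : (Z : ℝ) ^ (m - 1) ≤ 3 * m * W * (1 + Z * (3 * (W : ℝ)) ^ m) +
      (Z : ℝ) ^ (m - 1) / 4 + 3 * m * D * (W * N) := by
    calc (Z : ℝ) ^ (m - 1) ≤ 3 * m * W * S.card := h8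
      _ ≤ 3 * m * W * (1 + (Z * (3 * W) ^ m + 5 ^ m * (Z : ℝ) ^ (m - 1) / W * (1 / D) +
          D * N)) := by gcongr
      _ = _ := by
          have hDe : ((D : ℕ) : ℝ) = 12 * m * 5 ^ m := by
            rw [hD]
            push_cast
            ring
          rw [hDe]
          field_simp
          ring
  have h11 : 3 * m * W * (1 + Z * (3 * (W : ℝ)) ^ m) ≤ (Z : ℝ) ^ (m - 1) / 4 := by linarith
  have h12 : (Z : ℝ) ^ (m - 1) / 2 ≤ 3 * m * D * (W * N) := by linarith
  have hmD : (0 : ℝ) < 6 * m * D := by positivity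
  rw [div_mul_eq_mul_div, one_mul, div_le_iff₀ hmD]
  linarith

end Pool.Agent.H548.TL
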