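import Mathlib
import Pool.Agent.H548.TL.Prim

/-! Many vectors. -/

namespace Pool.Agent.H548.TL

open Finset Matrix
open Pool.Agent.H548.WM (ht bx mem_bx ht_le le_ht le_ht' exists_ht card_bx_le ht_pos Rep)
open Pool.Agent.H548.TC (Prim prim_ne prim_neg rep_or rep_neg)

theorem prim_low' {m : ℕ} (hm : 3 ≤ m) : ∃ (c : ℝ) (E : ℕ), 0 < c ∧ 1 ≤ E ∧
    ∀ (w : Fin m → ℤ), w ≠ 0 → ∀ W Z : ℕ, ht w ≤ W → E * W ^ 4 ≤ Z →
      c * (Z : ℝ) ^ (m - 1) ≤ W * (FP w Z).card := by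
  obtain ⟨c, E, hc, hE, h⟩ := prim_low hm
  refine ⟨c, E, hc, hE, ?_⟩
  intro w hw0 W Z hW hZ
  have hex : ∃ k, w k ≠ 0 := by
    by_contra hcon
    push Not at hcon
    exact hw0 (funext hcon)
  obtain ⟨g, u, hg, hu, hd⟩ := Pool.Agent.H548.WM.exists_gcd w hex
  choose z hz using hd
  have hgZ : (g : ℤ) ≠ 0 := by exact_mod_cast (by omega : g ≠ 0)
  have hxz : w = (g : ℤ) • z := by
    funext k
    rw [hz k]
    rfl
  have hzp : Prim z := by
    refine ⟨u, ?_⟩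
    have : (g : ℤ) * ∑ i, u i * z i = g * 1 := by
      calc (g : ℤ) * ∑ i, u i * z i = ∑ i, u i * w i := by
            rw [Finset.mul_sum]
            refine Finset.sum_congr rfl fun k _ => ?_
            rw [hz k]
            ring
        _ = g * 1 := by rw [hu, mul_one]
    exact mul_left_cancel₀ hgZ this
  have hgz : ht z ≤ ht w := by
    obtain ⟨k, hk⟩ := exists_ht (by omega) z
    have h1 := le_ht' w k
    rw [hz k, abs_mul, hk, Nat.abs_cast] at h1
    have h2 : g * ht z ≤ ht w := by exact_mod_cast h1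
    calc ht z = 1 * ht z := (one_mul _).symm
      _ ≤ g * ht z := Nat.mul_le_mul_right _ hg
      _ ≤ ht w := h2
  have hFP : FP w Z = FP z Z := by
    ext v
    rw [mem_FP, mem_FP, hxz, smul_dotProduct, smul_eq_mul, mul_eq_zero]
    have hg0 : g ≠ 0 := by omega
    simp [hg0]
  have h1 := h z hzp Z (le_trans (by gcongr; exact hgz.trans hW) hZ)
  rw [hFP]
  refine h1.trans ?_
  gcongr
  exact hgz.trans hW

open Classical in
theorem FP_rep {m : ℕ} (w : Fin m → ℤ) (R : ℕ) :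
    (FP w R).card ≤ 2 * ((FP w R).filter Rep).card := by
  have hsub : FP w R ⊆ (FP w R).filter Rep ∪ ((FP w R).filter Rep).image fun v => -v := by
    intro v hv
    have hv' := mem_FP.1 hv
    rw [mem_union, mem_filter, mem_image]
    rcases rep_or hv'.2.1 with h | h
    · exact Or.inl ⟨hv, h⟩
    · right
      refine ⟨-v, ?_, neg_neg v⟩
      rw [mem_filter, mem_FP]
      refine ⟨⟨?_, prim_neg hv'.2.1, ?_⟩, h⟩
      · refine le_trans (le_of_eq ?_) hv'.1
        unfold ht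
        congr 1
        funext i
        simp
      · rw [dotProduct_neg, hv'.2.2, neg_zero]
  have h1 := card_le_card hsub
  have h2 := card_union_le ((FP w R).filter Rep) (((FP w R).filter Rep).image fun v => -v)
  have h3 : (((FP w R).filter Rep).image fun v => -v).card ≤ ((FP w R).filter Rep).card :=
    card_image_le
  omega

variable {N1 N2 N3 : ℕ}

open Classical in
theorem good_z (h3 : 3 ≤ N3) (D : ℝ) (hD : 0 ≤ D) : ∃ (c : ℝ) (E : ℕ), 0 < c ∧ 1 ≤ E ∧
    ∀ (T : Fin N1 → Fin N2 → Fin N3 → ℤ) (x : Fin N1 → ℤ) (y : Fin N2 → ℤ), g3 T x y ≠ 0 →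
      (∃ g : Fin 3 → Fin N2, LinearIndependent ℤ (fun s => Tx T x (g s))) →
      (∃ g : Fin 3 → Fin N1, LinearIndependent ℤ (fun s => Tx (s12 T) y (g s))) →
      ∀ B : (Fin N3 → ℤ) → Prop, (∀ Z : ℕ, 1 ≤ Z →
        (((bx N3 Z).filter fun z => g3 T x y ⬝ᵥ z = 0 ∧ B z).card : ℝ) ≤
          D * (3 * Z) ^ (N3 - 2)) →
      ∀ W Z : ℕ, ht (g3 T x y) ≤ W → E * W ^ 4 ≤ Z → c * (Z : ℝ) ^ (N3 - 1) ≤
        W * ((bx N3 Z).filter fun z => Rep z ∧ InU T x y z ∧ ¬ B z).card := by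
  obtain ⟨c, E, hc, hE, h⟩ := prim_low' h3
  set κ : ℝ := 2 * (3 ^ N3 * 3 ^ (N3 - 3)) + D * 3 ^ (N3 - 2) with hκ
  have hκ0 : 0 < κ := by positivity
  obtain ⟨E2, hE2⟩ := exists_nat_ge (4 * κ / c)
  refine ⟨c / 4, E + E2, by positivity, by omega, ?_⟩
  intro T x y hw hx hy B hB W Z hW hZ
  have hZE : E * W ^ 4 ≤ Z := le_trans (Nat.mul_le_mul_right _ (Nat.le_add_right _ _)) hZ
  have h1 := h (g3 T x y) hw W Z hW hZE
  have hW1 : 1 ≤ W := (ht_pos hw).trans hW
  have hW' : (1 : ℝ) ≤ W := by exact_mod_cast hW1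
  have hZ1 : 1 ≤ Z := by
    refine le_trans ?_ hZE
    exact Nat.one_le_iff_ne_zero.2 (by positivity)
  have hZ' : (1 : ℝ) ≤ Z := by exact_mod_cast hZ1
  set G := (bx N3 Z).filter fun z => Rep z ∧ InU T x y z ∧ ¬ B z with hG
  have hsub : (FP (g3 T x y) Z).filter Rep ⊆ ((G ∪ (bx N3 Z).filter fun z => g2 T x z = 0) ∪
      (bx N3 Z).filter fun z => g2 (s12 T) y z = 0) ∪
      (bx N3 Z).filter fun z => g3 T x y ⬝ᵥ z = 0 ∧ B z := by
    intro z hz
    rw [mem_filter, mem_FP] at hz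
    obtain ⟨⟨hz1, hz2, hz3⟩, hz4⟩ := hz
    have hz5 : tf T x y z = 0 := by
      rw [tf_g3, dotProduct_comm]
      exact hz3
    rw [mem_union, mem_union, mem_union, hG, mem_filter, mem_filter, mem_filter, mem_filter,
      mem_bx, g2_s12]
    by_cases e1 : g2 T x z = 0
    · exact Or.inl (Or.inl (Or.inr ⟨hz1, e1⟩))
    · by_cases e2 : g1 T y z = 0
      · exact Or.inl (Or.inr ⟨hz1, e2⟩)
      · by_cases e3 : B z
        · exact Or.inr ⟨hz1, hz3, e3⟩
        · exact Or.inl (Or.inl (Or.inl ⟨hz1, hz4, ⟨hz5, e2, e1, hw⟩, e3⟩))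
  have h2 := card_le_card hsub
  have h2' := card_union_le ((G ∪ (bx N3 Z).filter fun z => g2 T x z = 0) ∪
    (bx N3 Z).filter fun z => g2 (s12 T) y z = 0)
    ((bx N3 Z).filter fun z => g3 T x y ⬝ᵥ z = 0 ∧ B z)
  have h3' := card_union_le (G ∪ (bx N3 Z).filter fun z => g2 T x z = 0)
    ((bx N3 Z).filter fun z => g2 (s12 T) y z = 0)
  have h4 := card_union_le G ((bx N3 Z).filter fun z => g2 T x z = 0)
  have h5 := FP_rep (g3 T x y) Z
  have k1 := ker_three hx Z hZ1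
  have k2 := ker_three hy Z hZ1
  have k3 := hB Z hZ1
  set b1 := ((bx N3 Z).filter fun z => g2 T x z = 0).card with hb1
  set b2 := ((bx N3 Z).filter fun z => g2 (s12 T) y z = 0).card with hb2
  set b3 := ((bx N3 Z).filter fun z => g3 T x y ⬝ᵥ z = 0 ∧ B z).card with hb3
  have h6 : (FP (g3 T x y) Z).card ≤ 2 * (G.card + b1 + b2 + b3) := by omega
  have h7 : ((FP (g3 T x y) Z).card : ℝ) ≤ 2 * (G.card + b1 + b2 + b3) := by exact_mod_cast h6
  have h8 : c * (Z : ℝ) ^ (N3 - 1) ≤ W * (2 * (G.card + b1 + b2 + b3)) := h1.trans (by gcongr)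
  have h9 : (W : ℝ) * (2 * (b1 + b2 + b3)) ≤ c / 2 * (Z : ℝ) ^ (N3 - 1) := by
    have e1 : (Z : ℝ) ^ (N3 - 1) = (Z : ℝ) ^ (N3 - 2) * Z := by
      rw [← pow_succ]
      congr 1
      omega
    have e2 : 4 * κ ≤ c * (E2 : ℝ) := by
      rw [div_le_iff₀ hc] at hE2
      linarith
    have e3 : (E2 : ℝ) * W ≤ Z := by
      have e4 : (E2 : ℝ) * (W : ℝ) ^ 4 ≤ Z := by
        have : E2 * W ^ 4 ≤ Z := le_trans (Nat.mul_le_mul_right _ (Nat.le_add_left _ _)) hZ
        exact_mod_cast this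
      have e5 : (W : ℝ) ≤ (W : ℝ) ^ 4 := le_self_pow₀ hW' (by norm_num)
      calc (E2 : ℝ) * W ≤ E2 * (W : ℝ) ^ 4 := by gcongr
        _ ≤ Z := e4
    have e6 : (Z : ℝ) ^ (N3 - 3) ≤ (Z : ℝ) ^ (N3 - 2) := pow_le_pow_right₀ hZ' (by omega)
    have e7 : (b1 : ℝ) + b2 + b3 ≤ κ * (Z : ℝ) ^ (N3 - 2) := by
      calc (b1 : ℝ) + b2 + b3 ≤ 3 ^ N3 * (3 * (Z : ℝ)) ^ (N3 - 3) +
            3 ^ N3 * (3 * (Z : ℝ)) ^ (N3 - 3) + D * (3 * (Z : ℝ)) ^ (N3 - 2) := by gcongr
        _ = 2 * (3 ^ N3 * 3 ^ (N3 - 3)) * (Z : ℝ) ^ (N3 - 3) +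
            D * 3 ^ (N3 - 2) * (Z : ℝ) ^ (N3 - 2) := by
            rw [mul_pow, mul_pow]
            ring
        _ ≤ 2 * (3 ^ N3 * 3 ^ (N3 - 3)) * (Z : ℝ) ^ (N3 - 2) +
            D * 3 ^ (N3 - 2) * (Z : ℝ) ^ (N3 - 2) := by gcongr
        _ = _ := by
            rw [hκ]
            ring
    calc (W : ℝ) * (2 * (b1 + b2 + b3)) ≤ W * (2 * (κ * (Z : ℝ) ^ (N3 - 2))) := by gcongr
      _ = (4 * κ) / 2 * (W * (Z : ℝ) ^ (N3 - 2)) := by ring
      _ ≤ (c * (E2 : ℝ)) / 2 * (W * (Z : ℝ) ^ (N3 - 2)) := by gcongr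
      _ = c / 2 * ((Z : ℝ) ^ (N3 - 2) * (E2 * W)) := by ring
      _ ≤ c / 2 * ((Z : ℝ) ^ (N3 - 2) * Z) := by gcongr
      _ = c / 2 * (Z : ℝ) ^ (N3 - 1) := by rw [e1]
  have h10 : (W : ℝ) * (2 * (G.card + b1 + b2 + b3)) =
      W * (2 * G.card) + W * (2 * (b1 + b2 + b3)) := by ring
  rw [h10] at h8
  linarith

/-- Many representatives. -/
theorem many_rep {N : ℕ} (hN : 3 ≤ N) : ∃ (c : ℝ) (K : ℕ), 0 < c ∧ ∀ X : ℕ, K ≤ X →
    ∃ S : Finset (Fin N → ℤ), (∀ v ∈ S, Rep v ∧ ht v ≤ X ∧ X < 2 * ht v) ∧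
      c * (X : ℝ) ^ N ≤ S.card := by
  classical
  obtain ⟨e, rfl⟩ : ∃ e, N = 3 + e := ⟨N - 3, by omega⟩
  obtain ⟨c, K, hc, h⟩ := TC.many_y
  refine ⟨c, K, hc, fun X hX => ?_⟩
  obtain ⟨Y, hY, hYc⟩ := h X hX
  refine ⟨(Y ×ˢ bx e X).image fun t => Fin.append t.1 t.2, ?_, ?_⟩
  · intro v hv
    rw [mem_image] at hv
    obtain ⟨⟨y, t⟩, hyt, rfl⟩ := hv
    rw [mem_product] at hyt
    obtain ⟨h1, h2⟩ := hyt
    simp only at h1 h2
    obtain ⟨hr, -, hX1, hX2, hy0⟩ := hY y h1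
    rw [mem_bx] at h2
    have hle : ht y ≤ ht (Fin.append y t) := by
      apply ht_le
      intro i
      have := le_ht' (Fin.append y t) (Fin.castAdd e i)
      rwa [Fin.append_left] at this
    refine ⟨⟨?_, ?_⟩, ?_, lt_of_lt_of_le hX2 (Nat.mul_le_mul_left _ hle)⟩
    · have h3 : Finset.univ.gcd (Fin.append y t) ∣ Finset.univ.gcd y := by
        rw [Finset.dvd_gcd_iff]
        intro i _
        have : Finset.univ.gcd (Fin.append y t) ∣ Fin.append y t (Fin.castAdd e i) :=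
          Finset.gcd_dvd (mem_univ _)
        rwa [Fin.append_left] at this
      rw [hr.1] at h3
      have h4 : normalize (Finset.univ.gcd (Fin.append y t)) = Finset.univ.gcd (Fin.append y t) :=
        Finset.normalize_gcd
      rw [← h4]
      exact normalize_eq_one.2 (isUnit_of_dvd_one h3)
    · refine ⟨Fin.castAdd e 0, ?_, ?_⟩
      · rw [Fin.append_left]
        obtain ⟨-, i, hi, hi'⟩ := hr
        rcases Fin.eq_zero_or_eq_succ i with h5 | ⟨j, rfl⟩
        · rw [h5] at hi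
          exact hi
        · exact absurd (hi' 0 (Fin.succ_pos j)) hy0
      · intro j hj
        have := Fin.lt_def.1 hj
        simp at this
    · apply ht_le
      intro i
      refine Fin.addCases (fun i => ?_) (fun i => ?_) i
      · rw [Fin.append_left]
        exact (le_ht' y i).trans (by exact_mod_cast hX1)
      · rw [Fin.append_right]
        exact (le_ht' t i).trans (by exact_mod_cast h2)
  · rw [card_image_of_injective, card_product, WM.card_bx]
    · push_cast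
      have hX' : (0 : ℝ) ≤ X := by positivity
      calc c * (X : ℝ) ^ (3 + e) = (c * (X : ℝ) ^ 3) * (X : ℝ) ^ e := by rw [pow_add]; ring
        _ ≤ Y.card * (2 * (X : ℝ) + 1) ^ e := by
            gcongr
            linarith
    · rintro ⟨y, t⟩ ⟨y', t'⟩ h
      simp only at h
      have e1 : y = y' := by
        funext i
        have := congrFun h (Fin.castAdd e i)
        rwa [Fin.append_left, Fin.append_left] at this
      have e2 : t = t' := by
        funext i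
        have := congrFun h (Fin.natAdd 3 i)
        rwa [Fin.append_right, Fin.append_right] at this
      rw [e1, e2]

/-- Many representatives outside of a hypersurface. -/
theorem many_gen {N : ℕ} (hN : 3 ≤ N) {f : MvPolynomial (Fin N) ℤ} (hf : f ≠ 0) :
    ∃ (c : ℝ) (K : ℕ), 0 < c ∧ ∀ X : ℕ, K ≤ X →
    ∃ S : Finset (Fin N → ℤ), (∀ v ∈ S, Rep v ∧ ht v ≤ X ∧ X < 2 * ht v ∧
      MvPolynomial.eval v f ≠ 0) ∧ c * (X : ℝ) ^ N ≤ S.card := by
  classical
  obtain ⟨c, K, hc, h⟩ := many_rep hN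
  obtain ⟨K2, hK2⟩ := exists_nat_ge (2 * (f.totalDegree * 3 ^ (N - 1)) / c)
  refine ⟨c / 2, K + K2 + 1, by positivity, fun X hX => ?_⟩
  obtain ⟨S, hS, hSc⟩ := h X (by omega)
  refine ⟨S.filter fun v => MvPolynomial.eval v f ≠ 0, ?_, ?_⟩
  · intro v hv
    rw [mem_filter] at hv
    obtain ⟨h1, h2, h3⟩ := hS v hv.1
    exact ⟨h1, h2, h3, hv.2⟩
  · have h1 := zeros (by omega) hf X (by omega)
    have h2 : (S.filter fun v => MvPolynomial.eval v f = 0).card ≤
        ((bx N X).filter fun x => MvPolynomial.eval x f = 0).card := by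
      apply card_le_card
      intro v hv
      rw [mem_filter] at hv
      rw [mem_filter, mem_bx]
      exact ⟨(hS v hv.1).2.1, hv.2⟩
    have h3 := Finset.card_filter_add_card_filter_not (s := S)
      (fun v => MvPolynomial.eval v f = 0)
    have h4 : (S.card : ℝ) = ((S.filter fun v => MvPolynomial.eval v f = 0).card : ℝ) +
        ((S.filter fun v => ¬ MvPolynomial.eval v f = 0).card : ℝ) := by
      exact_mod_cast h3.symm
    have h5 : ((S.filter fun v => MvPolynomial.eval v f = 0).card : ℝ) ≤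
        f.totalDegree * (3 * X) ^ (N - 1) := by
      refine le_trans ?_ h1
      exact_mod_cast h2
    have hX' : (0 : ℝ) < X := by exact_mod_cast (by omega : 0 < X)
    have h6 : f.totalDegree * (3 * (X : ℝ)) ^ (N - 1) ≤ c / 2 * (X : ℝ) ^ N := by
      have e1 : (X : ℝ) ^ N = (X : ℝ) ^ (N - 1) * X := by
        rw [← pow_succ]
        congr 1
        omega
      have e2 : 2 * (f.totalDegree * 3 ^ (N - 1)) ≤ c * (X : ℝ) := by
        rw [div_le_iff₀ hc] at hK2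
        have : (K2 : ℝ) ≤ X := by exact_mod_cast (by omega : K2 ≤ X)
        nlinarith
      rw [e1, mul_pow]
      calc f.totalDegree * (3 ^ (N - 1) * (X : ℝ) ^ (N - 1)) =
            (2 * (f.totalDegree * 3 ^ (N - 1))) / 2 * (X : ℝ) ^ (N - 1) := by ring
        _ ≤ (c * (X : ℝ)) / 2 * (X : ℝ) ^ (N - 1) := by gcongr
        _ = _ := by ring
    have h7 : ((S.filter fun v => MvPolynomial.eval v f ≠ 0).card : ℝ) =
      ((S.filter fun v => ¬ MvPolynomial.eval v f = 0).card : ℝ) := rfl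
    rw [h7]
    linarith

end Pool.Agent.H548.TL
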