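import Mathlib
import Pool.Agent.H548.TL.Many

/-! Polynomial conditions. -/

namespace Pool.Agent.H548.TL

open Finset Matrix
open Pool.Agent.H548.WM (ht bx mem_bx ht_le le_ht le_ht' exists_ht card_bx_le ht_pos Rep)

/-- The value of a polynomial with integer coefficients. -/
noncomputable def evz {σ R : Type*} [CommRing R] (p : MvPolynomial σ ℤ) (v : σ → R) : R :=
  MvPolynomial.eval₂ (Int.castRingHom R) v p

theorem evz_map {σ R S : Type*} [CommRing R] [CommRing S] (φ : R →+* S) (p : MvPolynomial σ ℤ)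
    (v : σ → R) : φ (evz p v) = evz p (fun i => φ (v i)) := by
  unfold evz
  rw [MvPolynomial.eval₂_comp_left]
  have : φ.comp (Int.castRingHom R) = Int.castRingHom S := RingHom.ext_int _ _
  rw [this]
  rfl

theorem evz_int {σ : Type*} (p : MvPolynomial σ ℤ) (v : σ → ℤ) : evz p v = MvPolynomial.eval v p := by
  unfold evz MvPolynomial.eval
  have : Int.castRingHom ℤ = RingHom.id ℤ := RingHom.ext_int _ _
  rw [this]
  rfl

theorem deg_evz {σ τ A : Type*} [CommRing A] [Fintype σ] (p : MvPolynomial σ ℤ)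
    (f : σ → MvPolynomial τ A) (hf : ∀ i, (f i).totalDegree ≤ 1) :
    (evz p f).totalDegree ≤ p.totalDegree := by
  classical
  unfold evz
  rw [MvPolynomial.eval₂_eq']
  apply MvPolynomial.totalDegree_finsetSum_le
  intro d hd
  refine (MvPolynomial.totalDegree_mul _ _).trans ?_
  have h1 : ((Int.castRingHom (MvPolynomial τ A)) (MvPolynomial.coeff d p)).totalDegree = 0 := by
    have : (Int.castRingHom (MvPolynomial τ A)) (MvPolynomial.coeff d p) =
      MvPolynomial.C ((MvPolynomial.coeff d p : ℤ) : A) := by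
      simp
    rw [this]
    exact MvPolynomial.totalDegree_C _
  rw [h1, zero_add]
  refine (MvPolynomial.totalDegree_finsetProd _ _).trans ?_
  calc ∑ i, (f i ^ d i).totalDegree ≤ ∑ i, d i := by
        refine Finset.sum_le_sum fun i _ => ?_
        refine (MvPolynomial.totalDegree_pow _ _).trans ?_
        calc d i * (f i).totalDegree ≤ d i * 1 := Nat.mul_le_mul_left _ (hf i)
          _ = d i := mul_one _
    _ = d.sum fun _ e => e := by
        rw [Finsupp.sum_fintype]
        simp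
    _ ≤ p.totalDegree := MvPolynomial.le_totalDegree hd

open Classical in
/-- The number of the integer zeros of a rational polynomial in a box. -/
theorem zerosQ {N : ℕ} (hN : 1 ≤ N) {f : MvPolynomial (Fin N) ℚ} (hf : f ≠ 0) (X : ℕ)
    (hX : 1 ≤ X) :
    (((bx N X).filter fun x => MvPolynomial.eval (fun i => (x i : ℚ)) f = 0).card : ℝ) ≤
      f.totalDegree * (3 * X) ^ (N - 1) := by
  set S : Finset ℚ := (Finset.Icc (-(X : ℤ)) X).image (fun n : ℤ => (n : ℚ)) with hS
  have h := MvPolynomial.schwartz_zippel_totalDegree hf S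
  have hc : S.card = 2 * X + 1 := by
    rw [hS, card_image_of_injective _ Int.cast_injective, Int.card_Icc]
    omega
  rw [hc] at h
  have hinj : ((bx N X).filter fun x => MvPolynomial.eval (fun i => (x i : ℚ)) f = 0).card ≤
      ((Fintype.piFinset fun _ => S).filter fun v => MvPolynomial.eval v f = 0).card := by
    apply Finset.card_le_card_of_injOn (fun x : Fin N → ℤ => fun i => (x i : ℚ))
    · intro x hx
      rw [mem_coe, mem_filter] at hx
      rw [mem_coe, mem_filter, Fintype.mem_piFinset]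
      refine ⟨fun i => ?_, hx.2⟩
      rw [hS, mem_image]
      refine ⟨x i, ?_, rfl⟩
      have := hx.1
      unfold bx at this
      rw [Fintype.mem_piFinset] at this
      exact this i
    · intro x _ x' _ h
      funext i
      have := congrFun h i
      simp only at this
      exact_mod_cast this
  have h' : (((Fintype.piFinset fun _ => S).filter fun v => MvPolynomial.eval v f = 0).card : ℝ) /
      ((2 * X + 1 : ℕ) : ℝ) ^ N ≤ (f.totalDegree : ℝ) / ((2 * X + 1 : ℕ) : ℝ) := by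
    have h2 := (NNRat.cast_le (K := ℝ)).2 h
    push_cast at h2 ⊢
    exact h2
  have hq : (0 : ℝ) < ((2 * X + 1 : ℕ) : ℝ) := by positivity
  rw [div_le_iff₀ (by positivity)] at h'
  have hinj' : (((bx N X).filter fun x => MvPolynomial.eval (fun i => (x i : ℚ)) f = 0).card : ℝ) ≤
      (((Fintype.piFinset fun _ => S).filter fun v => MvPolynomial.eval v f = 0).card : ℝ) := by
    exact_mod_cast hinj
  refine (hinj'.trans h').trans ?_
  have h3 : ((2 * X + 1 : ℕ) : ℝ) ^ N = ((2 * X + 1 : ℕ) : ℝ) ^ (N - 1) * ((2 * X + 1 : ℕ) : ℝ) := by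
    rw [← pow_succ]
    congr 1
    omega
  rw [h3]
  have h4 : (f.totalDegree : ℝ) / ((2 * X + 1 : ℕ) : ℝ) *
      (((2 * X + 1 : ℕ) : ℝ) ^ (N - 1) * ((2 * X + 1 : ℕ) : ℝ)) =
      f.totalDegree * ((2 * X + 1 : ℕ) : ℝ) ^ (N - 1) := by
    field_simp
  rw [h4]
  have h5 : (1 : ℝ) ≤ X := by exact_mod_cast hX
  gcongr
  push_cast
  linarith

open Classical in
/-- The number of the zeros of a polynomial on a hyperplane in a box. -/
theorem few_z {n : ℕ} (hn : 1 ≤ n) {w : Fin (n + 1) → ℤ} (hw : w ≠ 0)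
    {P : MvPolynomial (Fin (n + 1)) ℤ} {z0 : Fin (n + 1) → ℤ} (h0 : w ⬝ᵥ z0 = 0)
    (hP : evz P z0 ≠ 0) (Z : ℕ) (hZ : 1 ≤ Z) :
    (((bx (n + 1) Z).filter fun z => w ⬝ᵥ z = 0 ∧ evz P z = 0).card : ℝ) ≤
      P.totalDegree * (3 * Z) ^ (n - 1) := by
  obtain ⟨k0, hk0⟩ : ∃ k, w k ≠ 0 := by
    by_contra hcon
    push Not at hcon
    exact hw (funext hcon)
  have hk0' : (w k0 : ℚ) ≠ 0 := by exact_mod_cast hk0
  set g : Fin (n + 1) → MvPolynomial (Fin n) ℚ := k0.insertNth
    (-∑ j, MvPolynomial.C ((w (k0.succAbove j) : ℚ) / w k0) * MvPolynomial.X j)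
    (fun j => MvPolynomial.X j) with hg
  have hdeg : ∀ i, (g i).totalDegree ≤ 1 := by
    intro i
    refine Fin.succAboveCases k0 ?_ (fun j => ?_) i
    · rw [hg, Fin.insertNth_apply_same, MvPolynomial.totalDegree_neg]
      apply MvPolynomial.totalDegree_finsetSum_le
      intro j _
      refine (MvPolynomial.totalDegree_mul _ _).trans ?_
      rw [MvPolynomial.totalDegree_C, MvPolynomial.totalDegree_X]
    · rw [hg, Fin.insertNth_apply_succAbove, MvPolynomial.totalDegree_X]
  have hzk : ∀ z : Fin (n + 1) → ℤ, w ⬝ᵥ z = 0 →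
      (z k0 : ℚ) = -∑ j, (w (k0.succAbove j) : ℚ) / w k0 * z (k0.succAbove j) := by
    intro z hz
    unfold dotProduct at hz
    rw [Fin.sum_univ_succAbove _ k0] at hz
    have hz' : (w k0 : ℚ) * z k0 + ∑ j, (w (k0.succAbove j) : ℚ) * z (k0.succAbove j) = 0 := by
      exact_mod_cast hz
    have h1 : ∑ j, (w (k0.succAbove j) : ℚ) / w k0 * z (k0.succAbove j) =
        (∑ j, (w (k0.succAbove j) : ℚ) * z (k0.succAbove j)) / w k0 := by
      rw [Finset.sum_div]
      refine Finset.sum_congr rfl fun j _ => ?_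
      ring
    rw [h1]
    field_simp
    linarith
  have hev : ∀ z : Fin (n + 1) → ℤ, w ⬝ᵥ z = 0 →
      MvPolynomial.eval (fun j => ((z (k0.succAbove j) : ℤ) : ℚ)) (evz P g) =
        ((evz P z : ℤ) : ℚ) := by
    intro z hz
    have e1 := evz_map (MvPolynomial.eval (fun j => ((z (k0.succAbove j) : ℤ) : ℚ))) P g
    have e2 := evz_map (Int.castRingHom ℚ) P z
    rw [e1]
    have e3 : ((evz P z : ℤ) : ℚ) = (Int.castRingHom ℚ) (evz P z) := rfl
    rw [e3, e2]
    congr 1
    funext i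
    refine Fin.succAboveCases k0 ?_ (fun j => ?_) i
    · rw [hg, Fin.insertNth_apply_same]
      simp only [map_neg, map_sum, map_mul, MvPolynomial.eval_C, MvPolynomial.eval_X]
      exact (hzk z hz).symm
    · rw [hg, Fin.insertNth_apply_succAbove, MvPolynomial.eval_X]
      rfl
  have hne : evz P g ≠ 0 := by
    intro h
    have h1 := hev z0 h0
    rw [h, map_zero] at h1
    apply hP
    exact_mod_cast h1.symm
  have h1 := zerosQ hn hne Z hZ
  have h2 : ((bx (n + 1) Z).filter fun z => w ⬝ᵥ z = 0 ∧ evz P z = 0).card ≤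
      ((bx n Z).filter fun x => MvPolynomial.eval (fun i => (x i : ℚ)) (evz P g) = 0).card := by
    apply Finset.card_le_card_of_injOn (fun z : Fin (n + 1) → ℤ => fun j => z (k0.succAbove j))
    · intro z hz
      rw [mem_coe, mem_filter, mem_bx] at hz
      rw [mem_coe, mem_filter, mem_bx]
      refine ⟨?_, ?_⟩
      · refine le_trans (ht_le fun j => ?_) hz.1
        exact le_ht' z _
      · have := hev z hz.2.1
        rw [hz.2.2] at this
        simpa using this
    · intro z hz z' hz' h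
      rw [mem_coe, mem_filter] at hz hz'
      simp only at h
      funext i
      refine Fin.succAboveCases k0 ?_ (fun j => ?_) i
      · have e1 := hzk z hz.2.1
        have e2 := hzk z' hz'.2.1
        have e3 : ∀ j, z (k0.succAbove j) = z' (k0.succAbove j) := fun j => congrFun h j
        simp only [e3] at e1
        have e4 : (z k0 : ℚ) = z' k0 := e1.trans e2.symm
        exact_mod_cast e4
      · exact congrFun h j
  have h3 := deg_evz P g hdeg
  calc (((bx (n + 1) Z).filter fun z => w ⬝ᵥ z = 0 ∧ evz P z = 0).card : ℝ) ≤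
      (((bx n Z).filter fun x =>
        MvPolynomial.eval (fun i => (x i : ℚ)) (evz P g) = 0).card : ℝ) := by exact_mod_cast h2
    _ ≤ (evz P g).totalDegree * (3 * Z) ^ (n - 1) := h1
    _ ≤ _ := by gcongr

variable {N1 N2 N3 : ℕ}

/-- Vectors orthogonal to `w`. -/
def zp {R : Type*} [CommRing R] {m : ℕ} (w : Fin m → R) (s : Fin m × Fin m → R) : Fin m → R :=
  fun k => ∑ j, s (k, j) * w j - ∑ i, s (i, k) * w i

theorem dot_zp {R : Type*} [CommRing R] {m : ℕ} (w : Fin m → R) (s : Fin m × Fin m → R) :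
    w ⬝ᵥ zp w s = 0 := by
  unfold dotProduct zp
  simp only [mul_sub, Finset.mul_sum, Finset.sum_sub_distrib]
  rw [sub_eq_zero]
  conv_rhs => rw [Finset.sum_comm]
  refine Finset.sum_congr rfl fun k _ => Finset.sum_congr rfl fun j _ => ?_
  ring

theorem exists_zp {m : ℕ} {w z : Fin m → ℂ} (hw : w ≠ 0) (h : w ⬝ᵥ z = 0) :
    ∃ s : Fin m × Fin m → ℂ, zp w s = z := by
  obtain ⟨k0, hk0⟩ : ∃ k, w k ≠ 0 := by
    by_contra hcon
    push Not at hcon
    exact hw (funext hcon)
  refine ⟨fun p => if p.2 = k0 then z p.1 / w k0 else 0, ?_⟩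
  funext k
  unfold zp
  simp only [ite_mul, zero_mul, Finset.sum_ite_eq', mem_univ, if_true]
  have h1 : ∑ i, (if k = k0 then z i / w k0 * w i else 0) = 0 := by
    by_cases hk : k = k0
    · simp only [hk, if_true]
      have : ∑ i, z i / w k0 * w i = (w ⬝ᵥ z) / w k0 := by
        unfold dotProduct
        rw [Finset.sum_div]
        refine Finset.sum_congr rfl fun i _ => ?_
        ring
      rw [this, h, zero_div]
    · simp [hk]
  rw [h1]
  field_simp
  ring

theorem g3_map {R S : Type*} [CommRing R] [CommRing S] (T : Fin N1 → Fin N2 → Fin N3 → ℤ)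
    (φ : R →+* S) (x : Fin N1 → R) (y : Fin N2 → R) (k : Fin N3) :
    φ (g3 T x y k) = g3 T (fun i => φ (x i)) (fun j => φ (y j)) k := by
  unfold g3
  simp

/-- The triple of vectors as one vector. -/
def tri {R : Type*} {α β γ : Type*} (x : α → R) (y : β → R) (z : γ → R) : α ⊕ β ⊕ γ → R :=
  Sum.elim x (Sum.elim y z)

theorem tri_map {R S : Type*} {α β γ : Type*} (φ : R → S) (x : α → R) (y : β → R) (z : γ → R) :
    (fun i => φ (tri x y z i)) = tri (fun i => φ (x i)) (fun j => φ (y j)) (fun k => φ (z k)) := by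
  funext i
  rcases i with i | i | i <;> rfl

/-- The polynomial in `x`, `y` and the parameters. -/
noncomputable def HH (T : Fin N1 → Fin N2 → Fin N3 → ℤ)
    (G : MvPolynomial (Fin N1 ⊕ Fin N2 ⊕ Fin N3) ℤ) :
    MvPolynomial (Fin N1 ⊕ Fin N2 ⊕ (Fin N3 × Fin N3)) ℤ :=
  evz G (tri (fun i => MvPolynomial.X (Sum.inl i)) (fun j => MvPolynomial.X (Sum.inr (Sum.inl j)))
    (zp (g3 T (fun i => MvPolynomial.X (Sum.inl i)) (fun j => MvPolynomial.X (Sum.inr (Sum.inl j))))
      (fun p => MvPolynomial.X (Sum.inr (Sum.inr p)))))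

theorem evz_HH {R : Type*} [CommRing R] (T : Fin N1 → Fin N2 → Fin N3 → ℤ)
    (G : MvPolynomial (Fin N1 ⊕ Fin N2 ⊕ Fin N3) ℤ) (x : Fin N1 → R) (y : Fin N2 → R)
    (s : Fin N3 × Fin N3 → R) :
    evz (HH T G) (tri x y s) = evz G (tri x y (zp (g3 T x y) s)) := by
  have h1 : evz (HH T G) (tri x y s) =
    (MvPolynomial.eval₂Hom (Int.castRingHom R) (tri x y s)) (HH T G) := rfl
  rw [h1]
  unfold HH
  rw [evz_map, tri_map]
  have e1 : ∀ v, (MvPolynomial.eval₂Hom (Int.castRingHom R) (tri x y s)) (MvPolynomial.X v) =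
    tri x y s v := fun v => MvPolynomial.eval₂Hom_X' _ _ _
  have e2 : (fun i => (MvPolynomial.eval₂Hom (Int.castRingHom R) (tri x y s))
      (MvPolynomial.X (Sum.inl i))) = x := by
    funext i
    rw [e1]
    rfl
  have e3 : (fun j => (MvPolynomial.eval₂Hom (Int.castRingHom R) (tri x y s))
      (MvPolynomial.X (Sum.inr (Sum.inl j)))) = y := by
    funext i
    rw [e1]
    rfl
  have e4 : (fun k => (MvPolynomial.eval₂Hom (Int.castRingHom R) (tri x y s))
      (zp (g3 T (fun i => MvPolynomial.X (Sum.inl i))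
        (fun j => MvPolynomial.X (Sum.inr (Sum.inl j))))
      (fun p => MvPolynomial.X (Sum.inr (Sum.inr p))) k)) = zp (g3 T x y) s := by
    funext k
    unfold zp
    rw [map_sub, map_sum, map_sum]
    congr 1
    · refine Finset.sum_congr rfl fun j _ => ?_
      rw [map_mul, e1, g3_map, e2, e3]
      rfl
    · refine Finset.sum_congr rfl fun j _ => ?_
      rw [map_mul, e1, g3_map, e2, e3]
      rfl
  rw [e2, e3, e4]

/-- The generic pairs `(x, y)` for a polynomial condition. -/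
theorem gen_pairs {T : Fin N1 → Fin N2 → Fin N3 → ℤ} {G : MvPolynomial (Fin N1 ⊕ Fin N2 ⊕ Fin N3) ℤ}
    (hG : ∃ (x : Fin N1 → ℂ) (y : Fin N2 → ℂ) (z : Fin N3 → ℂ), tf T x y z = 0 ∧ g3 T x y ≠ 0 ∧
      evz G (tri x y z) ≠ 0) :
    ∃ (f : MvPolynomial (Fin N1) ℤ) (D : ℕ) (h : (Fin N1 → ℤ) → MvPolynomial (Fin N2) ℤ),
      f ≠ 0 ∧ (∀ x, (h x).totalDegree ≤ D) ∧ (∀ x, MvPolynomial.eval x f ≠ 0 → h x ≠ 0) ∧
      ∀ x y, MvPolynomial.eval y (h x) ≠ 0 → ∃ z0 : Fin N3 → ℤ, g3 T x y ⬝ᵥ z0 = 0 ∧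
        evz G (tri x y z0) ≠ 0 := by
  obtain ⟨x, y, z, h0, hg, hGz⟩ := hG
  rw [tf_g3, dotProduct_comm] at h0
  obtain ⟨s, hs⟩ := exists_zp hg h0
  have hH : HH T G ≠ 0 := by
    intro h
    have h1 := evz_HH T G x y s
    rw [h, hs] at h1
    apply hGz
    rw [← h1]
    unfold evz
    rw [MvPolynomial.eval₂_zero]
  obtain ⟨v, hv⟩ : ∃ v, MvPolynomial.eval v (HH T G) ≠ 0 := by
    by_contra hcon
    push Not at hcon
    apply hH
    apply MvPolynomial.funext
    intro v
    rw [hcon v, map_zero]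
  set x1 : Fin N1 → ℤ := fun i => v (Sum.inl i) with hx1
  set y1 : Fin N2 → ℤ := fun i => v (Sum.inr (Sum.inl i)) with hy1
  set s1 : Fin N3 × Fin N3 → ℤ := fun i => v (Sum.inr (Sum.inr i)) with hs1
  have hvt : v = tri x1 y1 s1 := by
    funext i
    rcases i with i | i | i <;> rfl
  set f : MvPolynomial (Fin N1) ℤ := evz (HH T G) (tri (fun i => MvPolynomial.X i)
    (fun j => MvPolynomial.C (y1 j)) (fun p => MvPolynomial.C (s1 p))) with hf
  set h : (Fin N1 → ℤ) → MvPolynomial (Fin N2) ℤ := fun x => evz (HH T G)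
    (tri (fun i => MvPolynomial.C (x i)) (fun j => MvPolynomial.X j)
      (fun p => MvPolynomial.C (s1 p))) with hh
  have hfe : ∀ x : Fin N1 → ℤ, MvPolynomial.eval x f = evz (HH T G) (tri x y1 s1) := by
    intro x
    rw [hf, evz_map, tri_map]
    simp only [MvPolynomial.eval_X, MvPolynomial.eval_C]
  have hhe : ∀ (x : Fin N1 → ℤ) (y : Fin N2 → ℤ), MvPolynomial.eval y (h x) =
      evz (HH T G) (tri x y s1) := by
    intro x y
    rw [hh]
    simp only
    rw [evz_map, tri_map]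
    simp only [MvPolynomial.eval_X, MvPolynomial.eval_C]
  refine ⟨f, (HH T G).totalDegree, h, ?_, ?_, ?_, ?_⟩
  · intro h0
    apply hv
    rw [hvt, ← evz_int, ← hfe, h0, map_zero]
  · intro x
    apply deg_evz
    rintro (i | i | i)
    · show (MvPolynomial.C (x i) : MvPolynomial (Fin N2) ℤ).totalDegree ≤ 1
      rw [MvPolynomial.totalDegree_C]
      norm_num
    · show (MvPolynomial.X i : MvPolynomial (Fin N2) ℤ).totalDegree ≤ 1
      rw [MvPolynomial.totalDegree_X]
    · show (MvPolynomial.C (s1 i) : MvPolynomial (Fin N2) ℤ).totalDegree ≤ 1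
      rw [MvPolynomial.totalDegree_C]
      norm_num
  · intro x hx h0
    apply hx
    rw [hfe, ← hhe, h0, map_zero]
  · intro x y hxy
    rw [hhe, evz_HH] at hxy
    exact ⟨zp (g3 T x y) s1, dot_zp _ _, hxy⟩

open Classical in
/-- The number of `z` over a generic pair at which the polynomial vanishes. -/
theorem few_zG (h3 : 2 ≤ N3) {T : Fin N1 → Fin N2 → Fin N3 → ℤ}
    (G : MvPolynomial (Fin N1 ⊕ Fin N2 ⊕ Fin N3) ℤ) {x : Fin N1 → ℤ} {y : Fin N2 → ℤ}
    (hg : g3 T x y ≠ 0) (hz : ∃ z0 : Fin N3 → ℤ, g3 T x y ⬝ᵥ z0 = 0 ∧ evz G (tri x y z0) ≠ 0)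
    (Z : ℕ) (hZ : 1 ≤ Z) :
    (((bx N3 Z).filter fun z => g3 T x y ⬝ᵥ z = 0 ∧ evz G (tri x y z) = 0).card : ℝ) ≤
      G.totalDegree * (3 * Z) ^ (N3 - 2) := by
  obtain ⟨n, rfl⟩ : ∃ n, N3 = n + 1 := ⟨N3 - 1, by omega⟩
  obtain ⟨z0, h0, hz0⟩ := hz
  set P : MvPolynomial (Fin (n + 1)) ℤ := evz G (tri (fun i => MvPolynomial.C (x i))
    (fun j => MvPolynomial.C (y j)) (fun k => MvPolynomial.X k)) with hP
  have hPe : ∀ z : Fin (n + 1) → ℤ, evz P z = evz G (tri x y z) := by
    intro z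
    rw [evz_int, hP, evz_map, tri_map]
    simp only [MvPolynomial.eval_X, MvPolynomial.eval_C]
  have hPd : P.totalDegree ≤ G.totalDegree := by
    apply deg_evz
    rintro (i | i | i)
    · show (MvPolynomial.C (x i) : MvPolynomial (Fin (n + 1)) ℤ).totalDegree ≤ 1
      rw [MvPolynomial.totalDegree_C]
      norm_num
    · show (MvPolynomial.C (y i) : MvPolynomial (Fin (n + 1)) ℤ).totalDegree ≤ 1
      rw [MvPolynomial.totalDegree_C]
      norm_num
    · show (MvPolynomial.X i : MvPolynomial (Fin (n + 1)) ℤ).totalDegree ≤ 1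
      rw [MvPolynomial.totalDegree_X]
  have h1 := few_z (by omega) hg h0 (P := P) (by rw [hPe]; exact hz0) Z hZ
  simp only [hPe] at h1
  have e : n + 1 - 2 = n - 1 := by omega
  rw [e]
  refine h1.trans ?_
  gcongr

end Pool.Agent.H548.TL
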