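import Mathlib
import Pool.Agent.H548.TL.Ev

/-! Many points in a box. -/

namespace Pool.Agent.H548.TL

open Finset Matrix
open Pool.Agent.H548.WM (ht bx mem_bx ht_le le_ht le_ht' exists_ht card_bx_le ht_pos Rep)
open Pool.Agent.H548.BL (lat mem_lat lat_card)

variable {N1 N2 N3 : ℕ}

/-- The size of the coefficients. -/
def siz (T : Fin N1 → Fin N2 → Fin N3 → ℤ) : ℕ := ∑ k, ∑ i, ∑ j, (T i j k).natAbs + 1

theorem ht_g3 (T : Fin N1 → Fin N2 → Fin N3 → ℤ) {x : Fin N1 → ℤ} {y : Fin N2 → ℤ} {X Y : ℕ}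
    (hx : ht x ≤ X) (hy : ht y ≤ Y) : ht (g3 T x y) ≤ siz T * (X * Y) := by
  apply ht_le
  intro k
  have h1 : |g3 T x y k| ≤ ∑ i, ∑ j, |T i j k| * (X * Y) := by
    unfold g3
    refine (Finset.abs_sum_le_sum_abs _ _).trans (Finset.sum_le_sum fun i _ => ?_)
    refine (Finset.abs_sum_le_sum_abs _ _).trans (Finset.sum_le_sum fun j _ => ?_)
    rw [abs_mul, abs_mul, mul_assoc]
    have e1 : |x i| ≤ (X : ℤ) := (le_ht' x i).trans (by exact_mod_cast hx)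
    have e2 : |y j| ≤ (Y : ℤ) := (le_ht' y j).trans (by exact_mod_cast hy)
    rw [Int.cast_id]
    exact mul_le_mul le_rfl (mul_le_mul e1 e2 (abs_nonneg _) (by positivity)) (by positivity)
      (abs_nonneg _)
  refine h1.trans ?_
  have h2 : ∑ i, ∑ j, |T i j k| * ((X : ℤ) * Y) = ((∑ i, ∑ j, (T i j k).natAbs : ℕ) : ℤ) * (X * Y) := by
    push_cast
    rw [Finset.sum_mul]
    refine Finset.sum_congr rfl fun i _ => ?_
    rw [Finset.sum_mul]
  rw [h2]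
  have h3 : ∑ i, ∑ j, (T i j k).natAbs ≤ siz T := by
    unfold siz
    exact (Finset.single_le_sum (f := fun k => ∑ i, ∑ j, (T i j k).natAbs)
      (fun _ _ => Nat.zero_le _) (mem_univ k)).trans (Nat.le_succ _)
  have h4 : (∑ i, ∑ j, (T i j k).natAbs) * (X * Y) ≤ siz T * (X * Y) := Nat.mul_le_mul_right _ h3
  exact_mod_cast h4

open Classical in
theorem few_y {T : Fin N1 → Fin N2 → Fin N3 → ℤ} {x : Fin N1 → ℤ}
    (h : ∃ g : Fin 3 → Fin N2, LinearIndependent ℤ (fun s => Tx T x (g s))) (Y : ℕ) (hY : 1 ≤ Y) :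
    (((bx N2 Y).filter fun y => g3 T x y = 0).card : ℝ) ≤ 3 ^ N2 * (3 * Y) ^ (N2 - 1) := by
  obtain ⟨g, hg⟩ := h
  have h0 := hg.ne_zero 0
  obtain ⟨k, hk⟩ : ∃ k, Tx T x (g 0) k ≠ 0 := by
    by_contra hcon
    push Not at hcon
    exact h0 (funext hcon)
  set c : Fin N2 → ℤ := fun j => Tx T x j k with hc
  have hc0 : c ≠ 0 := by
    intro h1
    exact hk (congrFun h1 (g 0))
  have hli : LinearIndependent ℤ (fun _ : Fin 1 => c) := by
    rw [linearIndependent_unique_iff]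
    exact hc0
  have h4 := lat_card hli Y hY
  rw [Fintype.card_fin] at h4
  refine le_trans ?_ h4
  have h5 : (bx N2 Y).filter (fun y => g3 T x y = 0) ⊆
      (bx N2 Y).filter (· ∈ lat (fun _ : Fin 1 => c)) := by
    intro y hy
    rw [mem_filter] at hy ⊢
    refine ⟨hy.1, ?_⟩
    rw [mem_lat]
    intro _
    have h6 := congrFun hy.2 k
    rw [← vecMul_Tx] at h6
    rw [dotProduct_comm]
    exact h6
  exact_mod_cast card_le_card h5

/-- The points of `U` at which a polynomial does not vanish. -/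
def InV {R : Type*} [CommRing R] (T : Fin N1 → Fin N2 → Fin N3 → ℤ)
    (G : MvPolynomial (Fin N1 ⊕ Fin N2 ⊕ Fin N3) ℤ) (x : Fin N1 → R) (y : Fin N2 → R)
    (z : Fin N3 → R) : Prop := InU T x y z ∧ evz G (tri x y z) ≠ 0

open Classical in
/-- Many points in a dyadic box. -/
theorem box_low (h1 : 3 ≤ N1) (h2 : 3 ≤ N2) (h3 : 3 ≤ N3) {T : Fin N1 → Fin N2 → Fin N3 → ℤ}
    (hs : Sm ℝ T) {G : MvPolynomial (Fin N1 ⊕ Fin N2 ⊕ Fin N3) ℤ}
    (hG : ∃ (x : Fin N1 → ℂ) (y : Fin N2 → ℂ) (z : Fin N3 → ℂ), InV T G x y z) :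
    ∃ (c : ℝ) (K E : ℕ), 0 < c ∧ 1 ≤ E ∧ ∀ X Y Z : ℕ, K ≤ X → K ≤ Y →
      E * (X * Y) ^ 4 ≤ Z →
      ∃ P : Finset ((Fin N1 → ℤ) × (Fin N2 → ℤ) × (Fin N3 → ℤ)),
        (∀ t ∈ P, Rep t.1 ∧ Rep t.2.1 ∧ Rep t.2.2 ∧ InV T G t.1 t.2.1 t.2.2 ∧
          ht t.1 ≤ X ∧ X < 2 * ht t.1 ∧ ht t.2.1 ≤ Y ∧ Y < 2 * ht t.2.1 ∧ ht t.2.2 ≤ Z) ∧
        c * ((X : ℝ) ^ (N1 - 1) * (Y : ℝ) ^ (N2 - 1) * (Z : ℝ) ^ (N3 - 1)) ≤ P.card := by
  obtain ⟨f1, hf1, hg1⟩ := gen (by omega) h2 h3 hs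
  obtain ⟨f2, hf2, hg2⟩ := gen (by omega) h1 h3 hs.s12
  obtain ⟨f3, Dh, h, hf3, hhd, hh0, hhz⟩ := gen_pairs (T := T) (G := G) (by
    obtain ⟨x, y, z, hU, hz⟩ := hG
    exact ⟨x, y, z, hU.1, hU.2.2.2, hz⟩)
  obtain ⟨cx, Kx, hcx, hx⟩ := many_gen h1 (mul_ne_zero hf1 hf3)
  obtain ⟨cy, Ky, hcy, hy⟩ := many_gen h2 hf2
  obtain ⟨cz, Ez, hcz, hEz, hz⟩ := good_z (N1 := N1) (N2 := N2) h3 (G.totalDegree : ℝ)
    (by positivity)
  obtain ⟨K2, hK2⟩ := exists_nat_ge (2 * ((3 ^ N2 + Dh) * 3 ^ (N2 - 1)) / cy)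
  set C0 := siz T with hC0
  have hC01 : 1 ≤ C0 := by
    rw [hC0]
    unfold siz
    omega
  have hC0' : (0 : ℝ) < C0 := by exact_mod_cast hC01
  refine ⟨cx * (cy / 2) * cz / C0, Kx + Ky + K2 + 1, Ez * C0 ^ 4, by positivity,
    Nat.one_le_iff_ne_zero.2 (by positivity), ?_⟩
  intro X Y Z hX hY hZ
  obtain ⟨SX, hSX, hSXc⟩ := hx X (by omega)
  obtain ⟨SY, hSY, hSYc⟩ := hy Y (by omega)
  have hX1 : 1 ≤ X := by omega
  have hY1 : 1 ≤ Y := by omega
  have hX' : (0 : ℝ) < X := by exact_mod_cast hX1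
  have hY' : (0 : ℝ) < Y := by exact_mod_cast hY1
  have hSX' : ∀ x ∈ SX, MvPolynomial.eval x f1 ≠ 0 ∧ MvPolynomial.eval x f3 ≠ 0 := by
    intro x hx
    obtain ⟨-, -, -, b4⟩ := hSX x hx
    rw [map_mul] at b4
    exact ⟨left_ne_zero_of_mul b4, right_ne_zero_of_mul b4⟩
  set F : (Fin N1 → ℤ) → (Fin N2 → ℤ) → Finset (Fin N3 → ℤ) := fun x y =>
    (bx N3 Z).filter fun z => Rep z ∧ InV T G x y z with hF
  set P := (SX ×ˢ (SY ×ˢ bx N3 Z)).filter fun t => Rep t.2.2 ∧ InV T G t.1 t.2.1 t.2.2 with hP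
  refine ⟨P, ?_, ?_⟩
  · intro t ht'
    rw [hP, mem_filter, mem_product, mem_product, mem_bx] at ht'
    obtain ⟨⟨a1, a2, a3⟩, a4, a5⟩ := ht'
    obtain ⟨b1, b2, b3, -⟩ := hSX _ a1
    obtain ⟨c1, c2, c3, -⟩ := hSY _ a2
    exact ⟨b1, c1, a4, a5, b2, b3, c2, c3, a3⟩
  · have hcard : P.card = ∑ x ∈ SX, ∑ y ∈ SY, (F x y).card := by
      rw [hP, card_filter, sum_product]
      refine Finset.sum_congr rfl fun x _ => ?_
      rw [sum_product]
      refine Finset.sum_congr rfl fun y _ => ?_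
      rw [hF, card_filter]
    set V : ℝ := cz * (Z : ℝ) ^ (N3 - 1) / (C0 * (X * Y)) with hV
    have hV0 : 0 ≤ V := by positivity
    have hfib : ∀ x ∈ SX, ∀ y ∈ SY, g3 T x y ≠ 0 → MvPolynomial.eval y (h x) ≠ 0 →
        V ≤ ((F x y).card : ℝ) := by
      intro x hx y hy hg hhy
      obtain ⟨-, b2, -, -⟩ := hSX x hx
      obtain ⟨-, c2, -, c4⟩ := hSY y hy
      have h4 := hz T x y hg (hg1 x (hSX' x hx).1) (hg2 y c4)
        (fun z => evz G (tri x y z) = 0)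
        (fun Z' hZ' => by
          have h5 := few_zG (by omega) G hg (hhz x y hhy) Z' hZ'
          convert h5)
        (C0 * (X * Y)) Z (ht_g3 T b2 c2) (by
        calc Ez * (C0 * (X * Y)) ^ 4 = Ez * C0 ^ 4 * (X * Y) ^ 4 := by ring
          _ ≤ Z := hZ)
      rw [hV, div_le_iff₀ (by positivity)]
      push_cast at h4
      calc cz * (Z : ℝ) ^ (N3 - 1) ≤ _ := h4
        _ = _ := by
          rw [hF]
          have : ∀ z, (Rep z ∧ InU T x y z ∧ ¬ evz G (tri x y z) = 0) ↔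
            (Rep z ∧ InV T G x y z) := fun z => Iff.rfl
          simp only [this]
          ring
    have hrow : ∀ x ∈ SX, (cy / 2) * (Y : ℝ) ^ N2 * V ≤ ((∑ y ∈ SY, (F x y).card : ℕ) : ℝ) := by
      intro x hx
      have h4 := few_y (hg1 x (hSX' x hx).1) Y hY1
      have h4' := zeros (by omega) (hh0 x (hSX' x hx).2) Y hY1
      have h5 : ((SY.filter fun y => g3 T x y = 0 ∨ MvPolynomial.eval y (h x) = 0).card : ℝ) ≤
          (3 ^ N2 + Dh) * (3 * Y) ^ (N2 - 1) := by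
        have e1 : (SY.filter fun y => g3 T x y = 0 ∨ MvPolynomial.eval y (h x) = 0) ⊆
            ((bx N2 Y).filter fun y => g3 T x y = 0) ∪
            ((bx N2 Y).filter fun y => MvPolynomial.eval y (h x) = 0) := by
          intro y hy
          rw [mem_filter] at hy
          rw [mem_union, mem_filter, mem_filter, mem_bx]
          rcases hy.2 with h' | h'
          · exact Or.inl ⟨(hSY y hy.1).2.1, h'⟩
          · exact Or.inr ⟨(hSY y hy.1).2.1, h'⟩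
        have e2 := (card_le_card e1).trans (card_union_le _ _)
        have e3 : ((SY.filter fun y => g3 T x y = 0 ∨ MvPolynomial.eval y (h x) = 0).card : ℝ) ≤
            (((bx N2 Y).filter fun y => g3 T x y = 0).card : ℝ) +
            (((bx N2 Y).filter fun y => MvPolynomial.eval y (h x) = 0).card : ℝ) := by
          exact_mod_cast e2
        have e4 : ((h x).totalDegree : ℝ) * (3 * (Y : ℝ)) ^ (N2 - 1) ≤
            Dh * (3 * (Y : ℝ)) ^ (N2 - 1) := by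
          gcongr
          exact hhd x
        have e5 : (3 ^ N2 + (Dh : ℝ)) * (3 * Y) ^ (N2 - 1) =
          3 ^ N2 * (3 * (Y : ℝ)) ^ (N2 - 1) + Dh * (3 * (Y : ℝ)) ^ (N2 - 1) := by ring
        rw [e5]
        linarith
      have h6 := Finset.card_filter_add_card_filter_not (s := SY)
        (fun y => g3 T x y = 0 ∨ MvPolynomial.eval y (h x) = 0)
      set S' := SY.filter (fun y => ¬ (g3 T x y = 0 ∨ MvPolynomial.eval y (h x) = 0)) with hS'
      have h7 : (SY.card : ℝ) =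
          ((SY.filter fun y => g3 T x y = 0 ∨ MvPolynomial.eval y (h x) = 0).card : ℝ) +
          (S'.card : ℝ) := by
        exact_mod_cast h6.symm
      have h8 : (3 ^ N2 + (Dh : ℝ)) * (3 * (Y : ℝ)) ^ (N2 - 1) ≤ cy / 2 * (Y : ℝ) ^ N2 := by
        have e1 : (Y : ℝ) ^ N2 = (Y : ℝ) ^ (N2 - 1) * Y := by
          rw [← pow_succ]
          congr 1
          omega
        have e2 : 2 * ((3 ^ N2 + (Dh : ℝ)) * 3 ^ (N2 - 1)) ≤ cy * (Y : ℝ) := by
          rw [div_le_iff₀ hcy] at hK2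
          have : (K2 : ℝ) ≤ Y := by exact_mod_cast (by omega : K2 ≤ Y)
          nlinarith
        rw [e1, mul_pow]
        calc (3 ^ N2 + (Dh : ℝ)) * (3 ^ (N2 - 1) * (Y : ℝ) ^ (N2 - 1)) =
              (2 * ((3 ^ N2 + (Dh : ℝ)) * 3 ^ (N2 - 1))) / 2 * (Y : ℝ) ^ (N2 - 1) := by ring
          _ ≤ (cy * (Y : ℝ)) / 2 * (Y : ℝ) ^ (N2 - 1) := by gcongr
          _ = _ := by ring
      have h9 : (cy / 2) * (Y : ℝ) ^ N2 ≤ (S'.card : ℝ) := by
        linarith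
      calc (cy / 2) * (Y : ℝ) ^ N2 * V ≤ (S'.card : ℝ) * V := by
            gcongr
        _ = ∑ y ∈ S', V := by
            rw [Finset.sum_const, nsmul_eq_mul]
        _ ≤ ∑ y ∈ S', ((F x y).card : ℝ) := by
            refine Finset.sum_le_sum fun y hy => ?_
            rw [hS', mem_filter, not_or] at hy
            exact hfib x hx y hy.1 hy.2.1 hy.2.2
        _ ≤ ∑ y ∈ SY, ((F x y).card : ℝ) :=
            Finset.sum_le_sum_of_subset_of_nonneg (filter_subset _ _)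
              (fun _ _ _ => by positivity)
        _ = _ := by push_cast; rfl
    calc cx * (cy / 2) * cz / C0 * ((X : ℝ) ^ (N1 - 1) * (Y : ℝ) ^ (N2 - 1) * (Z : ℝ) ^ (N3 - 1)) =
          (cx * (X : ℝ) ^ N1) * ((cy / 2) * (Y : ℝ) ^ N2 * V) := by
          have e1 : (X : ℝ) ^ N1 = (X : ℝ) ^ (N1 - 1) * X := by
            rw [← pow_succ]
            congr 1
            omega
          have e2 : (Y : ℝ) ^ N2 = (Y : ℝ) ^ (N2 - 1) * Y := by
            rw [← pow_succ]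
            congr 1
            omega
          rw [hV, e1, e2]
          field_simp
      _ ≤ (SX.card : ℝ) * ((cy / 2) * (Y : ℝ) ^ N2 * V) := by gcongr
      _ = ∑ x ∈ SX, (cy / 2) * (Y : ℝ) ^ N2 * V := by rw [Finset.sum_const, nsmul_eq_mul]
      _ ≤ ∑ x ∈ SX, ((∑ y ∈ SY, (F x y).card : ℕ) : ℝ) := Finset.sum_le_sum hrow
      _ = (P.card : ℝ) := by rw [hcard]; push_cast; rfl

end Pool.Agent.H548.TL
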