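import Mathlib
import Pool.Agent.H548.TL.BoxLow

/-! The lower bound. -/

namespace Pool.Agent.H548.TL

open Finset Matrix
open Pool.Agent.H548.WM (ht bx mem_bx ht_le le_ht le_ht' exists_ht card_bx_le ht_pos Rep)

variable {N1 N2 N3 : ℕ}

theorem root (q : ℝ) (e G : ℕ) (he : 1 ≤ e) (hG : 1 ≤ G) (h : (G : ℝ) ^ e ≤ q) :
    ∃ Z : ℕ, G ≤ Z ∧ (Z : ℝ) ^ e ≤ q ∧ q ≤ 2 ^ e * (Z : ℝ) ^ e := by
  have hG' : (1 : ℝ) ≤ G := by exact_mod_cast hG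
  have hq : 0 < q := lt_of_lt_of_le (by positivity) h
  set r : ℝ := q ^ ((1 : ℝ) / e) with hr
  have he0 : (e : ℝ) ≠ 0 := by
    have : (0 : ℝ) < e := by exact_mod_cast he
    exact this.ne'
  have hr0 : 0 ≤ r := by positivity
  have hre : r ^ e = q := by
    rw [hr, ← Real.rpow_natCast, ← Real.rpow_mul hq.le, one_div_mul_cancel he0, Real.rpow_one]
  have hGr : (G : ℝ) ≤ r := by
    by_contra hc
    push Not at hc
    have : r ^ e < (G : ℝ) ^ e := pow_lt_pow_left₀ hc hr0 (by omega)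
    linarith
  have hZ1 : G ≤ ⌊r⌋₊ := Nat.le_floor hGr
  have hZ2 : (⌊r⌋₊ : ℝ) ≤ r := Nat.floor_le hr0
  have hZ3 : r < (⌊r⌋₊ : ℝ) + 1 := Nat.lt_floor_add_one r
  refine ⟨⌊r⌋₊, hZ1, ?_, ?_⟩
  · rw [← hre]
    gcongr
  · have h1 : (1 : ℝ) ≤ ⌊r⌋₊ := by exact_mod_cast hG.trans hZ1
    rw [← hre, ← mul_pow]
    gcongr
    linarith

/-- The lower bound for integral heights. -/
theorem lower_nat (h1 : 3 ≤ N1) (h2 : 3 ≤ N2) (h3 : 3 ≤ N3) {T : Fin N1 → Fin N2 → Fin N3 → ℤ}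
    (hs : Sm ℝ T) {G : MvPolynomial (Fin N1 ⊕ Fin N2 ⊕ Fin N3) ℤ}
    (hG : ∃ (x : Fin N1 → ℂ) (y : Fin N2 → ℂ) (z : Fin N3 → ℂ), InV T G x y z) :
    ∃ (c : ℝ) (L₀ : ℕ), 0 < c ∧ 1 ≤ L₀ ∧ ∀ N : ℕ, L₀ ≤ Nat.log 2 N →
    ∃ P : Finset ((Fin N1 → ℤ) × (Fin N2 → ℤ) × (Fin N3 → ℤ)),
      (∀ t ∈ P, Rep t.1 ∧ Rep t.2.1 ∧ Rep t.2.2 ∧ InV T G t.1 t.2.1 t.2.2 ∧
        (ht t.1 : ℝ) ^ (N1 - 1) * (ht t.2.1 : ℝ) ^ (N2 - 1) * (ht t.2.2 : ℝ) ^ (N3 - 1) ≤ N) ∧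
      c * (N * (Nat.log 2 N : ℝ) ^ 2) ≤ P.card := by
  classical
  obtain ⟨c, K, E, hc, hE, h⟩ := box_low h1 h2 h3 hs hG
  set a := N1 - 1 with ha
  set b := N2 - 1 with hb
  set e := N3 - 1 with he
  have he1 : 1 ≤ e := by omega
  set s := 8 * e + a + b with hsdef
  set M := 2 * s with hM
  have hM0 : 0 < M := by omega
  have hM' : (0 : ℝ) < M := by exact_mod_cast hM0
  refine ⟨c / 2 ^ e / (2 * M) ^ 2, 2 * M * K + 2 * E ^ e + 1, by positivity, by omega, ?_⟩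
  intro N hN
  set L := Nat.log 2 N with hL
  have hN0 : N ≠ 0 := by
    rintro rfl
    simp at hL
    omega
  have hLN : 2 ^ L ≤ N := Nat.pow_log_le_self 2 hN0
  have hN0' : (0 : ℝ) < N := by exact_mod_cast Nat.pos_of_ne_zero hN0
  set J := Finset.Icc K (L / M) with hJ
  -- the scales
  have hZ : ∀ i ∈ J, ∀ j ∈ J, ∃ Z : ℕ, E * (2 ^ i * 2 ^ j) ^ 4 ≤ Z ∧
      ((2 ^ i : ℕ) : ℝ) ^ a * ((2 ^ j : ℕ) : ℝ) ^ b * (Z : ℝ) ^ e ≤ N ∧
      (N : ℝ) / 2 ^ e ≤ ((2 ^ i : ℕ) : ℝ) ^ a * ((2 ^ j : ℕ) : ℝ) ^ b * (Z : ℝ) ^ e := by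
    intro i hi j hj
    rw [hJ, mem_Icc] at hi hj
    set D : ℝ := ((2 ^ i : ℕ) : ℝ) ^ a * ((2 ^ j : ℕ) : ℝ) ^ b with hD
    have hD0 : 0 < D := by positivity
    have hnat : (E * (2 ^ i * 2 ^ j) ^ 4) ^ e * ((2 ^ i) ^ a * (2 ^ j) ^ b) ≤ N := by
      have k1 : E ^ e ≤ 2 ^ (L / 2) := by
        calc E ^ e ≤ 2 ^ (E ^ e) := Nat.lt_two_pow_self.le
          _ ≤ 2 ^ (L / 2) := Nat.pow_le_pow_right (by norm_num) (by omega)
      have k2 : (2 : ℕ) ^ ((4 * e + a) * i + (4 * e + b) * j) ≤ 2 ^ (L / 2) := by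
        apply Nat.pow_le_pow_right (by norm_num)
        have e1 : (4 * e + a) * i ≤ (4 * e + a) * (L / M) := Nat.mul_le_mul_left _ hi.2
        have e2 : (4 * e + b) * j ≤ (4 * e + b) * (L / M) := Nat.mul_le_mul_left _ hj.2
        have e3 : (4 * e + a) * (L / M) + (4 * e + b) * (L / M) = s * (L / M) := by
          rw [hsdef]
          ring
        have e4 : s * (L / M) * 2 ≤ L := by
          calc s * (L / M) * 2 = M * (L / M) := by rw [hM]; ring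
            _ ≤ L := Nat.mul_div_le L M
        omega
      calc (E * (2 ^ i * 2 ^ j) ^ 4) ^ e * ((2 ^ i) ^ a * (2 ^ j) ^ b) =
            E ^ e * 2 ^ ((4 * e + a) * i + (4 * e + b) * j) := by
            rw [mul_pow, ← pow_mul, mul_pow, ← pow_mul, ← pow_mul, ← pow_mul, ← pow_mul,
              mul_assoc, ← pow_add]
            ring_nf
        _ ≤ 2 ^ (L / 2) * 2 ^ (L / 2) := Nat.mul_le_mul k1 k2
        _ = 2 ^ (L / 2 + L / 2) := by rw [pow_add]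
        _ ≤ 2 ^ L := Nat.pow_le_pow_right (by norm_num) (by omega)
        _ ≤ N := hLN
    have hq : (((E * (2 ^ i * 2 ^ j) ^ 4 : ℕ)) : ℝ) ^ e ≤ N / D := by
      rw [le_div_iff₀ hD0, hD]
      exact_mod_cast hnat
    obtain ⟨Z, hZ1, hZ2, hZ3⟩ := root (N / D) e _ he1
      (Nat.one_le_iff_ne_zero.2 (by positivity)) hq
    refine ⟨Z, hZ1, ?_, ?_⟩
    · rw [le_div_iff₀ hD0] at hZ2
      linarith
    · rw [div_le_iff₀ hD0] at hZ3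
      rw [div_le_iff₀ (by positivity)]
      linarith
  have hKj : ∀ j ∈ J, K ≤ 2 ^ j := by
    intro j hj
    rw [hJ, mem_Icc] at hj
    exact (hj.1.trans (Nat.lt_two_pow_self).le)
  have hPx : ∀ p ∈ J ×ˢ J, ∃ P : Finset ((Fin N1 → ℤ) × (Fin N2 → ℤ) × (Fin N3 → ℤ)),
      (∀ t ∈ P, Rep t.1 ∧ Rep t.2.1 ∧ Rep t.2.2 ∧ InV T G t.1 t.2.1 t.2.2 ∧
        (ht t.1 : ℝ) ^ a * (ht t.2.1 : ℝ) ^ b * (ht t.2.2 : ℝ) ^ e ≤ N ∧
        ht t.1 ≤ 2 ^ p.1 ∧ 2 ^ p.1 < 2 * ht t.1 ∧ ht t.2.1 ≤ 2 ^ p.2 ∧ 2 ^ p.2 < 2 * ht t.2.1) ∧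
      c / 2 ^ e * N ≤ P.card := by
    rintro ⟨i, j⟩ hp
    rw [mem_product] at hp
    obtain ⟨Z, hZ1, hZ2, hZ3⟩ := hZ i hp.1 j hp.2
    obtain ⟨P, hP, hPc⟩ := h (2 ^ i) (2 ^ j) Z (hKj i hp.1) (hKj j hp.2) hZ1
    refine ⟨P, ?_, ?_⟩
    · intro t ht'
      obtain ⟨a1, a2, a3, a4, a5, a6, a7, a8, a9⟩ := hP t ht'
      refine ⟨a1, a2, a3, a4, ?_, a5, a6, a7, a8⟩
      refine le_trans ?_ hZ2
      have b1 : (ht t.1 : ℝ) ≤ ((2 ^ i : ℕ) : ℝ) := by exact_mod_cast a5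
      have b2 : (ht t.2.1 : ℝ) ≤ ((2 ^ j : ℕ) : ℝ) := by exact_mod_cast a7
      have b3 : (ht t.2.2 : ℝ) ≤ (Z : ℝ) := by exact_mod_cast a9
      gcongr
    · refine le_trans ?_ hPc
      calc c / 2 ^ e * N = c * (N / 2 ^ e) := by ring
        _ ≤ _ := by gcongr
  choose! Pj hPj hPc using hPx
  set P := (J ×ˢ J).biUnion Pj with hP
  refine ⟨P, ?_, ?_⟩
  · intro t ht'
    rw [hP, mem_biUnion] at ht'
    obtain ⟨p, hp, htp⟩ := ht'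
    obtain ⟨a1, a2, a3, a4, a5, -⟩ := hPj p hp t htp
    exact ⟨a1, a2, a3, a4, a5⟩
  · have huniq : ∀ (i i' n : ℕ), n ≤ 2 ^ i → 2 ^ i < 2 * n → n ≤ 2 ^ i' → 2 ^ i' < 2 * n →
        i = i' := by
      have key : ∀ (i i' n : ℕ), n ≤ 2 ^ i → 2 ^ i' < 2 * n → ¬ i < i' := by
        intro i i' n e1 e2 hlt
        have h8 : 2 ^ (i + 1) ≤ 2 ^ i' := Nat.pow_le_pow_right (by norm_num) hlt
        rw [pow_succ] at h8
        omega
      intro i i' n e1 e2 e3 e4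
      have k1 := key i i' n e1 e4
      have k2 := key i' i n e3 e2
      omega
    have hdisj : ∀ p ∈ J ×ˢ J, ∀ p' ∈ J ×ˢ J, p ≠ p' → Disjoint (Pj p) (Pj p') := by
      intro p hp p' hp' hne
      rw [Finset.disjoint_left]
      intro t ht1 ht2
      obtain ⟨-, -, -, -, -, c1, c2, c3, c4⟩ := hPj p hp t ht1
      obtain ⟨-, -, -, -, -, d1, d2, d3, d4⟩ := hPj p' hp' t ht2
      exact hne (Prod.ext (huniq _ _ _ c1 c2 d1 d2) (huniq _ _ _ c3 c4 d3 d4))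
    have hcard : P.card = ∑ p ∈ J ×ˢ J, (Pj p).card := by
      rw [hP, Finset.card_biUnion hdisj]
    have hJc : (L : ℝ) / (2 * M) ≤ (J.card : ℝ) := by
      rw [hJ, Nat.card_Icc, div_le_iff₀ (by positivity)]
      have e1 : L < M * (L / M + 1) := Nat.lt_mul_div_succ L hM0
      have e2 : 2 * M * K ≤ L := by omega
      set u := L / M with hu
      have e3 : K ≤ u + 1 := by
        by_contra hcon
        push Not at hcon
        have : M * (u + 1) ≤ M * K := Nat.mul_le_mul_left _ hcon.le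
        have e5 : 2 * M * K = M * K + M * K := by ring
        omega
      rw [Nat.cast_sub e3]
      have e1' : (L : ℝ) < M * (u + 1) := by exact_mod_cast e1
      have e2' : 2 * (M : ℝ) * K ≤ L := by exact_mod_cast e2
      push_cast
      nlinarith
    calc c / 2 ^ e / (2 * M) ^ 2 * (N * (L : ℝ) ^ 2) =
          (L : ℝ) / (2 * M) * ((L : ℝ) / (2 * M)) * (c / 2 ^ e * N) := by
          field_simp
      _ ≤ (J.card : ℝ) * (J.card : ℝ) * (c / 2 ^ e * N) := by gcongr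
      _ = ∑ p ∈ J ×ˢ J, c / 2 ^ e * (N : ℝ) := by
          rw [Finset.sum_const, card_product, nsmul_eq_mul]
          push_cast
          ring
      _ ≤ ∑ p ∈ J ×ˢ J, ((Pj p).card : ℝ) := Finset.sum_le_sum hPc
      _ = (P.card : ℝ) := by rw [hcard]; push_cast; rfl

/-- The lower bound. -/
theorem lower (h1 : 3 ≤ N1) (h2 : 3 ≤ N2) (h3 : 3 ≤ N3) {T : Fin N1 → Fin N2 → Fin N3 → ℤ}
    (hs : Sm ℝ T) {G : MvPolynomial (Fin N1 ⊕ Fin N2 ⊕ Fin N3) ℤ}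
    (hG : ∃ (x : Fin N1 → ℂ) (y : Fin N2 → ℂ) (z : Fin N3 → ℂ), InV T G x y z) :
    ∃ c X₀ : ℝ, 0 < c ∧ 1 ≤ X₀ ∧ ∀ X : ℝ, X₀ ≤ X →
    ∃ P : Finset ((Fin N1 → ℤ) × (Fin N2 → ℤ) × (Fin N3 → ℤ)),
      (∀ t ∈ P, Rep t.1 ∧ Rep t.2.1 ∧ Rep t.2.2 ∧ InV T G t.1 t.2.1 t.2.2 ∧
        (ht t.1 : ℝ) ^ (N1 - 1) * (ht t.2.1 : ℝ) ^ (N2 - 1) * (ht t.2.2 : ℝ) ^ (N3 - 1) ≤ X) ∧
      c * (X * Real.log X ^ 2) ≤ P.card := by
  obtain ⟨c, L₀, hc, hL1, h⟩ := lower_nat h1 h2 h3 hs hG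
  refine ⟨c / 8, 2 ^ L₀ + 1, by positivity, by
    have : (0 : ℝ) < 2 ^ L₀ := by positivity
    linarith, ?_⟩
  intro X hX
  have hp : (1 : ℝ) ≤ 2 ^ L₀ := one_le_pow₀ (by norm_num)
  have hX1 : 1 ≤ X := by linarith
  set N := ⌊X⌋₊ with hN
  have hNX : (N : ℝ) ≤ X := Nat.floor_le (by linarith)
  have hXN : X < N + 1 := Nat.lt_floor_add_one X
  have hN1 : 2 ^ L₀ ≤ N := by
    apply Nat.le_floor
    push_cast
    linarith
  have hN0 : N ≠ 0 := by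
    have : 0 < 2 ^ L₀ := by positivity
    omega
  have hLL : L₀ ≤ Nat.log 2 N := Nat.le_log_of_pow_le (by norm_num) hN1
  obtain ⟨P, hP, hPc⟩ := h N hLL
  refine ⟨P, ?_, ?_⟩
  · intro t ht'
    obtain ⟨a1, a2, a3, a4, a5⟩ := hP t ht'
    exact ⟨a1, a2, a3, a4, a5.trans hNX⟩
  · refine le_trans ?_ hPc
    set L := Nat.log 2 N with hL
    have hL1' : (1 : ℝ) ≤ L := by exact_mod_cast hL1.trans hLL
    have h4 : N + 1 ≤ 2 ^ (L + 1) := Nat.lt_pow_succ_log_self (by norm_num) N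
    have h5 : X ≤ (2 : ℝ) ^ (L + 1) := by
      have : ((N : ℝ) + 1) ≤ (2 : ℝ) ^ (L + 1) := by exact_mod_cast h4
      linarith
    have h6 : Real.log X ≤ 2 * L := by
      calc Real.log X ≤ Real.log ((2 : ℝ) ^ (L + 1)) := Real.log_le_log (by linarith) h5
        _ = ((L + 1 : ℕ) : ℝ) * Real.log 2 := by rw [Real.log_pow]
        _ ≤ ((L + 1 : ℕ) : ℝ) * 1 := by
            gcongr
            have := Real.log_two_lt_d9
            linarith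
        _ ≤ 2 * L := by
            push_cast
            linarith
    have h7 : 0 ≤ Real.log X := Real.log_nonneg hX1
    have h8 : Real.log X ^ 2 ≤ 4 * (L : ℝ) ^ 2 := by
      calc Real.log X ^ 2 ≤ (2 * (L : ℝ)) ^ 2 := by gcongr
        _ = _ := by ring
    have hN1' : (1 : ℝ) ≤ N := by exact_mod_cast Nat.one_le_iff_ne_zero.2 hN0
    have h9 : X ≤ 2 * N := by linarith
    calc c / 8 * (X * Real.log X ^ 2) ≤ c / 8 * ((2 * N) * (4 * (L : ℝ) ^ 2)) := by gcongr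
      _ = c * (N * (L : ℝ) ^ 2) := by ring

end Pool.Agent.H548.TL
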