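import Mathlib
import Pool.Agent.H548.TL.Fo

/-! The open set is not empty. -/

namespace Pool.Agent.H548.TL

open Module Matrix

variable {N1 N2 N3 : ℕ}

/-- If a vector `v` is not a multiple of `u ≠ 0`, then some `y` is orthogonal to `u`, not to `v`. -/
theorem exists_orth {N : ℕ} {u v : Fin N → ℂ} (hu : u ≠ 0) (h : ∀ c : ℂ, v ≠ c • u) :
    ∃ y : Fin N → ℂ, y ⬝ᵥ u = 0 ∧ y ⬝ᵥ v ≠ 0 := by
  obtain ⟨j, hj⟩ : ∃ j, u j ≠ 0 := by
    by_contra hcon
    push Not at hcon
    exact hu (funext hcon)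
  by_contra hcon
  push Not at hcon
  apply h (v j / u j)
  funext i
  have h1 := hcon (u j • Pi.single i 1 - u i • Pi.single j 1) (by
    rw [sub_dotProduct, smul_dotProduct, smul_dotProduct, single_one_dotProduct,
      single_one_dotProduct, smul_eq_mul, smul_eq_mul]
    ring)
  rw [sub_dotProduct, smul_dotProduct, smul_dotProduct, single_one_dotProduct,
      single_one_dotProduct, smul_eq_mul, smul_eq_mul] at h1
  rw [Pi.smul_apply, smul_eq_mul]
  field_simp
  linear_combination h1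

/-- A nonzero vector orthogonal to a given vector. -/
theorem exists_orth_ne {N : ℕ} (hN : 2 ≤ N) (u : Fin N → ℂ) :
    ∃ y : Fin N → ℂ, y ≠ 0 ∧ y ⬝ᵥ u = 0 := by
  set i : Fin N := ⟨0, by omega⟩ with hi
  set j : Fin N := ⟨1, by omega⟩ with hj
  have hij : i ≠ j := by
    rw [hi, hj]
    intro h
    simp at h
  by_cases h : u i = 0
  · refine ⟨Pi.single i 1, ?_, ?_⟩
    · intro h0
      have := congrFun h0 i
      simp at this
    · rw [single_one_dotProduct, h]
  · refine ⟨u i • Pi.single j 1 - u j • Pi.single i 1, ?_, ?_⟩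
    · intro h0
      have := congrFun h0 j
      simp [hij.symm] at this
      exact h this
    · rw [sub_dotProduct, smul_dotProduct, smul_dotProduct, single_one_dotProduct,
        single_one_dotProduct, smul_eq_mul, smul_eq_mul]
      ring

theorem g2_zero_right (T : Fin N1 → Fin N2 → Fin N3 → ℤ) (x : Fin N1 → ℂ) : g2 T x 0 = 0 := by
  rw [← Tx_mulVec, mulVec_zero]

theorem g3_zero_right (T : Fin N1 → Fin N2 → Fin N3 → ℤ) (x : Fin N1 → ℂ) : g3 T x 0 = 0 := by
  rw [← vecMul_Tx, zero_vecMul]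

theorem g3_zero_left (T : Fin N1 → Fin N2 → Fin N3 → ℤ) (y : Fin N2 → ℂ) : g3 T 0 y = 0 := by
  rw [← vecMul_Tx, Tx_zero, vecMul_zero]

theorem nonempty (h1 : 3 ≤ N1) (h2 : 3 ≤ N2) (h3 : 3 ≤ N3) {T : Fin N1 → Fin N2 → Fin N3 → ℤ}
    (hs : Sm ℂ T) : ∃ (x : Fin N1 → ℂ) (y : Fin N2 → ℂ) (z : Fin N3 → ℂ), InU T x y z := by
  obtain ⟨x0, hx0, hr⟩ := exists_rank (by omega) h2 h3 hs
  by_contra hcon
  push Not at hcon
  have hno : ∀ (x : Fin N1 → ℂ) (y : Fin N2 → ℂ) (z : Fin N3 → ℂ), tf T x y z = 0 →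
      g1 T y z = 0 ∨ g2 T x z = 0 ∨ g3 T x y = 0 := by
    intro x y z h
    by_contra hc
    push Not at hc
    exact hcon x y z ⟨h, hc⟩
  -- vectors outside of a line
  have hout : ∀ u : Fin N2 → ℂ, ∃ w : Fin N3 → ℂ, ∀ c : ℂ, g2 T x0 w ≠ c • u := by
    intro u
    by_contra hc
    push Not at hc
    have h4 : LinearMap.range (Tx T x0).mulVecLin ≤ Submodule.span ℂ {u} := by
      rintro _ ⟨w, rfl⟩
      obtain ⟨c, hc'⟩ := hc w
      rw [Matrix.mulVecLin_apply, Tx_mulVec, hc', Submodule.mem_span_singleton]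
      exact ⟨c, rfl⟩
    have h5 := Submodule.finrank_mono h4
    have h6 : finrank ℂ (LinearMap.range (Tx T x0).mulVecLin) = (Tx T x0).rank := rfl
    have h7 : finrank ℂ (Submodule.span ℂ {u}) ≤ 1 := by
      have := finrank_span_le_card (R := ℂ) ({u} : Set (Fin N2 → ℂ))
      simpa using this
    omega
  -- step b
  have hb : ∀ z : Fin N3 → ℂ, g2 T x0 z ≠ 0 → ∀ y : Fin N2 → ℂ, y ⬝ᵥ g2 T x0 z = 0 →
      g1 T y z = 0 := by
    intro z hz y1 hy1
    by_contra hne
    have h4 : g3 T x0 y1 = 0 := by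
      rcases hno x0 y1 z (by rw [tf_g2]; exact hy1) with h | h | h
      · exact absurd h hne
      · exact absurd h hz
      · exact h
    obtain ⟨w, hw⟩ := hout (g2 T x0 z)
    obtain ⟨y2, hy2, hy2w⟩ := exists_orth hz hw
    have h5 : g3 T x0 y2 ≠ 0 := by
      intro h0
      apply hy2w
      rw [← tf_g2, tf_g3, h0, dotProduct_zero]
    have h6 : g1 T y2 z = 0 := by
      rcases hno x0 y2 z (by rw [tf_g2]; exact hy2) with h | h | h
      · exact h
      · exact absurd h hz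
      · exact absurd h h5
    rcases hno x0 (y1 + y2) z (by rw [tf_g2, add_dotProduct, hy1, hy2, add_zero]) with h | h | h
    · rw [g1_add, h6, add_zero] at h
      exact hne h
    · exact hz h
    · rw [g3_add, h4, zero_add] at h
      exact h5 h
  -- step c
  have hc : ∀ z : Fin N3 → ℂ, g2 T x0 z ≠ 0 → ∀ x : Fin N1 → ℂ, ∃ c : ℂ,
      g2 T x z = c • g2 T x0 z := by
    intro z hz x
    by_contra hcc
    push Not at hcc
    obtain ⟨y, hy, hyx⟩ := exists_orth hz hcc
    apply hyx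
    rw [← tf_g2, tf_g1, hb z hz y hy, dotProduct_zero]
  -- step d
  obtain ⟨z1, hz1⟩ := hout 0
  have hz1' : g2 T x0 z1 ≠ 0 := by
    have := hz1 0
    rwa [zero_smul] at this
  obtain ⟨x, hx, hxz⟩ : ∃ x : Fin N1 → ℂ, x ≠ 0 ∧ g2 T x z1 = 0 := by
    set e0 : Fin N1 → ℂ := Pi.single ⟨0, by omega⟩ 1 with he0
    set e1 : Fin N1 → ℂ := Pi.single ⟨1, by omega⟩ 1 with he1
    obtain ⟨c0, hc0⟩ := hc z1 hz1' e0
    obtain ⟨c1, hc1⟩ := hc z1 hz1' e1
    by_cases h0 : c0 = 0
    · refine ⟨e0, ?_, ?_⟩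
      · intro h
        have := congrFun h ⟨0, by omega⟩
        simp [he0] at this
      · rw [hc0, h0, zero_smul]
    · refine ⟨e1 + (-(c1 / c0)) • e0, ?_, ?_⟩
      · intro h
        have := congrFun h ⟨1, by omega⟩
        simp [he0, he1] at this
      · rw [g2_lin, hc0, hc1, smul_smul, ← add_smul]
        have : c1 + -(c1 / c0) * c0 = 0 := by
          field_simp
          ring
        rw [this, zero_smul]
  -- step e
  have he1 : ∀ z : Fin N3 → ℂ, (∀ c : ℂ, g2 T x0 z ≠ c • g2 T x0 z1) → g2 T x z = 0 := by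
    intro z hz
    have hz0 : g2 T x0 z ≠ 0 := by
      have := hz 0
      rwa [zero_smul] at this
    have hz2 : g2 T x0 (z1 + z) ≠ 0 := by
      rw [g2_add]
      intro h
      apply hz (-1)
      rw [neg_smul, one_smul]
      exact eq_neg_of_add_eq_zero_right h
    obtain ⟨c, hc1⟩ := hc z hz0 x
    obtain ⟨d, hd1⟩ := hc (z1 + z) hz2 x
    rw [g2_add, hxz, zero_add, g2_add, hc1, smul_add] at hd1
    -- c P z = d P z1 + d P z
    by_cases hcd : c = d
    · rw [hcd] at hd1
      have h4 : d • g2 T x0 z1 = 0 := by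
        have h5 := hd1
        rw [eq_comm, add_eq_right] at h5
        exact h5
      rcases smul_eq_zero.1 h4 with h5 | h5
      · rw [hc1, hcd, h5, zero_smul]
      · exact absurd h5 hz1'
    · exfalso
      apply hz (d / (c - d))
      have h4 : (c - d) • g2 T x0 z = d • g2 T x0 z1 := by
        rw [sub_smul, hd1, add_sub_cancel_right]
      rw [div_eq_inv_mul, mul_smul, ← h4, smul_smul, inv_mul_cancel₀ (sub_ne_zero.2 hcd), one_smul]
  obtain ⟨z2, hz2⟩ := hout (g2 T x0 z1)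
  have he : ∀ z : Fin N3 → ℂ, g2 T x z = 0 := by
    intro z
    by_cases h : ∀ c : ℂ, g2 T x0 z ≠ c • g2 T x0 z1
    · exact he1 z h
    · push Not at h
      obtain ⟨c, hc'⟩ := h
      have h4 := he1 (z + z2) (by
        intro d hd
        rw [g2_add, hc'] at hd
        apply hz2 (d - c)
        rw [sub_smul, ← hd, add_sub_cancel_left])
      rw [g2_add, he1 z2 hz2, add_zero] at h4
      exact h4
  obtain ⟨y, hy, hyz⟩ := exists_orth_ne (by omega) (g2 T x0 z1)
  have hz10 : z1 ≠ 0 := by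
    rintro rfl
    apply hz1'
    rw [← Tx_mulVec, mulVec_zero]
  refine hs x y z1 hx hy hz10 ⟨hb z1 hz1' y hyz, he z1, ?_⟩
  apply dotProduct_eq_zero
  intro w
  rw [dotProduct_comm, ← tf_g3, tf_g2, he w, dotProduct_zero]

end Pool.Agent.H548.TL
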