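import Mathlib
import Pool.Agent.H548.TL.Low
import Pool.Agent.H548.TL.Geo

/-! Both bounds for the anticanonical height. -/

namespace Pool.Agent.H548.TL

open Finset Matrix
open Pool.Agent.H548.WM (ht Rep)

/-- The rational points of `U` outside of the hypersurface `G = 0` of anticanonical height at
most `B`. -/
def Pts {n1 n2 n3 : ℕ} (T : Fin (n1 + 1) → Fin (n2 + 1) → Fin (n3 + 1) → ℤ)
    (G : MvPolynomial (Fin (n1 + 1) ⊕ Fin (n2 + 1) ⊕ Fin (n3 + 1)) ℤ) (B : ℝ) :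
    Set ((Fin (n1 + 1) → ℤ) × (Fin (n2 + 1) → ℤ) × (Fin (n3 + 1) → ℤ)) :=
  {t | Rep t.1 ∧ Rep t.2.1 ∧ Rep t.2.2 ∧ InV T G t.1 t.2.1 t.2.2 ∧
    (ht t.1 : ℝ) ^ n1 * (ht t.2.1 : ℝ) ^ n2 * (ht t.2.2 : ℝ) ^ n3 ≤ B}

theorem fuj_one {n1 n2 n3 : ℕ} (h1 : 1 ≤ n1) (h2 : 1 ≤ n2) (h3 : 1 ≤ n3) :
    fuj n1 n2 n3 ![(n1 : ℝ), n2, n3] = 1 := by
  have e1 : (0 : ℝ) < n1 := by exact_mod_cast h1
  have e2 : (0 : ℝ) < n2 := by exact_mod_cast h2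
  have e3 : (0 : ℝ) < n3 := by exact_mod_cast h3
  rw [fuj_eq _ _ _ _ (by
    intro i
    fin_cases i
    · exact e1
    · exact e2
    · exact e3)]
  show max ((n1 : ℝ) / n1) (max ((n2 : ℝ) / n2) ((n3 : ℝ) / n3)) = 1
  rw [div_self e1.ne', div_self e2.ne', div_self e3.ne']
  simp

theorem order {n1 n2 n3 : ℕ} (h1 : 2 ≤ n1) (h2 : 2 ≤ n2) (h3 : 2 ≤ n3)
    (T : Fin (n1 + 1) → Fin (n2 + 1) → Fin (n3 + 1) → ℤ) (hs : Sm ℂ T)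
    (G : MvPolynomial (Fin (n1 + 1) ⊕ Fin (n2 + 1) ⊕ Fin (n3 + 1)) ℤ)
    (hG : ∃ (x : Fin (n1 + 1) → ℂ) (y : Fin (n2 + 1) → ℂ) (z : Fin (n3 + 1) → ℂ), InV T G x y z) :
    (∀ B : ℝ, 1 ≤ B → (Pts T G B).Finite) ∧
    (∃ c B₀ : ℝ, 0 < c ∧ ∀ B : ℝ, B₀ ≤ B →
      c * B * Real.log B ^ 2 ≤ ((Pts T G B).ncard : ℝ)) ∧
    ∀ ε : ℝ, 0 < ε → ∃ C : ℝ, ∀ B : ℝ, 1 ≤ B → ((Pts T G B).ncard : ℝ) ≤ C * B ^ (1 + ε) := by
  set l : Fin 3 → ℝ := ![(n1 : ℝ), n2, n3] with hl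
  have hl0 : ∀ i, 0 < l i := by
    intro i
    fin_cases i
    · show (0 : ℝ) < n1
      exact_mod_cast (by omega : 0 < n1)
    · show (0 : ℝ) < n2
      exact_mod_cast (by omega : 0 < n2)
    · show (0 : ℝ) < n3
      exact_mod_cast (by omega : 0 < n3)
  have hup : ∀ ε : ℝ, 0 < ε → ∃ C : ℝ, ∀ B : ℝ, 1 ≤ B → (Pt T l B).Finite ∧
      ((Pt T l B).ncard : ℝ) ≤ C * B ^ (1 + ε) := by
    intro ε hε
    have h := upper T n1 n2 n3 (by omega) (by omega) (by omega) (fun ε hε =>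
      box (by omega) (by omega) (by omega) (Sm.real hs) ε hε) l hl0 ε hε
    rw [hl, fuj_one (by omega) (by omega) (by omega)] at h
    exact h
  have hsub : ∀ B : ℝ, Pts T G B ⊆ Pt T l B := by
    rintro B t ⟨a1, a2, a3, a4, a5⟩
    refine ⟨a1, a2, a3, a4.1, ?_⟩
    have e1 : (ht t.1 : ℝ) ^ l 0 = (ht t.1 : ℝ) ^ n1 := Real.rpow_natCast _ _
    have e2 : (ht t.2.1 : ℝ) ^ l 1 = (ht t.2.1 : ℝ) ^ n2 := Real.rpow_natCast _ _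
    have e3 : (ht t.2.2 : ℝ) ^ l 2 = (ht t.2.2 : ℝ) ^ n3 := Real.rpow_natCast _ _
    rw [e1, e2, e3]
    exact a5
  obtain ⟨C1, hC1⟩ := hup 1 one_pos
  have hfin : ∀ B : ℝ, 1 ≤ B → (Pts T G B).Finite := fun B hB => (hC1 B hB).1.subset (hsub B)
  refine ⟨hfin, ?_, ?_⟩
  · obtain ⟨c, B₀, hc, hB₀, h⟩ := lower (N1 := n1 + 1) (N2 := n2 + 1) (N3 := n3 + 1) (by omega)
      (by omega) (by omega) (Sm.real hs) hG
    refine ⟨c, B₀, hc, fun B hB => ?_⟩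
    obtain ⟨P, hP, hPc⟩ := h B hB
    have h4 : (↑P : Set _) ⊆ Pts T G B := by
      intro t ht'
      exact hP t ht'
    have h5 := Set.ncard_le_ncard h4 (hfin B (hB₀.trans hB))
    rw [Set.ncard_coe_finset] at h5
    calc c * B * Real.log B ^ 2 = c * (B * Real.log B ^ 2) := by ring
      _ ≤ (P.card : ℝ) := hPc
      _ ≤ ((Pts T G B).ncard : ℝ) := by exact_mod_cast h5
  · intro ε hε
    obtain ⟨C, hC⟩ := hup ε hε
    refine ⟨C, fun B hB => ?_⟩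
    refine le_trans ?_ (hC B hB).2
    exact_mod_cast Set.ncard_le_ncard (hsub B) (hC B hB).1

end Pool.Agent.H548.TL
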